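import Pool.Agent.DI.Defs

/-! # Definitions for `k` algebraically independent numbers -/

namespace Pool.Agent.DIk

open Pool.Agent.QN Pool.Agent.QS

/-- the variables as elements of `M` -/
noncomputable def xM (K M : Type) (k : ℕ) [Field K] [Field M] [Algebra (A K k) M] : Fin k → M :=
  fun i => algebraMap (A K k) M (MvPolynomial.X i)

/-- a relation of `y` whose coefficients have degree at most `e` in the variables -/
def SX (K : Type) [Field K] (k : ℕ) {M : Type} [Field M] [Algebra (A K k) M] (e : ℕ) (y : M) :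
    Prop :=
  ∃ R : Polynomial (A K k), R ≠ 0 ∧ (∀ j, (R.coeff j).totalDegree ≤ e) ∧
    Polynomial.aeval y R = 0

/-- the same with the variables replaced by `x` -/
def SXL (K : Type) [Field K] {k : ℕ} {L : Type} [Field L] [Algebra K L] (e : ℕ) (x : Fin k → L)
    (y : L) : Prop :=
  ∃ R : Polynomial (A K k), R ≠ 0 ∧ (∀ j, (R.coeff j).totalDegree ≤ e) ∧
    Polynomial.eval₂ (MvPolynomial.aeval (R := K) x).toRingHom y R = 0

/-- `y` and the `w i` satisfy a relation of total degree `≤ d` over `K` -/
def TR (K : Type) [Field K] {k : ℕ} {L : Type} [Field L] [Algebra K L] (d : ℕ) (w : Fin k → L)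
    (y : L) : Prop :=
  ∃ P : MvPolynomial (Fin (k + 1)) K, P ≠ 0 ∧ P.totalDegree ≤ d ∧
    MvPolynomial.aeval (Fin.cons y w : Fin (k + 1) → L) P = 0

end Pool.Agent.DIk
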