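import Pool.Agent.DIk.Defs

/-! # The exchange of one variable -/

namespace Pool.Agent.DIk

open Pool.Agent.QN Pool.Agent.QS

/-- the variables are algebraically independent in `M` -/
theorem xM_indep {K : Type} [Field K] {k : ℕ} {M : Type} [Field M] [Algebra K M]
    [Algebra (A K k) M] [Algebra (Q K k) M] [IsScalarTower (A K k) (Q K k) M]
    [IsScalarTower K (A K k) M] : AlgebraicIndependent K (xM K M k) := by
  have h1 : (MvPolynomial.aeval (xM K M k) : MvPolynomial (Fin k) K →ₐ[K] M) =
      IsScalarTower.toAlgHom K (A K k) M := by
    refine MvPolynomial.algHom_ext fun i => ?_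
    rw [MvPolynomial.aeval_X]
    rfl
  have h2 : Function.Injective (algebraMap (A K k) M) := by
    rw [IsScalarTower.algebraMap_eq (A K k) (Q K k) M]
    exact (algebraMap (Q K k) M).injective.comp (IsFractionRing.injective (A K k) (Q K k))
  rw [algebraicIndependent_iff_injective_aeval, h1]
  exact h2

/-- an element that is algebraic over `K(x)` but not over `K` can replace one of the `x i` -/
theorem exists_index {K : Type} [Field K] {k : ℕ} {M : Type} [Field M] [Algebra K M]
    (x : Fin k → M) (hx : AlgebraicIndependent K x) (y : M)
    (hy : IsAlgebraic (Algebra.adjoin K (Set.range x)) y) (hK : ¬ IsAlgebraic K y) :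
    ∃ l : Fin k, AlgebraicIndependent K (Function.update x l y) := by
  classical
  by_contra hcon
  have hinj : Function.Injective x := hx.injective
  -- `y` is algebraic over all but one of the `x i`
  have h1 : ∀ l : Fin k, IsAlgebraic (Algebra.adjoin K (Set.range x \ {x l})) y := by
    intro l
    by_contra h2
    apply hcon
    refine ⟨l, ?_⟩
    have hx' : AlgebraicIndependent K (fun i : {i : Fin k // i ≠ l} => x i.1) :=
      hx.comp _ Subtype.val_injective
    have hr : Set.range (fun i : {i : Fin k // i ≠ l} => x i.1) = Set.range x \ {x l} := by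
      ext z
      constructor
      · rintro ⟨i, rfl⟩
        exact ⟨⟨i.1, rfl⟩, fun h => i.2 (hinj h)⟩
      · rintro ⟨⟨i, rfl⟩, h⟩
        exact ⟨⟨i, fun h' => h (by rw [h']; rfl)⟩, rfl⟩
    have h3 : Transcendental (Algebra.adjoin K (Set.range fun i : {i : Fin k // i ≠ l} => x i.1))
        y := by
      rw [hr]
      exact h2
    have h4 := (hx'.option_iff_transcendental y).2 h3
    let e : Fin k → Option {i : Fin k // i ≠ l} := fun i =>
      if h : i = l then none else some ⟨i, h⟩
    have he : Function.Injective e := by
      intro i j hij
      by_cases hi : i = l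
      · by_cases hj : j = l
        · rw [hi, hj]
        · simp [e, hi, hj] at hij
      · by_cases hj : j = l
        · simp [e, hi, hj] at hij
        · simpa [e, hi, hj] using hij
    have h5 := h4.comp e he
    have h6 : (fun o : Option {i : Fin k // i ≠ l} => o.elim y fun i => x i.1) ∘ e =
        Function.update x l y := by
      funext i
      by_cases hi : i = l
      · subst hi
        simp [e]
      · simp [e, hi]
    rwa [h6] at h5
  let Mt := AlgebraicIndependent.matroid K M
  have hI : Mt.Indep (Set.range x) := hx.to_subtype_range
  have hmem : ∀ s : Set M, IsAlgebraic (Algebra.adjoin K s) y → y ∈ Mt.closure s := by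
    intro s hs
    rw [AlgebraicIndependent.matroid_closure_eq]
    exact hs
  have h0 : y ∈ Mt.closure ∅ := by
    rcases isEmpty_or_nonempty (Fin k) with hk | hk
    · have h2 := hmem _ hy
      rwa [Set.range_eq_empty] at h2
    · have h2 := hI.closure_iInter_eq_biInter_closure_of_forall_subset
        (Js := fun l : Fin k => Set.range x \ {x l}) fun l => Set.sdiff_subset
      have h3 : (⋂ l : Fin k, Set.range x \ {x l}) = ∅ := by
        refine Set.eq_empty_iff_forall_notMem.2 fun z hz => ?_
        rw [Set.mem_iInter] at hz
        obtain ⟨i, rfl⟩ := (hz (Classical.arbitrary _)).1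
        exact (hz i).2 rfl
      rw [h3] at h2
      rw [h2, Set.mem_iInter]
      exact fun l => hmem _ (h1 l)
  rw [AlgebraicIndependent.matroid_closure_eq] at h0
  have h2 : IsAlgebraic (Algebra.adjoin K (∅ : Set M)) y := h0
  rw [Algebra.adjoin_empty] at h2
  exact hK (Subalgebra.isAlgebraic_of_isAlgebraic_bot h2)

end Pool.Agent.DIk
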