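import Pool.Agent.DIk.Defs

set_option autoImplicit false

/-! # Elimination of one variable -/

namespace Pool.Agent.DIk

open Pool.Agent.QN Pool.Agent.QS

namespace Res

open MvPolynomial

variable {K : Type} [Field K]

/-- evaluation in steps -/
theorem eval_fin {L : Type} [CommRing L] [Algebra K L] {n : ℕ} (w : Fin n → L) (t : L)
    (F : MvPolynomial (Fin (n + 1)) K) :
    Polynomial.eval₂ (aeval (R := K) w).toRingHom t (finSuccEquiv K n F) =
      aeval (Fin.cons t w : Fin (n + 1) → L) F := by
  induction F using MvPolynomial.induction_on with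
  | C a =>
    have h := (finSuccEquiv K n).commutes a
    rw [algebraMap_eq] at h
    rw [h, Polynomial.algebraMap_apply, Polynomial.eval₂_C, algebraMap_eq, aeval_C]
    exact aeval_C _ a
  | add p q hp hq => rw [map_add, map_add, Polynomial.eval₂_add, hp, hq]
  | mul_X p i hp =>
    rw [map_mul, map_mul, Polynomial.eval₂_mul, hp, aeval_X]
    congr 1
    refine Fin.cases ?_ (fun j => ?_) i
    · rw [finSuccEquiv_X_zero, Polynomial.eval₂_X, Fin.cons_zero]
    · rw [finSuccEquiv_X_succ, Polynomial.eval₂_C, Fin.cons_succ]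
      exact aeval_X _ j

/-- a relation as a polynomial in the variables `σ i` and `c` -/
noncomputable def rel {k n : ℕ} (σ : Fin k → Fin n) (c : Fin n) (R : Polynomial (A K k)) :
    MvPolynomial (Fin n) K :=
  Polynomial.eval₂ (rename (R := K) σ).toRingHom (X c) R

theorem aeval_rel {L : Type} [CommRing L] [Algebra K L] {k n : ℕ} (σ : Fin k → Fin n) (c : Fin n)
    (R : Polynomial (A K k)) (W : Fin n → L) :
    aeval W (rel σ c R) = Polynomial.eval₂ (aeval (R := K) (W ∘ σ)).toRingHom (W c) R := by
  have h := Polynomial.hom_eval₂ R (rename (R := K) σ).toRingHom (aeval (R := K) W).toRingHom (X c)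
  have h1 : (aeval (R := K) W).toRingHom (X c) = W c := aeval_X _ _
  have h2 : (aeval (R := K) W).toRingHom.comp (rename (R := K) σ).toRingHom =
      (aeval (R := K) (W ∘ σ)).toRingHom := by
    refine RingHom.ext fun p => ?_
    exact aeval_rename σ W p
  rw [h1, h2] at h
  exact h

theorem degreeOf_rel {k n : ℕ} (σ : Fin k → Fin n) {c v : Fin n} (hv : v ≠ c) {e : ℕ}
    (R : Polynomial (A K k)) (hR : ∀ j, (R.coeff j).totalDegree ≤ e) :
    (rel σ c R).degreeOf v ≤ e := by
  unfold rel
  rw [Polynomial.eval₂_eq_sum_range]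
  refine (degreeOf_sum_le _ _ _).trans (Finset.sup_le fun j _ => ?_)
  refine (degreeOf_mul_le _ _ _).trans ?_
  have h1 : degreeOf v ((X c : MvPolynomial (Fin n) K) ^ j) = 0 := by
    have h2 := degreeOf_pow_le v (X c : MvPolynomial (Fin n) K) j
    rw [degreeOf_X_of_ne hv, mul_zero] at h2
    omega
  rw [h1, add_zero]
  refine (degreeOf_le_totalDegree _ _).trans ?_
  exact (totalDegree_rename_le σ (R.coeff j)).trans (hR j)

/-- a relation is not zero if the variables can be separated -/
theorem rel_ne_zero {k n : ℕ} (σ : Fin k → Fin n) (c : Fin n) (R : Polynomial (A K k))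
    (hR : R ≠ 0) (W : Fin n → Polynomial (A K k)) (h1 : ∀ i, W (σ i) = Polynomial.C (X i))
    (h2 : W c = Polynomial.X) : rel σ c R ≠ 0 := by
  intro h
  have h3 := aeval_rel σ c R W
  rw [h, map_zero, h2] at h3
  have h4 : (aeval (R := K) (W ∘ σ)).toRingHom = (Polynomial.C : A K k →+* Polynomial (A K k)) := by
    refine MvPolynomial.ringHom_ext (fun a => ?_) fun i => ?_
    · refine (aeval_C _ a).trans ?_
      rw [Polynomial.algebraMap_apply, algebraMap_eq]
    · refine (aeval_X _ i).trans ?_
      exact h1 i
  rw [h4, Polynomial.eval₂_C_X] at h3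
  exact hR h3.symm

theorem degreeOf_resultant {n : ℕ} (f g : Polynomial (MvPolynomial (Fin n) K)) (v : Fin n)
    (e a b : ℕ) (hf : ∀ i, degreeOf v (f.coeff i) ≤ e) (hg : ∀ i, degreeOf v (g.coeff i) ≤ e) :
    degreeOf v (f.resultant g a b) ≤ (a + b) * e := by
  unfold Polynomial.resultant
  rw [Matrix.det_apply]
  refine (degreeOf_sum_le _ _ _).trans (Finset.sup_le fun s _ => ?_)
  have h1 : degreeOf v (∏ i, f.sylvester g a b (s i) i) ≤ (a + b) * e := by
    refine (degreeOf_prod_le _ _ _).trans ?_
    refine (Finset.sum_le_card_nsmul _ _ e fun i _ => ?_).trans ?_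
    · unfold Polynomial.sylvester
      rw [Matrix.of_apply]
      refine Fin.addCases (fun j => ?_) (fun j => ?_) i
      · rw [Fin.addCases_left]
        split_ifs
        · exact hg _
        · rw [degreeOf_zero]
          exact Nat.zero_le _
      · rw [Fin.addCases_right]
        split_ifs
        · exact hf _
        · rw [degreeOf_zero]
          exact Nat.zero_le _
    · rw [Finset.card_univ, Fintype.card_fin, smul_eq_mul]
  rcases Int.units_eq_one_or (Equiv.Perm.sign s) with h | h
  · rw [h, one_smul]
    exact h1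
  · rw [h, Units.neg_smul, one_smul, degreeOf_neg]
    exact h1

theorem prime_degree {k : ℕ} {p : A K k} (hp : Prime p) : 1 ≤ p.totalDegree := by
  by_contra hcon
  have h0 : p.totalDegree = 0 := by omega
  rw [totalDegree_eq_zero_iff_eq_C] at h0
  have hc : coeff 0 p ≠ 0 := by
    intro h1
    rw [h1, C_0] at h0
    exact hp.ne_zero h0
  apply hp.not_isUnit
  rw [h0]
  exact (isUnit_iff_ne_zero.2 hc).map C

/-- a primitive relation -/
theorem exists_prim {k : ℕ} {M : Type} [Field M] [Algebra K M] (x : Fin k → M)
    (hx : AlgebraicIndependent K x) (z : M) : ∀ e : ℕ, SXL K e x z →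
      ∃ R : Polynomial (A K k), R ≠ 0 ∧ (∀ j, (R.coeff j).totalDegree ≤ e) ∧
        Polynomial.eval₂ (aeval (R := K) x).toRingHom z R = 0 ∧
        ∀ p : A K k, Prime p → ∃ j, ¬ p ∣ R.coeff j := by
  intro e
  induction e with
  | zero =>
    rintro ⟨R, hR0, hRd, hR⟩
    refine ⟨R, hR0, hRd, hR, fun p hp => ?_⟩
    by_contra hcon
    push Not at hcon
    obtain ⟨j, hj⟩ : ∃ j, R.coeff j ≠ 0 := by
      by_contra h
      push Not at h
      exact hR0 (Polynomial.ext fun j => by rw [h j, Polynomial.coeff_zero])
    obtain ⟨q, hq⟩ := hcon j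
    have hq0 : q ≠ 0 := by
      rintro rfl
      rw [mul_zero] at hq
      exact hj hq
    have h1 := hRd j
    rw [hq, totalDegree_mul_of_isDomain hp.ne_zero hq0] at h1
    have h2 := prime_degree hp
    omega
  | succ e ih =>
    rintro ⟨R, hR0, hRd, hR⟩
    by_cases h : ∀ p : A K k, Prime p → ∃ j, ¬ p ∣ R.coeff j
    · exact ⟨R, hR0, hRd, hR, h⟩
    · push Not at h
      obtain ⟨p, hp, hpR⟩ := h
      obtain ⟨R2, hR2⟩ := (Polynomial.C_dvd_iff_dvd_coeff p R).2 hpR
      have hR20 : R2 ≠ 0 := by
        rintro rfl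
        rw [mul_zero] at hR2
        exact hR0 hR2
      have hS : SXL K e x z := by
        refine ⟨R2, hR20, fun j => ?_, ?_⟩
        · by_cases hj : R2.coeff j = 0
          · rw [hj, totalDegree_zero]
            exact Nat.zero_le _
          · have h1 := hRd j
            rw [hR2, Polynomial.coeff_C_mul, totalDegree_mul_of_isDomain hp.ne_zero hj] at h1
            have h2 := prime_degree hp
            omega
        · rw [hR2, Polynomial.eval₂_mul, Polynomial.eval₂_C] at hR
          rcases mul_eq_zero.1 hR with h1 | h1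
          · exact absurd (hx (h1.trans (map_zero _).symm)) hp.ne_zero
          · exact h1
      obtain ⟨R3, h1, h2, h3, h4⟩ := ih hS
      exact ⟨R3, h1, fun j => (h2 j).trans (Nat.le_succ e), h3, h4⟩

/-- the coefficients of a primitive polynomial have no common zero over the generic point -/
theorem common_root {k : ℕ} {Ω : Type} [Field Ω] [Algebra K Ω] (u : Fin k → Ω) (l : Fin k)
    (hu : AlgebraicIndependent K (fun i : {i // i ≠ l} => u i.1)) (R : Polynomial (A K k))
    (hR : R ≠ 0) (hprim : ∀ p : A K k, Prime p → ∃ j, ¬ p ∣ R.coeff j) :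
    ∃ j, aeval u (R.coeff j) ≠ 0 := by
  classical
  by_contra hcon
  push Not at hcon
  let ψ : A K k ≃ₐ[K] Polynomial (MvPolynomial {i // i ≠ l} K) :=
    (renameEquiv K (Equiv.optionSubtypeNe l).symm).trans (optionEquivLeft K {i // i ≠ l})
  have hψl : ψ (X l) = Polynomial.X := by
    show optionEquivLeft K {i // i ≠ l} (rename (Equiv.optionSubtypeNe l).symm (X l)) = _
    rw [rename_X, Equiv.optionSubtypeNe_symm_self, optionEquivLeft_X_none]
  have hψi : ∀ (i : Fin k) (h : i ≠ l), ψ (X i) = Polynomial.C (X ⟨i, h⟩) := by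
    intro i h
    show optionEquivLeft K {i // i ≠ l} (rename (Equiv.optionSubtypeNe l).symm (X i)) = _
    rw [rename_X, Equiv.optionSubtypeNe_symm_of_ne h, optionEquivLeft_X_some]
  obtain ⟨φ, hφ⟩ : ∃ φ : MvPolynomial {i // i ≠ l} K →+* Ω,
      φ = (aeval (R := K) (fun i : {i // i ≠ l} => u i.1)).toRingHom := ⟨_, rfl⟩
  have hinj : Function.Injective φ := by
    rw [hφ]
    exact hu
  have hev : ∀ P : A K k, Polynomial.eval₂ φ (u l) (ψ P) = aeval u P := by
    intro P
    induction P using MvPolynomial.induction_on with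
    | C a =>
      have h := ψ.commutes a
      rw [algebraMap_eq] at h
      rw [h, Polynomial.algebraMap_apply, Polynomial.eval₂_C, algebraMap_eq, aeval_C, hφ]
      exact aeval_C _ a
    | add p q hp hq => rw [map_add, map_add, Polynomial.eval₂_add, hp, hq]
    | mul_X p i hp =>
      rw [map_mul, map_mul, Polynomial.eval₂_mul, hp, aeval_X]
      congr 1
      by_cases hi : i = l
      · rw [hi, hψl, Polynomial.eval₂_X]
      · rw [hψi i hi, Polynomial.eval₂_C, hφ]
        exact aeval_X _ (⟨i, hi⟩ : {i // i ≠ l})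
  obtain ⟨j0, hj0⟩ : ∃ j, R.coeff j ≠ 0 := by
    by_contra h
    push Not at h
    exact hR (Polynomial.ext fun j => by rw [h j, Polynomial.coeff_zero])
  have hP0 : ψ (R.coeff j0) ≠ 0 := (map_ne_zero_iff ψ ψ.injective).2 hj0
  obtain ⟨s, hs, hs2⟩ := WfDvdMonoid.exists_factors (ψ (R.coeff j0)) hP0
  obtain ⟨p, hp, hpe⟩ : ∃ p : Polynomial (MvPolynomial {i // i ≠ l} K), Irreducible p ∧
      Polynomial.eval₂ φ (u l) p = 0 := by
    have h1 : (Polynomial.eval₂RingHom φ (u l)) s.prod = 0 := by
      obtain ⟨c, hc⟩ := hs2.dvd'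
      obtain ⟨c', hc'⟩ := hs2.symm.dvd'
      rw [hc, map_mul]
      have h2 : (Polynomial.eval₂RingHom φ (u l)) (ψ (R.coeff j0)) = 0 := (hev _).trans (hcon j0)
      rw [h2, zero_mul]
    rw [map_multiset_prod, Multiset.prod_eq_zero_iff, Multiset.mem_map] at h1
    obtain ⟨p, hp, hp2⟩ := h1
    exact ⟨p, hs p hp, hp2⟩
  have hdeg : p.natDegree ≠ 0 := by
    intro h
    rw [Polynomial.eq_C_of_natDegree_eq_zero h, Polynomial.eval₂_C] at hpe
    have h1 := hinj (hpe.trans (map_zero φ).symm)
    apply hp.ne_zero
    rw [Polynomial.eq_C_of_natDegree_eq_zero h, h1, Polynomial.C_0]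
  have hpp : p.IsPrimitive := hp.isPrimitive hdeg
  have hdvd : ∀ P : Polynomial (MvPolynomial {i // i ≠ l} K),
      Polynomial.eval₂ φ (u l) P = 0 → p ∣ P := by
    intro P hP
    by_contra hnd
    have h1 : Irreducible (p.map (algebraMap (MvPolynomial {i // i ≠ l} K)
        (FractionRing (MvPolynomial {i // i ≠ l} K)))) :=
      hpp.irreducible_iff_irreducible_map_fraction_map.1 hp
    have h2 : ¬ p.map (algebraMap (MvPolynomial {i // i ≠ l} K)
        (FractionRing (MvPolynomial {i // i ≠ l} K))) ∣
        P.map (algebraMap (MvPolynomial {i // i ≠ l} K)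
        (FractionRing (MvPolynomial {i // i ≠ l} K))) := fun h =>
      hnd (hpp.dvd_of_fraction_map_dvd_fraction_map h)
    obtain ⟨a, b, hab⟩ := h1.coprime_iff_not_dvd.2 h2
    have h3 := congrArg (Polynomial.eval₂ (IsFractionRing.lift hinj :
      FractionRing (MvPolynomial {i // i ≠ l} K) →+* Ω) (u l)) hab
    have h4 : (IsFractionRing.lift hinj : FractionRing (MvPolynomial {i // i ≠ l} K) →+* Ω).comp
        (algebraMap (MvPolynomial {i // i ≠ l} K) (FractionRing (MvPolynomial {i // i ≠ l} K))) =
        φ := RingHom.ext fun q => IsFractionRing.lift_algebraMap hinj q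
    rw [Polynomial.eval₂_add, Polynomial.eval₂_mul, Polynomial.eval₂_mul, Polynomial.eval₂_map,
      Polynomial.eval₂_map, h4, hpe, hP, mul_zero, mul_zero, add_zero, Polynomial.eval₂_one] at h3
    exact zero_ne_one h3
  have hpA : Prime (ψ.symm p) := by
    have h1 : Prime p := hp.prime
    exact (MulEquiv.prime_iff ψ.symm.toMulEquiv).2 h1
  obtain ⟨j, hj⟩ := hprim _ hpA
  apply hj
  have h1 := hdvd (ψ (R.coeff j)) ((hev _).trans (hcon j))
  have h2 := map_dvd ψ.symm h1
  rwa [AlgEquiv.symm_apply_apply] at h2

/-- a generic point over `M` -/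
theorem ind_poly {M : Type} [Field M] [Algebra K M] {k : ℕ} (w : Fin k → M)
    (hw : AlgebraicIndependent K w) : Function.Injective
      (aeval (R := K) (Fin.cons (Polynomial.X : Polynomial M) (fun i => Polynomial.C (w i)) :
        Fin (k + 1) → Polynomial M)) := by
  rw [injective_iff_map_eq_zero]
  intro P hP
  rw [← eval_fin] at hP
  have h1 : (aeval (R := K) fun i => (Polynomial.C (w i) : Polynomial M)).toRingHom =
      (Polynomial.C : M →+* Polynomial M).comp (aeval (R := K) w).toRingHom := by
    refine MvPolynomial.ringHom_ext (fun a => ?_) fun i => ?_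
    · refine (aeval_C _ a).trans ?_
      rw [Polynomial.algebraMap_apply]
      exact congrArg Polynomial.C (aeval_C w a).symm
    · refine (aeval_X _ i).trans ?_
      exact congrArg Polynomial.C (aeval_X w i).symm
  rw [h1] at hP
  have h2 : (finSuccEquiv K k P).map (aeval (R := K) w).toRingHom = 0 := hP
  have h3 : Function.Injective (aeval (R := K) w).toRingHom := hw
  have h4 := (Polynomial.map_eq_zero_iff h3).1 h2
  exact (map_eq_zero_iff (finSuccEquiv K k) (finSuccEquiv K k).injective).1 h4

/-- two relations at a point have no further common root -/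
theorem no_root {M Ω : Type} [Field M] [Field Ω] [Algebra K M] [Algebra M Ω] [Algebra K Ω]
    [IsScalarTower K M Ω] {k : ℕ} (x : Fin k → M) (l : Fin k) (y : M) (Z τ : Ω)
    (hZ : ¬ IsAlgebraic M Z) (hx : AlgebraicIndependent K x)
    (hi : AlgebraicIndependent K (Function.update x l y)) (R R' : Polynomial (A K k)) (hR0 : R ≠ 0)
    (hR'0 : R' ≠ 0) (hprim : ∀ p : A K k, Prime p → ∃ j, ¬ p ∣ R'.coeff j)
    (h1 : Polynomial.eval₂ (aeval (R := K)
      (Function.update (fun i => algebraMap M Ω (x i)) l τ)).toRingHom (algebraMap M Ω y) R = 0)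
    (h2 : Polynomial.eval₂ (aeval (R := K)
      (Function.update (fun i => algebraMap M Ω (x i)) l τ)).toRingHom Z R' = 0) : False := by
  classical
  obtain ⟨u, hu⟩ : ∃ u : Fin k → Ω, u = Function.update (fun i => algebraMap M Ω (x i)) l τ :=
    ⟨_, rfl⟩
  rw [← hu] at h1 h2
  have hul : u l = τ := by rw [hu, Function.update_self]
  have hui : ∀ i, i ≠ l → u i = algebraMap M Ω (x i) := fun i hi => by
    rw [hu, Function.update_of_ne hi]
  have hmap : ∀ w : Fin k → M, (algebraMap M Ω).comp (aeval (R := K) w).toRingHom =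
      (aeval (R := K) fun i => algebraMap M Ω (w i)).toRingHom := by
    intro w
    refine MvPolynomial.ringHom_ext (fun a => ?_) fun i => ?_
    · refine (congrArg (algebraMap M Ω) (aeval_C w a)).trans ?_
      rw [← IsScalarTower.algebraMap_apply]
      exact (aeval_C _ a).symm
    · refine (congrArg (algebraMap M Ω) (aeval_X w i)).trans ?_
      exact (aeval_X (R := K) (fun i => algebraMap M Ω (w i)) i).symm
  -- `τ` is algebraic
  have hτ : IsAlgebraic M τ := by
    let σ : Fin k → Fin (k + 1) := fun i => if i = l then 0 else i.succ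
    have hF : rel σ l.succ R ≠ 0 := by
      refine rel_ne_zero σ l.succ R hR0 (Fin.cons (Polynomial.C (X l))
        (Function.update (fun i => Polynomial.C (X i)) l Polynomial.X)) (fun i => ?_) ?_
      · by_cases h : i = l
        · have e0 : σ i = 0 := by simp only [σ, if_pos h]
          rw [e0, Fin.cons_zero, h]
        · simp only [σ, if_neg h, Fin.cons_succ, Function.update_of_ne h]
      · rw [Fin.cons_succ, Function.update_self]
    refine ⟨(finSuccEquiv K k (rel σ l.succ R)).map
      (aeval (R := K) (Function.update x l y)).toRingHom, ?_, ?_⟩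
    · intro h
      have h3 : Function.Injective (aeval (R := K) (Function.update x l y)).toRingHom := hi
      have h4 := (Polynomial.map_eq_zero_iff h3).1 h
      exact hF ((map_eq_zero_iff (finSuccEquiv K k) (finSuccEquiv K k).injective).1 h4)
    · rw [Polynomial.aeval_def, Polynomial.eval₂_map, hmap, eval_fin, aeval_rel]
      rw [← h1]
      have e1 : (Fin.cons τ (fun i => algebraMap M Ω (Function.update x l y i)) :
          Fin (k + 1) → Ω) ∘ σ = u := by
        funext i
        by_cases h : i = l
        · rw [Function.comp_apply]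
          simp only [σ, if_pos h, Fin.cons_zero]
          rw [h, hul]
        · rw [Function.comp_apply]
          simp only [σ, if_neg h, Fin.cons_succ]
          rw [Function.update_of_ne h, hui i h]
      rw [e1, Fin.cons_succ, Function.update_self]
  -- all coefficients vanish
  have hE : ∀ i, u i ∈ algebraicClosure M Ω := by
    intro i
    rw [mem_algebraicClosure_iff]
    by_cases h : i = l
    · rw [h, hul]
      exact hτ
    · rw [hui i h]
      exact isAlgebraic_algebraMap _
  have hcomp : (algebraMap (algebraicClosure M Ω) Ω).comp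
      (aeval (R := K) (fun i => (⟨u i, hE i⟩ : algebraicClosure M Ω))).toRingHom =
      (aeval (R := K) u).toRingHom := by
    refine MvPolynomial.ringHom_ext (fun a => ?_) fun i => ?_
    · refine (congrArg (algebraMap (algebraicClosure M Ω) Ω) (aeval_C _ a)).trans ?_
      refine Eq.trans ?_ (aeval_C _ a).symm
      rfl
    · refine (congrArg (algebraMap (algebraicClosure M Ω) Ω) (aeval_X _ i)).trans ?_
      exact (aeval_X _ i).symm
  have hZE : ¬ IsAlgebraic (algebraicClosure M Ω) Z := fun h => hZ (h.restrictScalars M)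
  have hG : R'.map (aeval (R := K) (fun i => (⟨u i, hE i⟩ : algebraicClosure M Ω))).toRingHom =
      0 := by
    by_contra hne
    refine hZE ⟨_, hne, ?_⟩
    rw [Polynomial.aeval_def, Polynomial.eval₂_map, hcomp]
    exact h2
  obtain ⟨j, hj⟩ := common_root u l (by
    have h3 : AlgebraicIndependent K (x ∘ (fun i : {i // i ≠ l} => i.1)) :=
      hx.comp _ Subtype.val_injective
    have h4 := h3.map' (f := IsScalarTower.toAlgHom K M Ω) (algebraMap M Ω).injective
    have e1 : (fun i : {i // i ≠ l} => u i.1) =
        (IsScalarTower.toAlgHom K M Ω) ∘ (x ∘ (fun i : {i // i ≠ l} => i.1)) := by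
      funext i
      exact hui i.1 i.2
    rw [e1]
    exact h4) R' hR'0 hprim
  apply hj
  have h3 := congrArg (fun P : Polynomial (algebraicClosure M Ω) => P.coeff j) hG
  simp only [Polynomial.coeff_map, Polynomial.coeff_zero] at h3
  have h4 := congrArg (algebraMap (algebraicClosure M Ω) Ω) h3
  rw [map_zero] at h4
  have h5 := congrArg (fun g : A K k →+* Ω => g (R'.coeff j)) hcomp
  exact h5.symm.trans h4

end Res

open MvPolynomial Res in
/-- elimination of `x l` from relations of `y` and of `z`: a relation of `z, x i (i ≠ l), y` whose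
degree in each `x i` is bounded (resultant in the variable `x l`; the variable `0` is `z`, the
variable `l.succ` is `y`, the variable `i.succ` is `x i`) -/
theorem exists_elim {K : Type} [Field K] {k : ℕ} {M : Type} [Field M] [Algebra K M]
    (x : Fin k → M) (l : Fin k) (y z : M) (e : ℕ) (hy : SXL K e x y) (hz : SXL K e x z)
    (hx : AlgebraicIndependent K x) (hi : AlgebraicIndependent K (Function.update x l y)) :
    ∃ S : MvPolynomial (Fin (k + 1)) K, S ≠ 0 ∧ (∀ i, i ≠ l → S.degreeOf i.succ ≤ 2 * e ^ 2) ∧
      MvPolynomial.aeval (Fin.cons z (Function.update x l y) : Fin (k + 1) → M) S = 0 := by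
  classical
  obtain ⟨R, hR0, hRd, hR⟩ := hy
  obtain ⟨R', hR'0, hR'd, hR', hprim⟩ := exists_prim x hx z e hz
  let σ : Fin k → Fin (k + 2) := fun i => if i = l then 0 else i.succ.succ
  obtain ⟨F, hFdef⟩ : ∃ F, F = rel (K := K) σ l.succ.succ R := ⟨_, rfl⟩
  obtain ⟨G, hGdef⟩ : ∃ G, G = rel (K := K) σ (0 : Fin (k + 1)).succ R' := ⟨_, rfl⟩
  obtain ⟨f, hf⟩ : ∃ f, f = finSuccEquiv K (k + 1) F := ⟨_, rfl⟩
  obtain ⟨g, hg⟩ : ∃ g, g = finSuccEquiv K (k + 1) G := ⟨_, rfl⟩
  have hF0 : F ≠ 0 := by
    rw [hFdef]
    refine rel_ne_zero σ _ R hR0 (Fin.cons (Polynomial.C (X l)) (Fin.cons 0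
      (Function.update (fun i => Polynomial.C (X i)) l Polynomial.X))) (fun i => ?_) ?_
    · by_cases h : i = l
      · have e0 : σ i = 0 := by simp only [σ, if_pos h]
        rw [e0, Fin.cons_zero, h]
      · simp only [σ, if_neg h, Fin.cons_succ, Function.update_of_ne h]
    · rw [Fin.cons_succ, Fin.cons_succ, Function.update_self]
  have hf0 : f ≠ 0 := by
    rw [hf]
    exact (map_ne_zero_iff _ (finSuccEquiv K (k + 1)).injective).2 hF0
  have hcomp : ∀ (L : Type) [CommRing L] [Algebra K L] (t z' : L) (w : Fin k → L),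
      (Fin.cons t (Fin.cons z' w : Fin (k + 1) → L) : Fin (k + 2) → L) ∘ σ =
        Function.update w l t := by
    intro L _ _ t z' w
    funext i
    by_cases h : i = l
    · rw [Function.comp_apply]
      simp only [σ, if_pos h, Fin.cons_zero]
      rw [h, Function.update_self]
    · rw [Function.comp_apply]
      simp only [σ, if_neg h, Fin.cons_succ]
      rw [Function.update_of_ne h]
  have hevf : ∀ (L : Type) [CommRing L] [Algebra K L] (t z' : L) (w : Fin k → L),
      Polynomial.eval₂ (aeval (R := K) (Fin.cons z' w : Fin (k + 1) → L)).toRingHom t f =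
        Polynomial.eval₂ (aeval (R := K) (Function.update w l t)).toRingHom (w l) R := by
    intro L _ _ t z' w
    rw [hf, eval_fin, hFdef, aeval_rel, hcomp, Fin.cons_succ, Fin.cons_succ]
  have hevg : ∀ (L : Type) [CommRing L] [Algebra K L] (t z' : L) (w : Fin k → L),
      Polynomial.eval₂ (aeval (R := K) (Fin.cons z' w : Fin (k + 1) → L)).toRingHom t g =
        Polynomial.eval₂ (aeval (R := K) (Function.update w l t)).toRingHom z' R' := by
    intro L _ _ t z' w
    rw [hg, eval_fin, hGdef, aeval_rel, hcomp, Fin.cons_succ, Fin.cons_zero]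
  have hpf : Polynomial.eval₂ (aeval (R := K) (Fin.cons z (Function.update x l y) :
      Fin (k + 1) → M)).toRingHom (x l) f = 0 := by
    rw [hevf, Function.update_idem, Function.update_eq_self, Function.update_self]
    exact hR
  have hpg : Polynomial.eval₂ (aeval (R := K) (Fin.cons z (Function.update x l y) :
      Fin (k + 1) → M)).toRingHom (x l) g = 0 := by
    rw [hevg, Function.update_idem, Function.update_eq_self]
    exact hR'
  have hdf : f.natDegree ≤ e := by
    rw [hf, natDegree_finSuccEquiv, hFdef]
    exact degreeOf_rel σ (Fin.succ_ne_zero _).symm R hRd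
  have hdg : g.natDegree ≤ e := by
    rw [hg, natDegree_finSuccEquiv, hGdef]
    exact degreeOf_rel σ (Fin.succ_ne_zero _).symm R' hR'd
  have hcf : ∀ i, i ≠ l → ∀ j, degreeOf i.succ (f.coeff j) ≤ e := by
    intro i hi j
    rw [hf]
    refine (degreeOf_coeff_finSuccEquiv F i.succ j).trans ?_
    rw [hFdef]
    exact degreeOf_rel σ (fun h => hi (Fin.succ_injective _ (Fin.succ_injective _ h))) R hRd
  have hcg : ∀ i : Fin k, ∀ j, degreeOf i.succ (g.coeff j) ≤ e := by
    intro i j
    rw [hg]
    refine (degreeOf_coeff_finSuccEquiv G i.succ j).trans ?_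
    rw [hGdef]
    exact degreeOf_rel σ (fun h => Fin.succ_ne_zero _ (Fin.succ_injective _ h)) R' hR'd
  have he2 : e ≤ 2 * e ^ 2 := by nlinarith
  by_cases hdeg : f.natDegree ≠ 0 ∨ g.natDegree ≠ 0
  · refine ⟨f.resultant g, ?_, fun i hi => ?_, ?_⟩
    · intro hres
      -- a common root over a generic point
      let L := FractionRing (Polynomial M)
      let Ω := AlgebraicClosure L
      let Z : Ω := algebraMap L Ω (algebraMap (Polynomial M) L Polynomial.X)
      obtain ⟨W, hW⟩ : ∃ W : Fin (k + 1) → Polynomial M, W = Fin.cons (Polynomial.X)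
        (fun i => Polynomial.C (Function.update x l y i)) := ⟨_, rfl⟩
      obtain ⟨ev, hev⟩ : ∃ ev : MvPolynomial (Fin (k + 1)) K →+* L,
        ev = (algebraMap (Polynomial M) L).comp (aeval (R := K) W).toRingHom := ⟨_, rfl⟩
      have hinj : Function.Injective ev := by
        rw [hev]
        refine (IsFractionRing.injective (Polynomial M) L).comp ?_
        rw [hW]
        exact ind_poly _ hi
      have h1 : (f.map ev).resultant (g.map ev) = 0 := by
        rw [Polynomial.natDegree_map_eq_of_injective hinj,
          Polynomial.natDegree_map_eq_of_injective hinj, Polynomial.resultant_map_map, hres,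
          map_zero]
      have h2 := (Polynomial.resultant_eq_zero_iff.1 h1).2
      have h2 := mt (Polynomial.isCoprime_iff_aeval_ne_zero_of_isAlgClosed L Ω (f.map ev)
        (g.map ev)).2 h2
      push Not at h2
      obtain ⟨τ, hτ1, hτ2⟩ := h2
      have hW2 : (algebraMap L Ω).comp ev = (aeval (R := K) (Fin.cons Z
          (fun i => algebraMap M Ω (Function.update x l y i)) : Fin (k + 1) → Ω)).toRingHom := by
        rw [hev, hW]
        refine MvPolynomial.ringHom_ext (fun a => ?_) fun i => ?_
        · refine (congrArg (algebraMap L Ω) (congrArg (algebraMap (Polynomial M) L)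
            (aeval_C _ a))).trans ?_
          refine Eq.trans ?_ (aeval_C _ a).symm
          rw [← IsScalarTower.algebraMap_apply K (Polynomial M) L,
            ← IsScalarTower.algebraMap_apply K L Ω]
        · refine (congrArg (algebraMap L Ω) (congrArg (algebraMap (Polynomial M) L)
            (aeval_X _ i))).trans ?_
          refine Eq.trans ?_ (aeval_X _ i).symm
          refine Fin.cases ?_ (fun j => ?_) i
          · rfl
          · rfl
      rw [Polynomial.aeval_def, Polynomial.eval₂_map, hW2] at hτ1 hτ2
      rw [hevf] at hτ1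
      rw [hevg] at hτ2
      have e1 : Function.update (fun i => algebraMap M Ω (Function.update x l y i)) l τ =
          Function.update (fun i => algebraMap M Ω (x i)) l τ := by
        funext i
        by_cases h : i = l
        · rw [h, Function.update_self, Function.update_self]
        · rw [Function.update_of_ne h, Function.update_of_ne h, Function.update_of_ne h]
      rw [e1, Function.update_self] at hτ1
      rw [e1] at hτ2
      refine no_root x l y Z τ ?_ hx hi R R' hR0 hR'0 hprim hτ1 hτ2
      rintro ⟨p, hp0, hp⟩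
      have h3 : Polynomial.aeval Z p = algebraMap L Ω (algebraMap (Polynomial M) L p) := by
        have h4 := Polynomial.aeval_algebraMap_apply Ω (algebraMap (Polynomial M) L Polynomial.X) p
        have h5 := Polynomial.aeval_algebraMap_apply L (Polynomial.X : Polynomial M) p
        rw [Polynomial.aeval_X_left_apply] at h5
        rw [h5] at h4
        exact h4
      rw [h3] at hp
      have h6 := (map_eq_zero_iff _ (algebraMap L Ω).injective).1 hp
      exact hp0 ((map_eq_zero_iff _ (IsFractionRing.injective (Polynomial M) L)).1 h6)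
    · refine (degreeOf_resultant f g i.succ e _ _ (hcf i hi) (hcg i)).trans ?_
      have h1 : f.natDegree + g.natDegree ≤ 2 * e := by omega
      calc (f.natDegree + g.natDegree) * e ≤ 2 * e * e := Nat.mul_le_mul_right e h1
        _ = 2 * e ^ 2 := by ring
    · obtain ⟨p, q, -, -, hpq⟩ := Polynomial.exists_mul_add_mul_eq_C_resultant f g le_rfl le_rfl
        hdeg
      have h1 := congrArg (Polynomial.eval₂ (aeval (R := K)
        (Fin.cons z (Function.update x l y) : Fin (k + 1) → M)).toRingHom (x l)) hpq
      rw [Polynomial.eval₂_add, Polynomial.eval₂_mul, Polynomial.eval₂_mul, hpf, hpg,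
        Polynomial.eval₂_C, zero_mul, zero_mul, add_zero] at h1
      exact h1.symm
  · push Not at hdeg
    have hfC : f = Polynomial.C (f.coeff 0) := Polynomial.eq_C_of_natDegree_eq_zero hdeg.1
    refine ⟨f.coeff 0, fun h => hf0 (by rw [hfC, h, Polynomial.C_0]),
      fun i hi => (hcf i hi 0).trans he2, ?_⟩
    rw [hfC, Polynomial.eval₂_C] at hpf
    exact hpf

end Pool.Agent.DIk
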