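import Pool.Agent.DIk.DegA
import Pool.Agent.DIk.Res
import Pool.Agent.DIk.Idx

/-! # Near elements satisfy a relation of bounded degree -/

namespace Pool.Agent.DIk

open Pool.Agent.QN Pool.Agent.QS

/-- the structure map is the evaluation at the variables -/
theorem aeval_xM {K M : Type} {k : ℕ} [Field K] [Field M] [Algebra K M] [Algebra (A K k) M]
    [IsScalarTower K (A K k) M] (f : A K k) :
    MvPolynomial.aeval (xM K M k) f = algebraMap (A K k) M f := by
  induction f using MvPolynomial.induction_on with
  | C a =>
    rw [MvPolynomial.aeval_C, IsScalarTower.algebraMap_apply K (A K k) M]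
    rfl
  | add p q hp hq => rw [map_add, map_add, hp, hq]
  | mul_X p i hp =>
    rw [map_mul, map_mul, hp, MvPolynomial.aeval_X]
    rfl

theorem SX.sxl {K M : Type} {k e : ℕ} [Field K] [Field M] [Algebra K M] [Algebra (A K k) M]
    [IsScalarTower K (A K k) M] {y : M} (h : SX K k e y) : SXL K e (xM K M k) y := by
  obtain ⟨R, h1, h2, h3⟩ := h
  refine ⟨R, h1, h2, ?_⟩
  rw [← h3, Polynomial.aeval_def]
  congr 1
  exact RingHom.ext fun f => aeval_xM f

theorem degreeOf_dvd {K σ : Type} [Field K] {P S : MvPolynomial σ K} (h : P ∣ S) (hS : S ≠ 0)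
    (i : σ) : P.degreeOf i ≤ S.degreeOf i := by
  obtain ⟨T, rfl⟩ := h
  rw [MvPolynomial.degreeOf_mul_eq (left_ne_zero_of_mul hS) (right_ne_zero_of_mul hS)]
  exact Nat.le_add_right _ _

theorem near_rel {K : Type} [Field K] [CharZero K] [IsAlgClosed K] {k : ℕ} {M : Type} [Field M]
    [Algebra K M] [Algebra (A K k) M] [Algebra (Q K k) M] [IsScalarTower (A K k) (Q K k) M]
    [IsScalarTower K (A K k) M] [IsScalarTower K (Q K k) M] [FiniteDimensional (Q K k) M]
    [IsGalois (Q K k) M] {e B : ℕ} (y y' : M) (hy : SX K k e y) (hy' : SX K k e y')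
    (l : Fin k) (hl : AlgebraicIndependent K (Function.update (xM K M k) l y))
    (F : Subgroup (M ≃ₐ[Q K k] M)) (hF : ∀ g ∈ F, g y = y ∧ g y' = y')
    (h : Nat.card (MulAction.stabilizer (M ≃ₐ[Q K k] M) y) ≤ B * Nat.card F)
    (h' : Nat.card (MulAction.stabilizer (M ≃ₐ[Q K k] M) y') ≤ B * Nat.card F) :
    TR K (2 * (e * B) + k * (2 * e ^ 2)) (Function.update (xM K M k) l y) y' := by
  classical
  obtain ⟨g, hg, hgd, hg0⟩ := deg_mid l hl hy F (fun s hs => (hF s hs).1)
    (fun s hs => (hF s hs).2) h
  obtain ⟨P, hP, hPd, hP0, hPS⟩ := exists_irred hl hg hg0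
  obtain ⟨S, hS, hSd, hS0⟩ := exists_elim (xM K M k) l y y' e hy.sxl hy'.sxl xM_indep hl
  have hd0 : P.degreeOf 0 ≤ e * B := hPd.trans hgd
  have hdi : ∀ i, i ≠ l → P.degreeOf i.succ ≤ 2 * e ^ 2 := fun i hi =>
    (degreeOf_dvd (hPS S hS0) hS i.succ).trans (hSd i hi)
  have hdl : P.degreeOf l.succ ≤ e * B := by
    by_cases hl' : AlgebraicIndependent K (Function.update (xM K M k) l y')
    · obtain ⟨g', hg', hgd', hg0'⟩ := deg_mid l hl' hy' F (fun s hs => (hF s hs).2)
        (fun s hs => (hF s hs).1) h'
      obtain ⟨P', hP', hPd', hP0', hPS'⟩ := exists_irred hl' hg' hg0'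
      let σ : Fin (k + 1) ≃ Fin (k + 1) := Equiv.swap 0 l.succ
      have hPs : Irreducible (MvPolynomial.rename σ P) :=
        (MulEquiv.irreducible_iff (MvPolynomial.renameEquiv K σ)).2 hP
      have hPs0 : MvPolynomial.aeval
          (Fin.cons y (Function.update (xM K M k) l y') : Fin (k + 1) → M)
          (MvPolynomial.rename σ P) = 0 := by
        rw [MvPolynomial.aeval_rename, ← hP0]
        congr 2
        funext i
        refine Fin.cases ?_ (fun i => ?_) i
        · simp [σ]
        · by_cases hi : i = l
          · have h1 : σ l.succ = 0 := Equiv.swap_apply_right _ _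
            rw [hi]
            simp only [Function.comp_apply, h1, Fin.cons_zero, Fin.cons_succ, Function.update_self]
          · have h1 : σ i.succ = i.succ :=
              Equiv.swap_apply_of_ne_of_ne (Fin.succ_ne_zero i) (by simpa using hi)
            simp only [Function.comp_apply, h1, Fin.cons_succ, Function.update_of_ne hi]
      have h1 : P'.degreeOf 0 = (MvPolynomial.rename σ P).degreeOf 0 := by
        have h2 : P' ∣ MvPolynomial.rename σ P := hPS' _ hPs0
        have h3 : MvPolynomial.rename σ P ∣ P' := (hP'.dvd_symm hPs h2)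
        exact le_antisymm (degreeOf_dvd h2 hPs.ne_zero 0) (degreeOf_dvd h3 hP'.ne_zero 0)
      have h2 : (MvPolynomial.rename σ P).degreeOf (σ l.succ) = P.degreeOf l.succ :=
        MvPolynomial.degreeOf_rename_of_injective σ.injective _
      have h3 : σ l.succ = 0 := Equiv.swap_apply_right _ _
      rw [← h2, h3, ← h1]
      exact hPd'.trans hgd'
    · have h1 : ∃ S0 : MvPolynomial (Fin k) K, S0 ≠ 0 ∧
          MvPolynomial.aeval (Function.update (xM K M k) l y') S0 = 0 := by
        by_contra hcon
        push Not at hcon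
        exact hl' (algebraicIndependent_iff.2 fun p hp => by
          by_contra hp0
          exact hcon p hp0 hp)
      obtain ⟨S0, hS0n, hS00⟩ := h1
      let f : Fin k → Fin (k + 1) := fun i => if i = l then 0 else i.succ
      have hf : Function.Injective f := by
        intro i j hij
        simp only [f] at hij
        split_ifs at hij with h1 h2 h2
        · rw [h1, h2]
        · exact absurd hij.symm (Fin.succ_ne_zero j)
        · exact absurd hij (Fin.succ_ne_zero i)
        · exact Fin.succ_injective _ hij
      have hr0 : MvPolynomial.aeval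
          (Fin.cons y' (Function.update (xM K M k) l y) : Fin (k + 1) → M)
          (MvPolynomial.rename f S0) = 0 := by
        rw [MvPolynomial.aeval_rename, ← hS00]
        congr 2
        funext i
        by_cases hi : i = l
        · rw [hi]
          simp only [Function.comp_apply, f, if_pos, Fin.cons_zero, Function.update_self]
        · simp only [Function.comp_apply, f, if_neg hi, Fin.cons_succ, Function.update_of_ne hi]
      have hrn : MvPolynomial.rename f S0 ≠ 0 := by
        intro h0
        exact hS0n (MvPolynomial.rename_injective f hf (by rw [h0, map_zero]))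
      have h2 : (MvPolynomial.rename f S0).degreeOf l.succ = 0 := by
        by_contra h0
        obtain ⟨i, -, hi⟩ := MvPolynomial.mem_vars_rename f S0
          (MvPolynomial.mem_vars_iff_degreeOf_ne_zero.2 h0)
        simp only [f] at hi
        split_ifs at hi with h4
        · exact Fin.succ_ne_zero l hi.symm
        · exact h4 (Fin.succ_injective _ hi)
      have h3 := degreeOf_dvd (hPS _ hr0) hrn l.succ
      rw [h2] at h3
      exact h3.trans (Nat.zero_le _)
  refine ⟨P, hP.ne_zero, ?_, hP0⟩
  rw [MvPolynomial.totalDegree]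
  refine Finset.sup_le fun m hm => ?_
  rw [Finsupp.sum_fintype _ _ fun _ => rfl, Fin.sum_univ_succ]
  have h1 : m 0 ≤ e * B := (MvPolynomial.monomial_le_degreeOf 0 hm).trans hd0
  have h2 : ∀ i ∈ (Finset.univ : Finset (Fin k)), m i.succ ≤
      (if i = l then e * B else 0) + 2 * e ^ 2 := by
    intro i _
    by_cases hi : i = l
    · rw [if_pos hi, hi]
      exact ((MvPolynomial.monomial_le_degreeOf l.succ hm).trans hdl).trans (Nat.le_add_right _ _)
    · rw [if_neg hi, zero_add]
      exact (MvPolynomial.monomial_le_degreeOf i.succ hm).trans (hdi i hi)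
  have h3 := Finset.sum_le_sum h2
  rw [Finset.sum_add_distrib, Finset.sum_ite_eq' Finset.univ l fun _ => e * B,
    if_pos (Finset.mem_univ l), Finset.sum_const, Finset.card_univ, Fintype.card_fin,
    smul_eq_mul] at h3
  omega

end Pool.Agent.DIk
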