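import Pool.Agent.DIk.Defs
import Pool.Agent.DI.Deg

/-! # Degrees over the field of `y` and of the other variables -/

set_option autoImplicit false

namespace Pool.Agent.DIk

open Pool.Agent.QN Pool.Agent.QS

/-- evaluation of rational functions at algebraically independent elements -/
noncomputable def psi {K M : Type} {k : ℕ} [Field K] [Field M] [Algebra K M] {w : Fin k → M}
    (hw : AlgebraicIndependent K w) : Q K k →+* M :=
  IsFractionRing.lift (A := A K k) (K := Q K k) (g := (MvPolynomial.aeval (R := K) w).toRingHom) hw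

theorem psi_alg {K M : Type} {k : ℕ} [Field K] [Field M] [Algebra K M] {w : Fin k → M}
    (hw : AlgebraicIndependent K w) (a : A K k) :
    psi hw (algebraMap (A K k) (Q K k) a) = MvPolynomial.aeval w a :=
  IsFractionRing.lift_algebraMap _ a

namespace DegA

section

variable {K M : Type} {k : ℕ} [Field K] [Field M] [Algebra K M] {w : Fin k → M}

theorem psi_comp (hw : AlgebraicIndependent K w) :
    (psi hw).comp (algebraMap (A K k) (Q K k)) = (MvPolynomial.aeval (R := K) w).toRingHom :=
  RingHom.ext fun a => psi_alg hw a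

theorem psi_const (hw : AlgebraicIndependent K w) (c : K) :
    algebraMap K M c ∈ (psi hw).fieldRange := by
  refine ⟨algebraMap (A K k) (Q K k) (MvPolynomial.C c), ?_⟩
  rw [psi_alg, MvPolynomial.aeval_C]

theorem psi_self (hw : AlgebraicIndependent K w) (i : Fin k) : w i ∈ (psi hw).fieldRange := by
  refine ⟨algebraMap (A K k) (Q K k) (MvPolynomial.X i), ?_⟩
  rw [psi_alg, MvPolynomial.aeval_X]

theorem ev (w : Fin k → M) (z : M) (P : MvPolynomial (Fin (k + 1)) K) :
    (MvPolynomial.finSuccEquiv K k P).eval₂ (MvPolynomial.aeval (R := K) w).toRingHom z =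
      MvPolynomial.aeval (Fin.cons z w : Fin (k + 1) → M) P := by
  induction P using MvPolynomial.induction_on with
  | C a =>
    rw [MvPolynomial.finSuccEquiv_apply, MvPolynomial.eval₂Hom_C, RingHom.comp_apply,
      Polynomial.eval₂_C, MvPolynomial.aeval_C]
    exact MvPolynomial.aeval_C _ _
  | add p q hp hq => rw [map_add, Polynomial.eval₂_add, hp, hq, map_add]
  | mul_X p i hp =>
    rw [map_mul, Polynomial.eval₂_mul, hp, map_mul]
    congr 1
    refine Fin.cases ?_ (fun i => ?_) i
    · rw [MvPolynomial.finSuccEquiv_X_zero, Polynomial.eval₂_X, MvPolynomial.aeval_X]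
      rfl
    · rw [MvPolynomial.finSuccEquiv_X_succ, Polynomial.eval₂_C, MvPolynomial.aeval_X]
      exact MvPolynomial.aeval_X _ _

/-- the exchange of `T` and `X l` -/
noncomputable def tha (K : Type) [Field K] {k : ℕ} (l : Fin k) : A K k →+* Polynomial (A K k) :=
  (MvPolynomial.aeval (R := K) (Function.update
    (fun i => Polynomial.C (MvPolynomial.X i : A K k)) l Polynomial.X)).toRingHom

/-- the exchange of `T` and `X l` -/
noncomputable def th (K : Type) [Field K] {k : ℕ} (l : Fin k) :
    Polynomial (A K k) →+* Polynomial (A K k) :=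
  Polynomial.eval₂RingHom (tha K l) (Polynomial.C (MvPolynomial.X l))

theorem tha_C (l : Fin k) (c : K) : tha K l (MvPolynomial.C c) =
    Polynomial.C (MvPolynomial.C c) := by
  exact MvPolynomial.aeval_C _ _

theorem tha_X (l i : Fin k) : tha K l (MvPolynomial.X i) = Function.update
    (fun i => Polynomial.C (MvPolynomial.X i : A K k)) l Polynomial.X i :=
  MvPolynomial.aeval_X _ _

theorem th_C (l : Fin k) (a : A K k) : th K l (Polynomial.C a) = tha K l a :=
  Polynomial.eval₂_C _ _

theorem th_X (l : Fin k) : th K l Polynomial.X = Polynomial.C (MvPolynomial.X l) :=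
  Polynomial.eval₂_X _ _

theorem th_th (l : Fin k) : (th K l).comp (th K l) = RingHom.id _ := by
  refine Polynomial.ringHom_ext' (MvPolynomial.ringHom_ext (fun c => ?_) fun i => ?_) ?_
  · show th K l (th K l (Polynomial.C (MvPolynomial.C c))) = Polynomial.C (MvPolynomial.C c)
    rw [th_C, tha_C, th_C, tha_C]
  · show th K l (th K l (Polynomial.C (MvPolynomial.X i))) = Polynomial.C (MvPolynomial.X i)
    rw [th_C, tha_X]
    by_cases hi : i = l
    · subst hi
      rw [Function.update_self, th_X]
    · rw [Function.update_of_ne hi, th_C, tha_X, Function.update_of_ne hi]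
  · show th K l (th K l Polynomial.X) = Polynomial.X
    rw [th_X, th_C, tha_X, Function.update_self]

theorem th_inj (l : Fin k) : Function.Injective (th K l) := by
  refine Function.LeftInverse.injective (g := th K l) fun p => ?_
  exact RingHom.congr_fun (th_th l) p

theorem tha_deg (l : Fin k) (a : A K k) : (tha K l a).natDegree ≤ a.totalDegree := by
  show (MvPolynomial.aeval (R := K) (Function.update
    (fun i => Polynomial.C (MvPolynomial.X i : A K k)) l Polynomial.X) a).natDegree ≤ _
  rw [MvPolynomial.aeval_def, MvPolynomial.eval₂_eq']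
  refine Polynomial.natDegree_sum_le_of_forall_le _ _ fun m hm => ?_
  have h1 : (algebraMap K (Polynomial (A K k)) (MvPolynomial.coeff m a)) =
      Polynomial.C (MvPolynomial.C (MvPolynomial.coeff m a)) := rfl
  rw [h1]
  refine (Polynomial.natDegree_C_mul_le _ _).trans ?_
  refine (Polynomial.natDegree_prod_le _ _).trans ?_
  refine le_trans ?_ (MvPolynomial.le_totalDegree hm)
  rw [Finsupp.sum_fintype _ _ fun _ => rfl]
  refine Finset.sum_le_sum fun i _ => ?_
  refine Polynomial.natDegree_pow_le.trans ?_
  have h2 : (Function.update (fun i => Polynomial.C (MvPolynomial.X i : A K k)) l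
      Polynomial.X i).natDegree ≤ 1 := by
    by_cases hi : i = l
    · subst hi
      rw [Function.update_self]
      exact Polynomial.natDegree_X_le
    · rw [Function.update_of_ne hi, Polynomial.natDegree_C]
      exact Nat.zero_le _
  exact (Nat.mul_le_mul_left _ h2).trans (Nat.mul_one _).le

theorem th_deg (l : Fin k) {e : ℕ} (R : Polynomial (A K k))
    (hR : ∀ j, (R.coeff j).totalDegree ≤ e) : (th K l R).natDegree ≤ e := by
  show (Polynomial.eval₂ (tha K l) (Polynomial.C (MvPolynomial.X l)) R).natDegree ≤ e
  rw [Polynomial.eval₂_eq_sum, Polynomial.sum_def]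
  refine Polynomial.natDegree_sum_le_of_forall_le _ _ fun j _ => ?_
  rw [← Polynomial.C_pow]
  exact (Polynomial.natDegree_mul_C_le _ _).trans ((tha_deg l _).trans (hR j))

end

section

variable {K : Type} [Field K] {k : ℕ} {M : Type} [Field M] [Algebra K M] [Algebra (A K k) M]
  [IsScalarTower K (A K k) M]

theorem th_ev (l : Fin k) (y : M) (R : Polynomial (A K k)) :
    (th K l R).eval₂ (MvPolynomial.aeval (R := K) (Function.update (xM K M k) l y)).toRingHom
      (xM K M k l) = Polynomial.aeval y R := by
  have h : (Polynomial.eval₂RingHom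
      (MvPolynomial.aeval (R := K) (Function.update (xM K M k) l y)).toRingHom
      (xM K M k l)).comp (th K l) = (Polynomial.aeval (R := A K k) y).toRingHom := by
    refine Polynomial.ringHom_ext' (MvPolynomial.ringHom_ext (fun c => ?_) fun i => ?_) ?_
    · show Polynomial.eval₂ _ _ (th K l (Polynomial.C (MvPolynomial.C c))) =
        Polynomial.aeval y (Polynomial.C (MvPolynomial.C c))
      rw [th_C, tha_C, Polynomial.eval₂_C, Polynomial.aeval_C]
      refine (MvPolynomial.aeval_C _ _).trans ?_
      exact IsScalarTower.algebraMap_apply K (A K k) M c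
    · show Polynomial.eval₂ _ _ (th K l (Polynomial.C (MvPolynomial.X i))) =
        Polynomial.aeval y (Polynomial.C (MvPolynomial.X i))
      rw [th_C, tha_X, Polynomial.aeval_C]
      by_cases hi : i = l
      · subst hi
        rw [Function.update_self, Polynomial.eval₂_X]
        rfl
      · rw [Function.update_of_ne hi, Polynomial.eval₂_C]
        refine (MvPolynomial.aeval_X _ _).trans ?_
        rw [Function.update_of_ne hi]
        rfl
    · show Polynomial.eval₂ _ _ (th K l Polynomial.X) = Polynomial.aeval y Polynomial.X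
      rw [th_X, Polynomial.eval₂_C, Polynomial.aeval_X]
      refine (MvPolynomial.aeval_X _ _).trans ?_
      rw [Function.update_self]
  exact RingHom.congr_fun h R

/-- a relation is a polynomial for `X l` over the field of the others -/
theorem poly_X {e : ℕ} {y : M} {l : Fin k}
    (hy : AlgebraicIndependent K (Function.update (xM K M k) l y)) (h : SX K k e y) :
    ∃ S : Polynomial (psi hy).fieldRange, S ≠ 0 ∧ S.natDegree ≤ e ∧
      Polynomial.aeval (xM K M k l) S = 0 := by
  obtain ⟨R, hR0, hRe, hRy⟩ := h
  let φ : A K k →+* (psi hy).fieldRange :=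
    (psi hy).rangeRestrictField.comp (algebraMap (A K k) (Q K k))
  have hφ : Function.Injective φ :=
    (psi hy).rangeRestrictField.injective.comp (IsFractionRing.injective (A K k) (Q K k))
  refine ⟨(th K l R).map φ, ?_, ?_, ?_⟩
  · intro h0
    rw [Polynomial.map_eq_zero_iff hφ] at h0
    exact hR0 (th_inj l (by rw [h0, map_zero]))
  · exact Polynomial.natDegree_map_le.trans (th_deg l R hRe)
  · rw [Polynomial.aeval_def, Polynomial.eval₂_map]
    have h1 : (algebraMap (psi hy).fieldRange M).comp φ =
        (MvPolynomial.aeval (R := K) (Function.update (xM K M k) l y)).toRingHom := by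
      rw [← psi_comp hy]
      rfl
    rw [h1, th_ev, hRy]

end

section

variable {K : Type} [Field K] {k : ℕ} {M : Type} [Field M] [Algebra K M]
  [Algebra (A K k) M] [Algebra (Q K k) M] [IsScalarTower (A K k) (Q K k) M]
  [IsScalarTower K (A K k) M] [FiniteDimensional (Q K k) M] [IsGalois (Q K k) M]

omit [FiniteDimensional (Q K k) M] [IsGalois (Q K k) M] in
/-- a subfield which contains `K` and the variables contains the rational functions -/
theorem deg_Q_le (L : Subfield M) (hK : ∀ c : K, algebraMap K M c ∈ L)
    (hX : ∀ i, xM K M k i ∈ L) (q : Q K k) : algebraMap (Q K k) M q ∈ L := by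
  have h1 : ∀ a : A K k, algebraMap (A K k) M a ∈ L := by
    intro a
    induction a using MvPolynomial.induction_on with
    | C c =>
      have h2 := hK c
      rwa [IsScalarTower.algebraMap_apply K (A K k) M] at h2
    | add p q hp hq =>
      rw [map_add]
      exact add_mem hp hq
    | mul_X p i hp =>
      rw [map_mul]
      exact mul_mem hp (hX i)
  obtain ⟨a, b, hb, rfl⟩ := IsFractionRing.div_surjective (A := A K k) q
  rw [map_div₀, ← IsScalarTower.algebraMap_apply, ← IsScalarTower.algebraMap_apply]
  exact div_mem (h1 a) (h1 b)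

/-- the degree of `M` over the field of `y` and the other variables -/
theorem deg_top {e : ℕ} {y : M} {l : Fin k}
    (hy : AlgebraicIndependent K (Function.update (xM K M k) l y)) (h : SX K k e y) :
    0 < Module.finrank (psi hy).fieldRange M ∧ Module.finrank (psi hy).fieldRange M ≤
      e * Nat.card (MulAction.stabilizer (M ≃ₐ[Q K k] M) y) := by
  obtain ⟨S, hS0, hSe, hSx⟩ := poly_X hy h
  have hint : IsIntegral (psi hy).fieldRange (xM K M k l) :=
    (isAlgebraic_iff_isIntegral).1 ⟨S, hS0, hSx⟩
  have hyr : y ∈ (psi hy).fieldRange := by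
    have h1 := psi_self hy l
    rwa [Function.update_self] at h1
  let L1 : IntermediateField (psi hy).fieldRange M :=
    IntermediateField.adjoin (psi hy).fieldRange {xM K M k l}
  have hL1 : Module.finrank (psi hy).fieldRange L1 ≤ e := by
    rw [IntermediateField.adjoin.finrank hint]
    exact (Polynomial.natDegree_le_natDegree (minpoly.degree_le_of_ne_zero _ _ hS0 hSx)).trans hSe
  have hfd : FiniteDimensional (psi hy).fieldRange L1 :=
    IntermediateField.adjoin.finiteDimensional hint
  have hL1pos : 0 < Module.finrank (psi hy).fieldRange L1 := Module.finrank_pos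
  -- the field `K(X, y)`
  let Ly : IntermediateField (Q K k) M := IntermediateField.adjoin (Q K k) {y}
  have hle : Ly.toSubfield ≤ L1.toSubfield := by
    refine Subfield.closure_le.2 ?_
    rintro z (⟨q, rfl⟩ | hz)
    · refine deg_Q_le L1.toSubfield (fun c => ?_) (fun i => ?_) q
      · exact L1.algebraMap_mem ⟨algebraMap K M c, psi_const hy c⟩
      · by_cases hi : i = l
        · rw [hi]
          exact IntermediateField.mem_adjoin_simple_self _ _
        · have h1 := psi_self hy i
          rw [Function.update_of_ne hi] at h1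
          exact L1.algebraMap_mem ⟨xM K M k i, h1⟩
    · rw [Set.mem_singleton_iff] at hz
      rw [hz]
      exact L1.algebraMap_mem ⟨y, hyr⟩
  have h1 : Subfield.relfinrank Ly.toSubfield L1.toSubfield * Module.finrank L1.toSubfield M =
      Module.finrank Ly.toSubfield M := Subfield.relfinrank_mul_finrank_top hle
  have h2 : Module.finrank Ly.toSubfield M =
      Nat.card (MulAction.stabilizer (M ≃ₐ[Q K k] M) y) := by
    have h3 : IntermediateField.fixedField (IntermediateField.fixingSubgroup Ly) = Ly :=
      IsGalois.fixedField_fixingSubgroup Ly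
    have h4 : Module.finrank Ly M = Nat.card (IntermediateField.fixingSubgroup Ly) := by
      rw [← IntermediateField.finrank_fixedField_eq_card, h3]
    have h5 : IntermediateField.fixingSubgroup Ly =
        MulAction.stabilizer (M ≃ₐ[Q K k] M) y := by
      refine le_antisymm (fun g hg => ?_) ?_
      · rw [IntermediateField.mem_fixingSubgroup_iff] at hg
        exact hg y (IntermediateField.mem_adjoin_simple_self _ _)
      · refine (IntermediateField.le_iff_le _ _).1 (IntermediateField.adjoin_simple_le_iff.2 ?_)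
        exact fun g => g.2
    rw [← h5]
    exact h4
  have h3 : Module.finrank (psi hy).fieldRange L1 * Module.finrank L1 M =
      Module.finrank (psi hy).fieldRange M := Module.finrank_mul_finrank _ _ _
  have h4 : Module.finrank L1.toSubfield M = Module.finrank L1 M := rfl
  have h5 : 0 < Nat.card (MulAction.stabilizer (M ≃ₐ[Q K k] M) y) := Nat.card_pos
  rw [h4, h2] at h1
  have h6 : 0 < Module.finrank L1 M := by
    rcases Nat.eq_zero_or_pos (Module.finrank L1 M) with h0 | h0
    · rw [h0, mul_zero] at h1
      omega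
    · exact h0
  have h7 : Module.finrank L1 M ≤ Nat.card (MulAction.stabilizer (M ≃ₐ[Q K k] M) y) :=
    Nat.le_of_dvd h5 ⟨_, by rw [← h1, mul_comm]⟩
  rw [← h3]
  exact ⟨Nat.mul_pos hL1pos h6, Nat.mul_le_mul hL1 h7⟩

end

end DegA

open DegA

/-- the degree of `z` over the field of `y` and of the `X i`, `i ≠ l` -/
theorem deg_mid {K : Type} [Field K] {k : ℕ} {M : Type} [Field M] [Algebra K M]
    [Algebra (A K k) M] [Algebra (Q K k) M] [IsScalarTower (A K k) (Q K k) M]
    [IsScalarTower K (A K k) M] [FiniteDimensional (Q K k) M] [IsGalois (Q K k) M] {e B : ℕ}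
    {y z : M} (l : Fin k) (hy : AlgebraicIndependent K (Function.update (xM K M k) l y))
    (h : SX K k e y) (F : Subgroup (M ≃ₐ[Q K k] M)) (hFy : ∀ g ∈ F, g y = y)
    (hFz : ∀ g ∈ F, g z = z)
    (hB : Nat.card (MulAction.stabilizer (M ≃ₐ[Q K k] M) y) ≤ B * Nat.card F) :
    ∃ g : Polynomial (Q K k), g ≠ 0 ∧ g.natDegree ≤ e * B ∧ g.eval₂ (psi hy) z = 0 := by
  obtain ⟨hpos, hle⟩ := deg_top hy h
  let Z : IntermediateField (Q K k) M := IntermediateField.fixedField F
  have hZ : Module.finrank Z.toSubfield M = Nat.card F :=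
    IntermediateField.finrank_fixedField_eq_card F
  have hyZ : y ∈ Z.toSubfield := fun g => hFy g g.2
  have hzZ : z ∈ Z.toSubfield := fun g => hFz g g.2
  have hwZ : ∀ i, Function.update (xM K M k) l y i ∈ Z.toSubfield := by
    intro i
    by_cases hi : i = l
    · subst hi
      rw [Function.update_self]
      exact hyZ
    · rw [Function.update_of_ne hi, xM, IsScalarTower.algebraMap_apply (A K k) (Q K k) M]
      exact Z.algebraMap_mem _
  have hKZ : ∀ a : A K k,
      MvPolynomial.aeval (Function.update (xM K M k) l y) a ∈ Z.toSubfield := by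
    intro a
    induction a using MvPolynomial.induction_on with
    | C c =>
      rw [MvPolynomial.aeval_C, IsScalarTower.algebraMap_apply K (A K k) M,
        IsScalarTower.algebraMap_apply (A K k) (Q K k) M]
      exact Z.algebraMap_mem _
    | add p q hp hq =>
      rw [map_add]
      exact add_mem hp hq
    | mul_X p i hp =>
      rw [map_mul, MvPolynomial.aeval_X]
      exact mul_mem hp (hwZ i)
  have hsub : (psi hy).fieldRange ≤ Z.toSubfield := by
    rintro _ ⟨q, rfl⟩
    obtain ⟨a, b, hb, rfl⟩ := IsFractionRing.div_surjective (A := A K k) q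
    rw [map_div₀, psi_alg, psi_alg]
    exact div_mem (hKZ a) (hKZ b)
  have h1 : Subfield.relfinrank (psi hy).fieldRange Z.toSubfield *
      Module.finrank Z.toSubfield M = Module.finrank (psi hy).fieldRange M :=
    Subfield.relfinrank_mul_finrank_top hsub
  rw [hZ] at h1
  have hF : 0 < Nat.card F := Nat.card_pos
  have h2 : 0 < Subfield.relfinrank (psi hy).fieldRange Z.toSubfield := by
    rcases Nat.eq_zero_or_pos (Subfield.relfinrank (psi hy).fieldRange Z.toSubfield) with h0 | h0
    · rw [h0, zero_mul] at h1
      omega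
    · exact h0
  have h3 : Subfield.relfinrank (psi hy).fieldRange Z.toSubfield ≤ e * B := by
    refine Nat.le_of_mul_le_mul_right ?_ hF
    rw [h1, mul_assoc]
    exact hle.trans (Nat.mul_le_mul_left _ hB)
  let W : IntermediateField (psi hy).fieldRange M := Subfield.extendScalars hsub
  have h4 : Subfield.relfinrank (psi hy).fieldRange Z.toSubfield =
      Module.finrank (psi hy).fieldRange W := Subfield.relfinrank_eq_finrank_of_le hsub
  rw [h4] at h2 h3
  have hfd : FiniteDimensional (psi hy).fieldRange W := Module.finite_of_finrank_pos h2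
  let zz : W := ⟨z, hzZ⟩
  let g₁ : Polynomial (psi hy).fieldRange := minpoly (psi hy).fieldRange zz
  have hg₁ : g₁ ≠ 0 := minpoly.ne_zero (IsIntegral.of_finite _ zz)
  have hg₁d : g₁.natDegree ≤ e * B := (minpoly.natDegree_le zz).trans h3
  have hg₁z : Polynomial.aeval z g₁ = 0 := by
    have h6 := Polynomial.aeval_algebraMap_apply M zz g₁
    rw [minpoly.aeval, map_zero] at h6
    exact h6
  have hsurj : Function.Surjective (psi hy).rangeRestrictField := by
    rintro ⟨_, q, rfl⟩
    exact ⟨q, rfl⟩
  obtain ⟨g, hg⟩ := Polynomial.map_surjective _ hsurj g₁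
  refine ⟨g, ?_, ?_, ?_⟩
  · rintro rfl
    rw [Polynomial.map_zero] at hg
    exact hg₁ hg.symm
  · rw [← Polynomial.natDegree_map (psi hy).rangeRestrictField, hg]
    exact hg₁d
  · rw [Polynomial.aeval_def, ← hg, Polynomial.eval₂_map] at hg₁z
    exact hg₁z

/-- the irreducible relation between `z` and algebraically independent `w` -/
theorem exists_irred {K : Type} [Field K] {k : ℕ} {M : Type} [Field M] [Algebra K M]
    {w : Fin k → M} (hw : AlgebraicIndependent K w) {z : M} {g : Polynomial (Q K k)}
    (hg : g ≠ 0) (hgz : g.eval₂ (psi hw) z = 0) :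
    ∃ P : MvPolynomial (Fin (k + 1)) K, Irreducible P ∧ P.degreeOf 0 ≤ g.natDegree ∧
      MvPolynomial.aeval (Fin.cons z w : Fin (k + 1) → M) P = 0 ∧
      ∀ S : MvPolynomial (Fin (k + 1)) K,
        MvPolynomial.aeval (Fin.cons z w : Fin (k + 1) → M) S = 0 → P ∣ S := by
  obtain ⟨b, hbM, hb⟩ := IsLocalization.integerNormalization_spec (nonZeroDivisors (A K k)) g
  obtain ⟨G, hGd⟩ : ∃ G, G = IsLocalization.integerNormalization (nonZeroDivisors (A K k)) g :=
    ⟨_, rfl⟩
  rw [← hGd] at hb
  have hb0 : b ≠ 0 := nonZeroDivisors.ne_zero hbM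
  have hb1 : algebraMap (A K k) (Q K k) b ≠ 0 :=
    (map_ne_zero_iff _ (IsFractionRing.injective (A K k) (Q K k))).2 hb0
  have hbs : (b • g : Polynomial (Q K k)) =
      Polynomial.C (algebraMap (A K k) (Q K k) b) * g := by
    rw [Algebra.smul_def]
    rfl
  rw [hbs] at hb
  have hG0 : G ≠ 0 := by
    rintro rfl
    rw [Polynomial.map_zero] at hb
    exact (mul_ne_zero (Polynomial.C_ne_zero.2 hb1) hg) hb.symm
  have hGz : G.eval₂ (MvPolynomial.aeval (R := K) w).toRingHom z = 0 := by
    rw [← psi_comp hw, ← Polynomial.eval₂_map, hb, Polynomial.eval₂_mul, hgz, mul_zero]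
  obtain ⟨P₀, hP₀⟩ : ∃ P₀, MvPolynomial.finSuccEquiv K k P₀ = G :=
    ⟨(MvPolynomial.finSuccEquiv K k).symm G, AlgEquiv.apply_symm_apply _ _⟩
  have h0 : MvPolynomial.aeval (Fin.cons z w : Fin (k + 1) → M) P₀ = 0 := by
    rw [← ev, hP₀, hGz]
  obtain ⟨I, hI⟩ : ∃ I : Ideal (MvPolynomial (Fin (k + 1)) K),
      I = RingHom.ker (MvPolynomial.aeval (Fin.cons z w : Fin (k + 1) → M) :
        MvPolynomial (Fin (k + 1)) K →ₐ[K] M).toRingHom :=
    ⟨_, rfl⟩
  have hIp : I.IsPrime := by
    rw [hI]
    exact RingHom.ker_isPrime _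
  have hI0 : I ≠ ⊥ := by
    intro h
    have h1 : P₀ ∈ I := by
      rw [hI]
      exact h0
    rw [h, Ideal.mem_bot] at h1
    rw [h1, map_zero] at hP₀
    exact hG0 hP₀.symm
  obtain ⟨P, hP, hPp⟩ := hIp.exists_mem_prime_of_ne_bot hI0
  rw [hI] at hP
  have hPz : MvPolynomial.aeval (Fin.cons z w : Fin (k + 1) → M) P = 0 := hP
  obtain ⟨p, hp⟩ : ∃ p, p = MvPolynomial.finSuccEquiv K k P := ⟨_, rfl⟩
  have hpi : Irreducible p := by
    rw [hp]
    exact (MulEquiv.irreducible_iff (MvPolynomial.finSuccEquiv K k)).2 hPp.irreducible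
  have hpz' : p.eval₂ (MvPolynomial.aeval (R := K) w).toRingHom z = 0 := by
    rw [hp, ev, hPz]
  have hd : p.natDegree ≠ 0 := by
    intro hd
    rw [Polynomial.natDegree_eq_zero] at hd
    obtain ⟨a, ha⟩ := hd
    rw [← ha, Polynomial.eval₂_C] at hpz'
    have ha0 : a = 0 := hw (by
      show MvPolynomial.aeval w a = MvPolynomial.aeval w 0
      rw [map_zero]
      exact hpz')
    rw [ha0, Polynomial.C_0] at ha
    exact hpi.ne_zero ha.symm
  have hprim : p.IsPrimitive := hpi.isPrimitive hd
  obtain ⟨_⟩ : Nonempty (NormalizedGCDMonoid (A K k)) := inferInstance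
  have hq : Irreducible (p.map (algebraMap (A K k) (Q K k))) :=
    (hprim.irreducible_iff_irreducible_map_fraction_map (K := Q K k)).1 hpi
  have hpz : (p.map (algebraMap (A K k) (Q K k))).eval₂ (psi hw) z = 0 := by
    rw [Polynomial.eval₂_map, psi_comp, hpz']
  have hdvd : ∀ s : Polynomial (Q K k), s.eval₂ (psi hw) z = 0 →
      p.map (algebraMap (A K k) (Q K k)) ∣ s := by
    intro s hs
    rcases hq.isCoprime_or_dvd s with h | h
    · exfalso
      obtain ⟨a, b, hab⟩ := h
      have h1 := congrArg (Polynomial.eval₂ (psi hw) z) hab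
      rw [Polynomial.eval₂_add, Polynomial.eval₂_mul, Polynomial.eval₂_mul, hpz, hs,
        mul_zero, mul_zero, add_zero, Polynomial.eval₂_one] at h1
      exact zero_ne_one h1
    · exact h
  refine ⟨P, hPp.irreducible, ?_, hPz, fun S hS => ?_⟩
  · rw [← MvPolynomial.natDegree_finSuccEquiv, ← hp]
    have h1 := Polynomial.natDegree_le_of_dvd (hdvd g hgz) hg
    rwa [Polynomial.natDegree_map_eq_of_injective
      (IsFractionRing.injective (A K k) (Q K k))] at h1
  · have h1 : p ∣ MvPolynomial.finSuccEquiv K k S := by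
      refine hprim.dvd_of_fraction_map_dvd_fraction_map (K := Q K k) (hdvd _ ?_)
      rw [Polynomial.eval₂_map, psi_comp, ev, hS]
    rw [hp] at h1
    exact (map_dvd_iff (MvPolynomial.finSuccEquiv K k)).1 h1

end Pool.Agent.DIk
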