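import Pool.Agent.DIk.PoleB

/-! # Domination for `k` variables: definitions -/

namespace Pool.Agent.DIk

open Pool.Agent.QN Pool.Agent.QS

/-- the primes of `K[X_1, …, X_k]` up to units -/
def Pr (K : Type) [Field K] (k : ℕ) : Type := {q : Associates (A K k) // Prime q}

/-- a representative of a class of primes -/
noncomputable def rep {K : Type} [Field K] {k : ℕ} (q : Pr K k) : A K k := Quot.out q.1

theorem mk_rep {K : Type} [Field K] {k : ℕ} (q : Pr K k) : Associates.mk (rep q) = q.1 :=
  Quot.out_eq q.1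

theorem rep_prime {K : Type} [Field K] {k : ℕ} (q : Pr K k) : Prime (rep q) := by
  rw [← Associates.prime_mk, mk_rep]
  exact q.2

theorem exists_rep {K : Type} [Field K] {k : ℕ} {p : A K k} (hp : Prime p) :
    ∃ q : Pr K k, Associated (rep q) p :=
  ⟨⟨Associates.mk p, Associates.prime_mk.2 hp⟩, Associates.mk_eq_mk_iff_associated.1 (mk_rep _)⟩

section

variable (K : Type) [Field K] {k : ℕ} {M : Type} [Field M] [Algebra (A K k) M]
  {Γ : Option (Pr K k) → Type} [∀ i, LinearOrderedCommGroupWithZero (Γ i)]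

/-- one valuation of `M` over each prime and one over the total degree -/
structure Pls (j0 : Fin k) (v : ∀ i, Valuation M (Γ i)) : Prop where
  fin : ∀ q : Pr K k, IsPV (rep q) (v (some q))
  inf : IsIV K j0 (v none)

/-- `z` lies in the field of `y` and has no other poles than `y` -/
def Dom [Algebra (Q K k) M] (v : ∀ i, Valuation M (Γ i)) (y z : M) : Prop :=
  (∀ g : M ≃ₐ[Q K k] M, g y = y → g z = z) ∧
    ∀ (i : Option (Pr K k)) (g : M ≃ₐ[Q K k] M), v i (g z) ≤ max 1 (v i (g y))

end

theorem exists_pls (K M : Type) [Field K] {k : ℕ} (j0 : Fin k) [Field M]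
    [Algebra (A K k) M] [Algebra (Q K k) M] [IsScalarTower (A K k) (Q K k) M]
    [FiniteDimensional (Q K k) M] :
    ∃ (Γ : Option (Pr K k) → Type) (_ : ∀ i, LinearOrderedCommGroupWithZero (Γ i))
      (v : ∀ i, Valuation M (Γ i)), Pls K j0 v := by
  classical
  have h : ∀ i : Option (Pr K k), ∃ (Γ : Type) (_ : LinearOrderedCommGroupWithZero Γ)
      (v : Valuation M Γ), (∀ q, i = some q → IsPV (rep q) v) ∧ (i = none → IsIV K j0 v) := by
    intro i
    rcases i with _ | q
    · obtain ⟨Γ, iΓ, v, hv⟩ := exists_IV (K := K) (M := M) j0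
      exact ⟨Γ, iΓ, v, fun a h => by simp at h, fun _ => hv⟩
    · obtain ⟨Γ, iΓ, v, hv⟩ := exists_PV (M := M) _ (rep_prime q)
      exact ⟨Γ, iΓ, v, fun b h => by
        obtain rfl := Option.some.inj h
        exact hv, fun h => by simp at h⟩
  choose Γ iΓ v h1 h2 using h
  exact ⟨Γ, iΓ, v, ⟨fun a => h1 _ a rfl, h2 _ rfl⟩⟩

end Pool.Agent.DIk
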