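import Mathlib

/-! # Common zeros of few polynomials over an algebraically closed field -/

namespace Pool.Agent.DIk.Zero

open MvPolynomial

/-- The ideal of the origin has height at least the number of variables. -/
theorem card_le_height_origin {K : Type} [Field K] [IsAlgClosed K] {ι : Type} [Fintype ι] :
    ((Fintype.card ι : ℕ) : ℕ∞) ≤ (vanishingIdeal K {(0 : ι → K)}).height := by
  classical
  let e : ι ≃ Fin (Fintype.card ι) := Fintype.equivFin ι
  let φ : ℕ → MvPolynomial ι K →ₐ[K] MvPolynomial ι K := fun k =>
    aeval (fun i => if (e i : ℕ) < k then 0 else X i)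
  have hprime : ∀ k, (RingHom.ker (φ k)).IsPrime := fun k => RingHom.ker_isPrime _
  have hle : ∀ k, k ≤ Fintype.card ι → (k : ℕ∞) ≤ (RingHom.ker (φ k)).height := by
    intro k
    induction k with
    | zero => intro _; simp
    | succ k ih =>
      intro hk
      have h1 := ih (by omega)
      have hlt : RingHom.ker (φ k) < RingHom.ker (φ (k + 1)) := by
        refine lt_of_le_of_ne ?_ ?_
        · intro f hf
          rw [RingHom.mem_ker] at hf ⊢
          have : (φ (k + 1)) = (φ (k + 1)).comp (φ k) := by
            apply MvPolynomial.algHom_ext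
            intro i
            simp only [φ, AlgHom.comp_apply, aeval_X]
            by_cases hi : (e i : ℕ) < k
            · rw [if_pos hi, if_pos (by omega), map_zero]
            · rw [if_neg hi, aeval_X]
          rw [this, AlgHom.comp_apply, hf, map_zero]
        · intro heq
          have hmem : (X (e.symm ⟨k, by omega⟩) : MvPolynomial ι K) ∈ RingHom.ker (φ (k + 1)) := by
            rw [RingHom.mem_ker]
            simp [φ]
          rw [← heq, RingHom.mem_ker] at hmem
          simp [φ] at hmem
      have := hprime k
      have := hprime (k + 1)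
      have h2 := Ideal.height_add_one_le_of_lt_of_isPrime hlt
      push_cast
      exact (add_le_add_left h1 1).trans h2
  have hfin : RingHom.ker (φ (Fintype.card ι)) = vanishingIdeal K {(0 : ι → K)} := by
    ext f
    rw [RingHom.mem_ker, mem_vanishingIdeal_singleton_iff]
    have : φ (Fintype.card ι) = (Algebra.ofId K (MvPolynomial ι K)).comp
        (aeval (0 : ι → K)) := by
      apply MvPolynomial.algHom_ext
      intro i
      simp [φ]
    rw [this, AlgHom.comp_apply]
    constructor
    · intro h
      exact (C_injective ι K) (by rw [C_0]; exact h)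
    · intro h
      rw [h, map_zero]
  rw [← hfin]
  exact hle _ le_rfl

/-- Fewer polynomials than variables, vanishing at the origin, have another common zero. -/
theorem exists_common_zero {K : Type} [Field K] [IsAlgClosed K] {ι κ : Type} [Fintype ι]
    [Fintype κ] (h : κ → MvPolynomial ι K)
    (h0 : ∀ k, eval 0 (h k) = 0) (hlt : Fintype.card κ < Fintype.card ι) :
    ∃ q : ι → K, q ≠ 0 ∧ ∀ k, eval q (h k) = 0 := by
  classical
  by_contra hcon
  push Not at hcon
  have hz : zeroLocus K (Ideal.span (Set.range h)) = {(0 : ι → K)} := by
    rw [zeroLocus_span]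
    ext x
    rw [Set.mem_ofPred_eq, Set.mem_singleton_iff]
    constructor
    · intro hx
      by_contra hne
      obtain ⟨k, hk⟩ := hcon x hne
      exact hk (by rw [← hx (h k) ⟨k, rfl⟩, aeval_eq_eval])
    · rintro rfl _ ⟨k, rfl⟩
      rw [aeval_eq_eval]
      exact h0 k
  have hrad := vanishingIdeal_zeroLocus_eq_radical (K := K) (Ideal.span (Set.range h))
  rw [hz] at hrad
  have hmin : vanishingIdeal K {(0 : ι → K)} ∈ (Ideal.span (Set.range h)).minimalPrimes := by
    rw [← Ideal.radical_minimalPrimes, ← hrad,
      Ideal.minimalPrimes_eq_subsingleton_self]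
    exact Set.mem_singleton _
  have h1 := Ideal.height_le_card_of_mem_minimalPrimes_span (Set.finite_range h) hmin
  have h2 : (Set.range h).ncard ≤ Fintype.card κ := by
    rw [← Set.image_univ]
    refine (Set.ncard_image_le Set.finite_univ).trans ?_
    rw [Set.ncard_univ, Nat.card_eq_fintype_card]
  have h3 := (card_le_height_origin (K := K) (ι := ι)).trans h1
  have h4 : Fintype.card ι ≤ (Set.range h).ncard := by exact_mod_cast h3
  omega

end Pool.Agent.DIk.Zero
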