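import Pool.Agent.DIk.DomS
import Pool.Agent.DIk.Zero
import Pool.Agent.QT.Card

set_option autoImplicit false

/-! # The dimension of a space of dominated elements: the norm form -/

namespace Pool.Agent.DIk

open Pool.Agent.QN Pool.Agent.QS

variable {K : Type} [Field K] [CharZero K] [IsAlgClosed K] {k : ℕ} {j0 : Fin k} {M : Type}
  [Field M] [Algebra K M] [Algebra (A K k) M] [Algebra (Q K k) M]
  [IsScalarTower (A K k) (Q K k) M] [IsScalarTower K (A K k) M] [IsScalarTower K (Q K k) M]
  [FiniteDimensional (Q K k) M] [IsGalois (Q K k) M]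
  {Γ : Option (Pr K k) → Type} [∀ i, LinearOrderedCommGroupWithZero (Γ i)]
  {v : ∀ i, Valuation M (Γ i)}

namespace DomD

/-- the coefficients of a product -/
theorem coeff_prod_le {M : Type} [Field M] {Γ' : Type} [LinearOrderedCommGroupWithZero Γ']
    (w : Valuation M Γ') {ι σ : Type} (s : Finset ι) (l : ι → MvPolynomial σ M) (r : ι → Γ')
    (hl : ∀ i ∈ s, ∀ d, w (MvPolynomial.coeff d (l i)) ≤ r i) :
    ∀ d, w (MvPolynomial.coeff d (∏ i ∈ s, l i)) ≤ ∏ i ∈ s, r i := by
  classical
  induction s using Finset.induction_on with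
  | empty =>
    intro d
    rw [Finset.prod_empty, Finset.prod_empty, MvPolynomial.coeff_one]
    split_ifs
    · rw [map_one]
    · rw [map_zero]
      exact zero_le_one
  | insert a s ha ih =>
    intro d
    rw [Finset.prod_insert ha, Finset.prod_insert ha, MvPolynomial.coeff_mul]
    refine w.map_sum_le fun x _ => ?_
    rw [map_mul]
    exact mul_le_mul' (hl a (Finset.mem_insert_self a s) _)
      (ih (fun i hi => hl i (Finset.mem_insert_of_mem hi)) _)

/-- the norm form -/
noncomputable def nf (H : Subgroup (M ≃ₐ[Q K k] M)) {m : ℕ} (w : Fin m → M) :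
    MvPolynomial (Fin m) M :=
  ∏ q : Cs H, ∑ j, MvPolynomial.C (cj H (w j) q) * MvPolynomial.X j

omit [CharZero K] [IsAlgClosed K] [Algebra K M] [Algebra (A K k) M]
  [IsScalarTower (A K k) (Q K k) M] [IsScalarTower K (A K k) M] [IsScalarTower K (Q K k) M] in
/-- its coefficients are rational functions -/
theorem nf_coeff (H : Subgroup (M ≃ₐ[Q K k] M)) {m : ℕ} (w : Fin m → M)
    (hw : ∀ j, ∀ h ∈ H, h (w j) = w j) (d : Fin m →₀ ℕ) :
    ∃ c : Q K k, algebraMap (Q K k) M c = MvPolynomial.coeff d (nf H w) := by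
  have hfix : ∀ τ : M ≃ₐ[Q K k] M, MvPolynomial.map (τ : M →+* M) (nf H w) = nf H w := by
    intro τ
    let e : Cs H ≃ Cs H :=
      (MulAction.toPerm τ : Equiv.Perm ((M ≃ₐ[Q K k] M) ⧸ H))
    have he : ∀ j q, τ (cj H (w j) q) = cj H (w j) (e q) := by
      intro j q
      obtain ⟨σ, rfl⟩ := Cs.mk_surjective H q
      have h1 : e (Cs.mk H σ) = Cs.mk H (τ * σ) := rfl
      rw [h1, cj_mk H _ (hw j), cj_mk H _ (hw j), AlgEquiv.mul_apply]
    rw [nf, map_prod]
    rw [← Equiv.prod_comp e fun q => ∑ j, MvPolynomial.C (cj H (w j) q) * MvPolynomial.X j]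
    refine Finset.prod_congr rfl fun q _ => ?_
    rw [map_sum]
    refine Finset.sum_congr rfl fun j _ => ?_
    rw [map_mul, MvPolynomial.map_C, MvPolynomial.map_X, ← he j q]
    rfl
  have h1 : MvPolynomial.coeff d (nf H w) ∈ Set.range (algebraMap (Q K k) M) := by
    rw [IsGalois.mem_range_algebraMap_iff_fixed]
    intro τ
    have h1 := congrArg (MvPolynomial.coeff d) (hfix τ)
    rw [MvPolynomial.coeff_map] at h1
    exact h1
  exact h1

end DomD

open DomD

/-- at most `binom(k+e,k)` dominated elements are linearly independent over `K` -/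
theorem dim_le (hv : Pls K j0 v) {e : ℕ} {y : M} (hy : SX K k e y) {m : ℕ} (w : Fin m → M)
    (hw : ∀ i, Dom K v y (w i)) (hi : LinearIndependent K w) : m ≤ (k + e).choose k := by
  classical
  by_contra hcon
  rw [not_le] at hcon
  have hH : ∀ σ : M ≃ₐ[Q K k] M, σ ∈ MulAction.stabilizer (M ≃ₐ[Q K k] M) y ↔ σ y = y := by
    intro σ
    rw [MulAction.mem_stabilizer_iff, AlgEquiv.smul_def]
  obtain ⟨α, N, hN, hdeg⟩ := PoleB.exists_N' j0 hy _ hH
  generalize MulAction.stabilizer (M ≃ₐ[Q K k] M) y = H at hH hN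
  have hwH : ∀ j, ∀ σ ∈ H, σ (w j) = w j := fun j => (hw j).fix hH
  choose c hc using nf_coeff H w hwH
  have hbd : ∀ (d : Fin m →₀ ℕ) (i : Option (Pr K k)), v i (algebraMap (Q K k) M (c d)) ≤
      ∏ q : Cs H, max 1 (v i (cj H y q)) := by
    intro d i
    rw [hc, nf]
    refine coeff_prod_le (v i) _ _ _ (fun q _ d => ?_) d
    rw [MvPolynomial.coeff_sum]
    refine (v i).map_sum_le fun j _ => ?_
    rw [MvPolynomial.coeff_C_mul, MvPolynomial.coeff_X', map_mul]
    split_ifs
    · rw [map_one, mul_one]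
      exact (hw j).cj_le hH i q
    · rw [map_zero, mul_zero]
      exact zero_le
  choose f hfd hf using fun d => DomS.exists_A hv hN hdeg (c d) (hbd d)
  have hfM : ∀ d, algebraMap (A K k) M (f d) =
      algebraMap (A K k) M α * MvPolynomial.coeff d (nf H w) := by
    intro d
    rw [IsScalarTower.algebraMap_apply (A K k) (Q K k) M, hf, map_mul, hc,
      ← IsScalarTower.algebraMap_apply (A K k) (Q K k) M]
  -- the forms
  let Φ : QT.Mon k e → MvPolynomial (Fin m) K := fun μ =>
    ∑ d ∈ (nf H w).support, MvPolynomial.monomial d (MvPolynomial.coeff μ.exp (f d))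
  have hΦ0 : ∀ μ, MvPolynomial.eval 0 (Φ μ) = 0 := by
    intro μ
    rw [map_sum]
    refine Finset.sum_eq_zero fun d hd => ?_
    rw [MvPolynomial.eval_monomial]
    have hd0 : d ≠ 0 := by
      rintro rfl
      apply MvPolynomial.mem_support_iff.1 hd
      have h1 : MvPolynomial.constantCoeff (nf H w) = 0 := by
        rw [nf, map_prod]
        refine Finset.prod_eq_zero (Finset.mem_univ (Cs.mk H 1)) ?_
        rw [map_sum]
        refine Finset.sum_eq_zero fun j _ => ?_
        rw [map_mul, MvPolynomial.constantCoeff_X, mul_zero]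
      exact h1
    obtain ⟨j, hj⟩ : ∃ j, d j ≠ 0 := by
      by_contra h
      push Not at h
      exact hd0 (Finsupp.ext h)
    rw [Finsupp.prod, Finset.prod_eq_zero (Finsupp.mem_support_iff.2 hj), mul_zero]
    rw [Pi.zero_apply, zero_pow hj]
  obtain ⟨a, ha0, ha⟩ := Zero.exists_common_zero Φ hΦ0 (by
    rw [QT.card_Mon, Fintype.card_fin, ← Nat.choose_symm_add]
    exact hcon)
  -- the norm vanishes at `a`
  have h1 : ∑ d ∈ (nf H w).support, (MvPolynomial.C (∏ j, a j ^ d j) * f d : A K k) = 0 := by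
    have h2 : ∀ d, (f d : A K k) = ∑ μ : QT.Mon k e,
        MvPolynomial.monomial μ.exp (MvPolynomial.coeff μ.exp (f d)) := fun d =>
      QT.eq_sum_Mon (f d) (hfd d)
    have h3 : ∀ d, (MvPolynomial.C (∏ j, a j ^ d j) * f d : A K k) = ∑ μ : QT.Mon k e,
        MvPolynomial.monomial μ.exp (MvPolynomial.coeff μ.exp (f d) * ∏ j, a j ^ d j) := by
      intro d
      rw [h2 d, Finset.mul_sum]
      refine Finset.sum_congr rfl fun μ _ => ?_
      rw [MvPolynomial.C_mul_monomial, mul_comm, ← h2 d]
    rw [Finset.sum_congr rfl fun d _ => h3 d, Finset.sum_comm]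
    refine Finset.sum_eq_zero fun μ _ => ?_
    rw [← map_sum]
    have h4 := ha μ
    rw [map_sum] at h4
    rw [← map_zero (MvPolynomial.monomial (R := K) μ.exp), ← h4]
    congr 1
    refine Finset.sum_congr rfl fun d _ => ?_
    rw [MvPolynomial.eval_monomial, Finsupp.prod_fintype _ _ fun j => pow_zero _]
  have h2 : MvPolynomial.eval (fun j => algebraMap K M (a j)) (nf H w) = 0 := by
    have h3 : algebraMap (A K k) M α *
        MvPolynomial.eval (fun j => algebraMap K M (a j)) (nf H w) = 0 := by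
      rw [← map_zero (algebraMap (A K k) M), ← h1, map_sum, MvPolynomial.eval_eq', Finset.mul_sum]
      refine Finset.sum_congr rfl fun d _ => ?_
      rw [map_mul, hfM, ← MvPolynomial.algebraMap_eq,
        ← IsScalarTower.algebraMap_apply K (A K k) M, map_prod]
      simp only [map_pow]
      ring
    have hα : algebraMap (A K k) M α ≠ 0 := by
      intro h0
      apply hN.ne
      exact algM_injective (M := M) (h0.trans (map_zero _).symm)
    exact (mul_eq_zero.1 h3).resolve_left hα
  rw [nf, MvPolynomial.eval_prod, Finset.prod_eq_zero_iff] at h2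
  obtain ⟨q, -, hq⟩ := h2
  obtain ⟨σ, rfl⟩ := Cs.mk_surjective H q
  have h3 : σ (∑ j, a j • w j) = 0 := by
    rw [← hq, map_sum, map_sum]
    refine Finset.sum_congr rfl fun j _ => ?_
    rw [map_mul, MvPolynomial.eval_C, MvPolynomial.eval_X, cj_mk H _ (hwH j),
      Algebra.smul_def, map_mul, IsScalarTower.algebraMap_apply K (Q K k) M, σ.commutes, mul_comm]
  have h4 : ∑ j, a j • w j = 0 := (map_eq_zero_iff σ σ.injective).1 h3
  exact ha0 (funext (Fintype.linearIndependent_iff.1 hi a h4))

end Pool.Agent.DIk
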