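import Pool.Agent.DIk.Dom

/-! # A generic vector dominates -/

namespace Pool.Agent.DIk

open Pool.Agent.QN Pool.Agent.QS

variable {K : Type} [Field K] [CharZero K] [IsAlgClosed K] {k : ℕ} {j0 : Fin k} {M : Type} [Field M] [Algebra K M]
  [Algebra (A K k) M] [Algebra (Q K k) M] [IsScalarTower (A K k) (Q K k) M]
  [IsScalarTower K (A K k) M] [IsScalarTower K (Q K k) M] [FiniteDimensional (Q K k) M]
  [IsGalois (Q K k) M] {Γ : Option (Pr K k) → Type} [∀ i, LinearOrderedCommGroupWithZero (Γ i)]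
  {v : ∀ i, Valuation M (Γ i)}

omit [CharZero K] [IsAlgClosed K] [Algebra (Q K k) M] [IsScalarTower (A K k) (Q K k) M]
  [IsScalarTower K (Q K k) M] [FiniteDimensional (Q K k) M] [IsGalois (Q K k) M] in
/-- the places are trivial on the constants -/
theorem Pls.const_le (hv : Pls K j0 v) (i : Option (Pr K k)) (c : K) : v i (algebraMap K M c) ≤ 1 := by
  by_cases hc : c = 0
  · rw [hc, map_zero, map_zero]
    exact zero_le_one
  · rw [IsScalarTower.algebraMap_apply K (A K k) M, MvPolynomial.algebraMap_eq]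
    rcases i with _ | a
    · exact (hv.inf.const c hc).le
    · exact ((hv.fin a).const (rep_prime a) c hc).le

omit [CharZero K] [IsAlgClosed K] [Algebra K M] [Algebra (Q K k) M]
  [IsScalarTower (A K k) (Q K k) M] [IsScalarTower K (A K k) M]
  [IsScalarTower K (Q K k) M] [FiniteDimensional (Q K k) M] [IsGalois (Q K k) M] in
/-- integral elements have no finite poles -/
theorem Pls.int_le (hv : Pls K j0 v) (a : Pr K k) {z : M} (hz : IsIntegral (A K k) z) :
    v (some a) z ≤ 1 := by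
  have hmem : ∀ f : A K k, algebraMap (A K k) M f ∈ (v (some a)).integer := fun f =>
    (hv.fin a).le_one f
  let φ : A K k →+* (v (some a)).integer := (algebraMap (A K k) M).codRestrict _ hmem
  obtain ⟨p, hp, h0⟩ := hz
  refine (Valuation.integer.integers (v (some a))).mem_of_integral ⟨p.map φ, hp.map φ, ?_⟩
  rw [Polynomial.eval₂_map]
  exact h0

omit [CharZero K] [IsAlgClosed K] [Algebra K M] [IsScalarTower K (A K k) M]
  [IsScalarTower K (Q K k) M] [IsGalois (Q K k) M] in
/-- only finitely many places are poles of a conjugate of `z` -/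
theorem finite_poles (hv : Pls K j0 v) (z : M) :
    {i : Option (Pr K k) | ∃ g : M ≃ₐ[Q K k] M, 1 < v i (g z)}.Finite := by
  classical
  have h1 : IsAlgebraic (A K k) z :=
    (IsFractionRing.isAlgebraic_iff (A K k) (Q K k) M).2 (Algebra.IsAlgebraic.isAlgebraic z)
  obtain ⟨D, hD, hi⟩ := h1.exists_integral_multiple
  have hfin : {q : Pr K k | rep q ∣ D}.Finite := by
    refine (Set.Finite.preimage (f := fun q : Pr K k => q.1) (fun a _ b _ hab => Subtype.ext hab)
      ((UniqueFactorizationMonoid.factors D).map Associates.mk).toFinset.finite_toSet).subset ?_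
    intro q hq
    obtain ⟨p, hp, ha⟩ := UniqueFactorizationMonoid.exists_mem_factors_of_dvd hD
      (rep_prime q).irreducible hq
    rw [Set.mem_preimage, Finset.mem_coe, Multiset.mem_toFinset, Multiset.mem_map]
    exact ⟨p, hp, by rw [← mk_rep q]; exact (Associates.mk_eq_mk_iff_associated.2 ha).symm⟩
  refine ((hfin.image some).union (Set.finite_singleton none)).subset ?_
  rintro (_ | q) ⟨g, hg⟩
  · exact Or.inr rfl
  · refine Or.inl ⟨q, ?_, rfl⟩
    have h2 : IsIntegral (A K k) (g (D • z)) := hi.map (g.toAlgHom.restrictScalars (A K k))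
    have h3 := hv.int_le q h2
    have h4 : g (D • z) = algebraMap (A K k) M D * g z := by
      rw [Algebra.smul_def, map_mul, IsScalarTower.algebraMap_apply (A K k) (Q K k) M,
        g.commutes]
    rw [h4, map_mul] at h3
    have h5 : v (some q) (algebraMap (A K k) M D) < 1 := by
      by_contra h6
      rw [not_lt] at h6
      have h7 : (1 : Γ (some q)) < v (some q) (algebraMap (A K k) M D) * v (some q) (g z) :=
        lt_of_lt_of_le (lt_of_lt_of_le hg (le_of_eq (one_mul _).symm)) (mul_le_mul_left h6 _)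
      exact absurd h3 (not_le.2 h7)
    exact ((hv.fin q).lt_one D).1 h5

theorem exists_dom (hv : Pls K j0 v) {F : Type} [Field F] [Infinite F] [Algebra F M]
    (hF : ∀ c : F, ∃ c' : K, algebraMap F M c = algebraMap K M c') (V : Submodule F M)
    [FiniteDimensional F V] :
    ∃ (n : ℕ) (Z : Fin n → Submodule F M), (∀ i, ¬ V ≤ Z i) ∧
      ∀ y ∈ V, (∀ i, y ∉ Z i) → ∀ z ∈ V, Dom K v y z := by
  classical
  obtain ⟨s, hs⟩ : V.FG := Module.Finite.iff_fg.1 inferInstance
  -- the scalars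
  have hgs : ∀ (g : M ≃ₐ[Q K k] M) (c : F) (z : M), g (c • z) = c • g z := by
    intro g c z
    obtain ⟨c', hc'⟩ := hF c
    rw [Algebra.smul_def, Algebra.smul_def, map_mul, hc',
      IsScalarTower.algebraMap_apply K (Q K k) M, g.commutes]
  have hvs : ∀ (i : Option (Pr K k)) (c : F) (z : M), v i (c • z) ≤ v i z := by
    intro i c z
    obtain ⟨c', hc'⟩ := hF c
    rw [Algebra.smul_def, map_mul, hc']
    exact mul_le_of_le_one_left' (hv.const_le i c')
  have hbd : ∀ (i : Option (Pr K k)) (g : M ≃ₐ[Q K k] M) (μ : Γ i), (∀ b ∈ s, v i (g b) ≤ μ) →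
      ∀ z ∈ V, v i (g z) ≤ μ := by
    intro i g μ hb z hz
    rw [← hs] at hz
    induction hz using Submodule.span_induction with
    | mem x hx => exact hb x hx
    | zero =>
      rw [map_zero, map_zero]
      exact zero_le
    | add x y _ _ hx hy =>
      rw [map_add]
      exact (v i).map_add_le hx hy
    | smul c x _ hx =>
      rw [hgs]
      exact (hvs i c _).trans hx
  -- the subspaces
  let Zg : (M ≃ₐ[Q K k] M) → Submodule F M := fun g =>
    { carrier := {y | g y = y}
      add_mem' := fun {x y} hx hy => by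
        rw [Set.mem_ofPred_eq] at *
        rw [map_add, hx, hy]
      zero_mem' := map_zero g
      smul_mem' := fun c x hx => by
        rw [Set.mem_ofPred_eq] at *
        rw [hgs, hx] }
  let Zi : (i : Option (Pr K k)) → (M ≃ₐ[Q K k] M) → (μ : Γ i) → μ ≠ 0 → Submodule F M :=
    fun i g μ hμ =>
    { carrier := {y | v i (g y) < μ}
      add_mem' := fun {x y} hx hy => by
        rw [Set.mem_ofPred_eq] at *
        rw [map_add]
        exact (v i).map_add_lt hx hy
      zero_mem' := by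
        rw [Set.mem_ofPred_eq, map_zero, map_zero]
        exact zero_lt_iff.2 hμ
      smul_mem' := fun c x hx => by
        rw [Set.mem_ofPred_eq] at *
        rw [hgs]
        exact (hvs i c _).trans_lt hx }
  have hJ : {p : Option (Pr K k) × (M ≃ₐ[Q K k] M) | ∃ b ∈ s, 1 < v p.1 (p.2 b)}.Finite := by
    refine ((s.finite_toSet.biUnion fun b _ => finite_poles hv b).prod
      (Set.finite_univ (α := M ≃ₐ[Q K k] M))).subset ?_
    rintro ⟨i, g⟩ ⟨b, hb, h1⟩
    exact ⟨Set.mem_biUnion hb ⟨g, h1⟩, Set.mem_univ _⟩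
  have hmax : ∀ (i : Option (Pr K k)) (g : M ≃ₐ[Q K k] M), (∃ b ∈ s, 1 < v i (g b)) →
      ∃ b ∈ s, 1 < v i (g b) ∧ ∀ b' ∈ s, v i (g b') ≤ v i (g b) := by
    rintro i g ⟨b, hb, h1⟩
    obtain ⟨b₀, hb₀, h2⟩ := s.exists_max_image (fun b => v i (g b)) ⟨b, hb⟩
    exact ⟨b₀, hb₀, h1.trans_le (h2 b hb), h2⟩
  let T1 : Type := {g : M ≃ₐ[Q K k] M // ¬ V ≤ Zg g}
  let T2 : Type := {p : Option (Pr K k) × (M ≃ₐ[Q K k] M) // ∃ b ∈ s, 1 < v p.1 (p.2 b)}
  have hT2 : Finite T2 := hJ
  let β : (p : T2) → M := fun p => (hmax p.1.1 p.1.2 p.2).choose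
  have hβ : ∀ p : T2, β p ∈ s ∧ 1 < v p.1.1 (p.1.2 (β p)) ∧
      ∀ b' ∈ s, v p.1.1 (p.1.2 b') ≤ v p.1.1 (p.1.2 (β p)) := fun p =>
    (hmax p.1.1 p.1.2 p.2).choose_spec
  let Z : T1 ⊕ T2 → Submodule F M := Sum.elim (fun g => Zg g.1)
    (fun p => Zi p.1.1 p.1.2 (v p.1.1 (p.1.2 (β p))) (ne_of_gt (zero_lt_one.trans (hβ p).2.1)))
  have hZ : ∀ t, ¬ V ≤ Z t := by
    rintro (g | p)
    · exact g.2
    · intro hle
      have h1 : β p ∈ V := by
        rw [← hs]
        exact Submodule.subset_span (hβ p).1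
      exact lt_irrefl _ (hle h1)
  have hfin : Finite (T1 ⊕ T2) := inferInstance
  obtain ⟨n, ⟨ε⟩⟩ := Finite.exists_equiv_fin (T1 ⊕ T2)
  refine ⟨n, fun i => Z (ε.symm i), fun i => hZ _, fun y hy hyZ z hz => ?_⟩
  have hyZ' : ∀ t, y ∉ Z t := fun t => by
    have h0 := hyZ (ε t)
    simp only [ε.symm_apply_apply] at h0
    exact h0
  refine ⟨fun g hg => ?_, fun i g => ?_⟩
  · by_contra hne
    refine hyZ' (Sum.inl ⟨g, fun hle => hne ?_⟩) hg
    exact hle hz
  · by_cases hp : ∃ b ∈ s, 1 < v i (g b)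
    · refine le_max_of_le_right ?_
      have h1 := hyZ' (Sum.inr ⟨(i, g), hp⟩)
      have h2 : ¬ v i (g y) < v i (g (β ⟨(i, g), hp⟩)) := h1
      rw [not_lt] at h2
      exact (hbd i g _ (hβ ⟨(i, g), hp⟩).2.2 z hz).trans h2
    · refine le_max_of_le_left (hbd i g 1 (fun b hb => ?_) z hz)
      exact not_lt.1 fun h1 => hp ⟨b, hb, h1⟩

end Pool.Agent.DIk
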