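import Pool.Agent.DIk.Dom
import Pool.Agent.QN.Cmp

set_option autoImplicit false

/-! # Domination and the degree in the variables -/

namespace Pool.Agent.DIk

open Pool.Agent.QN Pool.Agent.QS

variable {K : Type} [Field K] [CharZero K] {k : ℕ} {j0 : Fin k} {M : Type} [Field M]
  [Algebra (A K k) M] [Algebra (Q K k) M] [IsScalarTower (A K k) (Q K k) M]
  [FiniteDimensional (Q K k) M] [IsGalois (Q K k) M]
  {Γ : Option (Pr K k) → Type} [∀ i, LinearOrderedCommGroupWithZero (Γ i)]
  {v : ∀ i, Valuation M (Γ i)}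

namespace DomS

omit [CharZero K] [Algebra (A K k) M] [IsScalarTower (A K k) (Q K k) M] [IsGalois (Q K k) M] in
/-- the Gauss norm of the polynomial of the conjugates -/
theorem gauss {Γ' : Type} [LinearOrderedCommGroupWithZero Γ'] (w : Valuation M Γ')
    (H : Subgroup (M ≃ₐ[Q K k] M)) (z : M) :
    (∀ m, w ((∏ q : Cs H, (Polynomial.X - Polynomial.C (cj H z q))).coeff m) ≤
      ∏ q : Cs H, max 1 (w (cj H z q))) ∧
    ∃ m, w ((∏ q : Cs H, (Polynomial.X - Polynomial.C (cj H z q))).coeff m) =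
      ∏ q : Cs H, max 1 (w (cj H z q)) := by
  have hco : ∀ (q : Cs H) (m : ℕ), (Polynomial.X - Polynomial.C (cj H z q)).coeff m =
      if m = 0 then -cj H z q else if m = 1 then 1 else 0 := by
    intro q m
    rcases m with _ | _ | m
    · simp
    · simp [Polynomial.coeff_X]
    · simp [Polynomial.coeff_X]
  exact gauss_prod1 w (Finset.univ : Finset (Cs H))
    (fun q => Polynomial.X - Polynomial.C (cj H z q)) (fun q => max 1 (w (cj H z q)))
    (fun q _ => ne_of_gt (lt_of_lt_of_le zero_lt_one (le_max_left _ _)))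
    (fun q _ m => by
      rw [hco]
      split_ifs
      · rw [Valuation.map_neg]; exact le_max_right _ _
      · rw [map_one]; exact le_max_left _ _
      · rw [map_zero]; exact zero_le)
    (fun q _ => by
      rcases le_total 1 (w (cj H z q)) with hc | hc
      · exact ⟨0, by rw [hco, if_pos rfl, Valuation.map_neg, max_eq_right hc]⟩
      · exact ⟨1, by rw [hco, if_neg one_ne_zero, if_pos rfl, map_one, max_eq_left hc]⟩)

omit [CharZero K] [Algebra (Q K k) M] [IsScalarTower (A K k) (Q K k) M]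
  [FiniteDimensional (Q K k) M] [IsGalois (Q K k) M] in
/-- a valuation over a prime is one over each associated prime -/
theorem isPV_assoc {Γ' : Type} [LinearOrderedCommGroupWithZero Γ'] {w : Valuation M Γ'}
    {p p' : A K k} (h : Associated p p') (hp : IsPV p w) : IsPV p' w :=
  ⟨hp.le_one, fun f => by rw [hp.lt_one, h.dvd_iff_dvd_left]⟩

/-- a rational function whose poles are bounded by those of the conjugates of `y`, times the
leading coefficient of `y`, is a polynomial of degree at most `e` -/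
theorem exists_A (hv : Pls K j0 v) {e : ℕ} {y : M} {H : Subgroup (M ≃ₐ[Q K k] M)} {α : A K k}
    {N : Polynomial (A K k)} (hN : IsN H y α N) (hdeg : ∀ j, (N.coeff j).totalDegree ≤ e)
    (c : Q K k)
    (h : ∀ i, v i (algebraMap (Q K k) M c) ≤ ∏ q : Cs H, max 1 (v i (cj H y q))) :
    ∃ f : A K k, f.totalDegree ≤ e ∧
      algebraMap (A K k) (Q K k) f = algebraMap (A K k) (Q K k) α * c := by
  classical
  have hle : ∀ i, v i (algebraMap (Q K k) M (algebraMap (A K k) (Q K k) α * c)) ≤
      v i (algebraMap (A K k) M α) * ∏ q : Cs H, max 1 (v i (cj H y q)) := by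
    intro i
    rw [map_mul, map_mul, ← IsScalarTower.algebraMap_apply (A K k) (Q K k) M]
    exact mul_le_mul_right (h i) _
  obtain ⟨f, hf⟩ : ∃ f : A K k, algebraMap (A K k) (Q K k) f =
      algebraMap (A K k) (Q K k) α * c := by
    refine mem_of_vals (M := M) _ fun p hp => ?_
    obtain ⟨q, hq⟩ := exists_rep hp
    refine ⟨Γ (some q), inferInstance, v (some q), isPV_assoc hq (hv.fin q), ?_⟩
    refine (hle (some q)).trans (le_of_eq ?_)
    exact hN.prime (rep_prime q) (hv.fin q)
  refine ⟨f, ?_, hf⟩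
  by_cases h0 : f = 0
  · rw [h0, MvPolynomial.totalDegree_zero]
    exact Nat.zero_le _
  obtain ⟨x, hx⟩ : ∃ x, x = v none (algebraMap (A K k) M (MvPolynomial.X j0)) := ⟨_, rfl⟩
  have hx1 : 1 < x := by rw [hx]; exact hv.inf.one_lt
  have h1 : v none (algebraMap (A K k) M f) = x ^ f.totalDegree := by
    rw [hx]
    exact hv.inf.val _ h0
  have h2 := hle none
  rw [← hf, ← IsScalarTower.algebraMap_apply (A K k) (Q K k) M] at h2
  obtain ⟨-, m1, g2⟩ := gauss (v none) H y
  have hcoef : v none (algebraMap (A K k) M α) *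
      v none ((∏ q : Cs H, (Polynomial.X - Polynomial.C (cj H y q))).coeff m1) =
      v none (algebraMap (A K k) M (N.coeff m1)) := by
    rw [← map_mul, ← Polynomial.coeff_C_mul, ← hN.map, Polynomial.coeff_map]
  have hle' : v none (algebraMap (A K k) M (N.coeff m1)) ≤ x ^ e := by
    by_cases h0 : N.coeff m1 = 0
    · rw [h0, map_zero, map_zero]
      exact zero_le
    · rw [hv.inf.val _ h0, ← hx]
      exact pow_le_pow_right₀ hx1.le (hdeg m1)
  rw [← g2, hcoef, h1] at h2
  exact (pow_le_pow_iff_right₀ hx1).1 (h2.trans hle')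

end DomS

omit [CharZero K] [Algebra (A K k) M] [IsScalarTower (A K k) (Q K k) M]
  [FiniteDimensional (Q K k) M] [IsGalois (Q K k) M] in
/-- a dominated element and the subgroup of `y` -/
theorem Dom.fix {y z : M} (h : Dom K v y z) {H : Subgroup (M ≃ₐ[Q K k] M)}
    (hH : ∀ σ : M ≃ₐ[Q K k] M, σ ∈ H ↔ σ y = y) : ∀ σ ∈ H, σ z = z :=
  fun σ hσ => h.1 σ ((hH σ).1 hσ)

omit [CharZero K] [Algebra (A K k) M] [IsScalarTower (A K k) (Q K k) M]
  [FiniteDimensional (Q K k) M] [IsGalois (Q K k) M] in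
/-- the values of the conjugates of a dominated element -/
theorem Dom.cj_le {y z : M} (h : Dom K v y z) {H : Subgroup (M ≃ₐ[Q K k] M)}
    (hH : ∀ σ : M ≃ₐ[Q K k] M, σ ∈ H ↔ σ y = y) (i : Option (Pr K k)) (q : Cs H) :
    v i (cj H z q) ≤ max 1 (v i (cj H y q)) := by
  obtain ⟨σ, rfl⟩ := Cs.mk_surjective H q
  rw [cj_mk H z (h.fix hH), cj_mk H y fun g hg => (hH g).1 hg]
  exact h.2 i σ

theorem dom_SX (hv : Pls K j0 v) {e : ℕ} {y z : M} (hy : SX K k e y) (h : Dom K v y z) :
    SX K k e z := by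
  classical
  have hH : ∀ σ : M ≃ₐ[Q K k] M, σ ∈ MulAction.stabilizer (M ≃ₐ[Q K k] M) y ↔ σ y = y := by
    intro σ
    rw [MulAction.mem_stabilizer_iff, AlgEquiv.smul_def]
  obtain ⟨α, N, hN, hdeg⟩ := PoleB.exists_N' j0 hy _ hH
  generalize MulAction.stabilizer (M ≃ₐ[Q K k] M) y = H at hH hN
  have hz : ∀ σ ∈ H, σ z = z := h.fix hH
  obtain ⟨nQ, hmon, hnQ⟩ := cj_poly H z hz
  have hprod : ∀ i : Option (Pr K k), ∏ q : Cs H, max 1 (v i (cj H z q)) ≤
      ∏ q : Cs H, max 1 (v i (cj H y q)) := fun i =>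
    Finset.prod_le_prod' fun q _ => max_le (le_max_left _ _) (h.cj_le hH i q)
  have hαQ : algebraMap (A K k) (Q K k) α ≠ 0 := fun h0 =>
    hN.ne (IsFractionRing.injective (A K k) (Q K k) (h0.trans (map_zero _).symm))
  -- the coefficients
  set P : Polynomial (Q K k) := Polynomial.C (algebraMap (A K k) (Q K k) α) * nQ with hP
  have hfin : ∀ m : ℕ, ∃ f : A K k, f.totalDegree ≤ e ∧
      algebraMap (A K k) (Q K k) f = P.coeff m := by
    intro m
    rw [hP, Polynomial.coeff_C_mul]
    refine DomS.exists_A hv hN hdeg _ fun i => ?_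
    rw [← Polynomial.coeff_map, hnQ]
    exact ((DomS.gauss (v i) H z).1 m).trans (hprod i)
  have hPl : P ∈ Polynomial.lifts (algebraMap (A K k) (Q K k)) := by
    rw [Polynomial.lifts_iff_coeff_lifts]
    intro m
    obtain ⟨f, -, hf⟩ := hfin m
    exact ⟨f, hf⟩
  obtain ⟨R, hR⟩ := (Polynomial.mem_lifts _).1 hPl
  have hP0 : P ≠ 0 := mul_ne_zero (Polynomial.C_ne_zero.2 hαQ) hmon.ne_zero
  refine ⟨R, ?_, ?_, ?_⟩
  · rintro rfl
    rw [Polynomial.map_zero] at hR
    exact hP0 hR.symm
  · intro m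
    obtain ⟨f, hfd, hf⟩ := hfin m
    have h1 : R.coeff m = f := by
      apply IsFractionRing.injective (A K k) (Q K k)
      rw [hf, ← hR, Polynomial.coeff_map]
    rw [h1]
    exact hfd
  · have h1 : (R.map (algebraMap (A K k) M)).eval z = 0 := by
      rw [IsScalarTower.algebraMap_eq (A K k) (Q K k) M, ← Polynomial.map_map, hR, hP,
        Polynomial.map_mul, hnQ, Polynomial.eval_mul, Polynomial.eval_prod]
      refine mul_eq_zero_of_right _ (Finset.prod_eq_zero (Finset.mem_univ (Cs.mk H 1)) ?_)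
      rw [cj_mk H z hz, Polynomial.eval_sub, Polynomial.eval_X, Polynomial.eval_C]
      exact sub_self _
    rw [Polynomial.eval_map_algebraMap] at h1
    exact h1

end Pool.Agent.DIk
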