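import Pool.Agent.DIk.DomS
import Pool.Agent.DIk.DomG
import Pool.Agent.DI.DomU

/-! # The elements of bounded degree in a finite-dimensional space: a finite union of subspaces -/

namespace Pool.Agent.DIk

open Pool.Agent.QN Pool.Agent.QS

variable {K : Type} [Field K] [CharZero K] [IsAlgClosed K] {k : ℕ} {j0 : Fin k} {M : Type} [Field M]
  [Algebra K M] [Algebra (A K k) M] [Algebra (Q K k) M] [IsScalarTower (A K k) (Q K k) M]
  [IsScalarTower K (A K k) M] [IsScalarTower K (Q K k) M] [FiniteDimensional (Q K k) M]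
  [IsGalois (Q K k) M] {Γ : Option (Pr K k) → Type} [∀ i, LinearOrderedCommGroupWithZero (Γ i)]
  {v : ∀ i, Valuation M (Γ i)}

theorem union_M (hv : Pls K j0 v) {F : Type} [Field F] [Infinite F] [Algebra F M]
    (hF : ∀ c : F, ∃ c' : K, algebraMap F M c = algebraMap K M c') (e : ℕ) (V : Submodule F M)
    [FiniteDimensional F V] :
    ∃ (n : ℕ) (U : Fin n → Submodule F M),
      (∀ i, U i ≤ V ∧ ∃ y ∈ U i, SX K k e y ∧ ∀ z ∈ U i, Dom K v y z) ∧
      ∀ y ∈ V, SX K k e y ↔ ∃ i, y ∈ U i :=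
  Pool.Agent.DI.DomU.abs (SX K k e) (Dom K v) (fun _ _ hy h => dom_SX hv hy h)
    (fun V hV => exists_dom hv hF V) (Module.finrank F V) V ‹_› le_rfl

end Pool.Agent.DIk
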