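import Pool.Agent.DIk.Val

/-! # A residue map with values in the complex numbers -/

set_option autoImplicit false

namespace Pool.Agent.DIk

open Cardinal in
/-- a countable field of characteristic zero embeds into `ℂ` -/
theorem exists_emb (F : Type) [Field F] [CharZero F] [Countable F] : Nonempty (F →+* ℂ) := by
  let R := MvPolynomial ℝ F
  let L := AlgebraicClosure (FractionRing R)
  have hR : #R = continuum := by
    rw [MvPolynomial.cardinalMk_eq_max]
    have h1 : #F ≤ ℵ₀ := Cardinal.mk_le_aleph0
    rw [Cardinal.mk_real]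
    apply le_antisymm
    · exact max_le (max_le (h1.trans Cardinal.aleph0_le_continuum) le_rfl)
        Cardinal.aleph0_le_continuum
    · exact (le_max_right _ _).trans (le_max_left _ _)
  have hQ : #(FractionRing R) = continuum := by
    rw [IsFractionRing.cardinalMk R (FractionRing R), hR]
  have hL1 : #L ≤ continuum := by
    refine (Algebra.IsAlgebraic.cardinalMk_le_max (FractionRing R) L).trans ?_
    rw [hQ]
    exact max_le le_rfl Cardinal.aleph0_le_continuum
  have hL2 : continuum ≤ #L := by
    rw [← hQ]
    exact Cardinal.mk_le_of_injective (algebraMap (FractionRing R) L).injective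
  have hL : #L = continuum := le_antisymm hL1 hL2
  let f : F →+* L := (algebraMap (FractionRing R) L).comp
    ((algebraMap R (FractionRing R)).comp (MvPolynomial.C))
  have : CharZero L := charZero_of_injective_ringHom f.injective
  obtain ⟨e⟩ := IsAlgClosed.ringEquiv_of_equiv_of_charZero (K := L) (L := ℂ)
    (by rw [hL]; exact Cardinal.aleph0_lt_continuum)
    (by rw [← Cardinal.eq, hL, Cardinal.mk_complex])
  exact ⟨(e : L →+* ℂ).comp f⟩

/-- the residue field is countable of characteristic zero, `F = v.valuationSubring` modulo its maximal ideal -/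
theorem exists_rs {K M Γ : Type} [Field K] [CharZero K] [Field M] [Algebra K M] [Countable M]
    [LinearOrderedCommGroupWithZero Γ] (v : Valuation M Γ)
    (hK : ∀ c : K, c ≠ 0 → v (algebraMap K M c) = 1) : ∃ r : M → ℂ, Rs v r := by
  classical
  let O := v.valuationSubring
  have hO : ∀ a : M, a ∈ O ↔ v a ≤ 1 := fun a => Iff.rfl
  let κ := IsLocalRing.ResidueField O
  let ρ : O →+* κ := IsLocalRing.residue O
  have hunit : ∀ x : O, IsUnit x ↔ v (x : M) = 1 := by
    intro x
    constructor
    · rintro ⟨u, rfl⟩
      have h1 : v ((u : O) : M) * v ((↑u⁻¹ : O) : M) = 1 := by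
        rw [← map_mul]
        have h2 : ((u : O) : M) * ((↑u⁻¹ : O) : M) = ((u * u⁻¹ : Oˣ) : O) := by
          push_cast
          rfl
        rw [h2, mul_inv_cancel]
        simp
      have h2 := (hO _).1 (u : O).2
      have h3 := (hO _).1 (↑u⁻¹ : O).2
      by_contra h4
      have h5 : v ((u : O) : M) < 1 := lt_of_le_of_ne h2 h4
      have h6 : v ((u : O) : M) * v ((↑u⁻¹ : O) : M) < 1 := mul_lt_one_of_lt_of_le h5 h3
      rw [h1] at h6
      exact lt_irrefl _ h6
    · intro h
      have hx0 : (x : M) ≠ 0 := by
        intro h0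
        rw [h0, map_zero] at h
        exact zero_ne_one h
      have h1 : (x : M)⁻¹ ∈ O := by
        rw [hO, map_inv₀, h, inv_one]
      refine IsUnit.of_mul_eq_one ⟨(x : M)⁻¹, h1⟩ ?_
      exact Subtype.ext (mul_inv_cancel₀ hx0)
  have hker : ∀ x : O, ρ x = 0 ↔ v (x : M) < 1 := by
    intro x
    rw [IsLocalRing.residue_eq_zero_iff, IsLocalRing.mem_maximalIdeal, mem_nonunits_iff, hunit]
    exact ⟨fun h => lt_of_le_of_ne ((hO _).1 x.2) h, fun h => h.ne⟩
  let j : K →+* O :=
    { toFun := fun c => ⟨algebraMap K M c, by
        rw [hO]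
        by_cases hc : c = 0
        · rw [hc, map_zero, map_zero]
          exact zero_le_one
        · exact (hK c hc).le⟩
      map_one' := Subtype.ext (map_one _)
      map_mul' := fun a b => Subtype.ext (map_mul _ a b)
      map_zero' := Subtype.ext (map_zero _)
      map_add' := fun a b => Subtype.ext (map_add _ a b) }
  have : CharZero κ := charZero_of_injective_ringHom (ρ.comp j).injective
  have : Countable κ := (IsLocalRing.residue_surjective (R := O)).countable
  obtain ⟨i⟩ := exists_emb κ
  refine ⟨fun a => if h : v a ≤ 1 then i (ρ ⟨a, h⟩) else 0, ?_, ?_, ?_, ?_⟩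
  · intro a b ha hb
    have hab : v (a + b) ≤ 1 := v.map_add_le ha hb
    rw [dif_pos ha, dif_pos hb, dif_pos hab, ← map_add, ← map_add]
    rfl
  · intro a b ha hb
    have hab : v (a * b) ≤ 1 := by
      rw [map_mul]
      exact mul_le_one' ha hb
    rw [dif_pos ha, dif_pos hb, dif_pos hab, ← map_mul, ← map_mul]
    rfl
  · intro a ha
    rw [dif_pos ha, map_eq_zero_iff i i.injective]
    exact hker ⟨a, ha⟩
  · intro a ha
    rw [dif_neg (not_le.2 ha)]

end Pool.Agent.DIk
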