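import Pool.Agent.DIk.Defs
import Pool.Agent.DI.NoCube

/-! # No cube of logarithms that are related to `k` numbers with bounded degree -/

namespace Pool.Agent.DIk

open Module Submodule Pool.Agent.QDen

namespace NoC

theorem large (d E : ℕ) : ∃ M0 : ℕ,
    (M0 + 1 + d - 2).choose (d - 1) * 2 ^ E < 2 ^ M0 := by
  have h1 : Filter.Tendsto (fun n : ℕ => (n : ℝ) ^ (d - 1) / 2 ^ n) Filter.atTop (nhds 0) :=
    tendsto_pow_const_div_const_pow_of_one_lt (d - 1) one_lt_two
  set C : ℝ := 2 ^ E * 2 ^ d with hC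
  have hCpos : 0 < C := by positivity
  have h2 : ∀ᶠ n : ℕ in Filter.atTop, (n : ℝ) ^ (d - 1) / 2 ^ n < 1 / C :=
    h1.eventually (gt_mem_nhds (by positivity))
  obtain ⟨N, hN, hNd⟩ := (h2.and (Filter.eventually_ge_atTop d)).exists
  refine ⟨N - d, ?_⟩
  have h3 : (N : ℝ) ^ (d - 1) * C < 2 ^ N := by
    rw [div_lt_div_iff₀ (by positivity) hCpos, one_mul] at hN
    exact hN
  have h4 : (2 : ℝ) ^ N = 2 ^ (N - d) * 2 ^ d := by
    rw [← pow_add]
    congr 1
    omega
  have h5 : (N : ℝ) ^ (d - 1) * 2 ^ E < 2 ^ (N - d) := by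
    rw [h4, hC, ← mul_assoc] at h3
    exact lt_of_mul_lt_mul_right h3 (by positivity)
  have h6 : (N - d + 1 + d - 2).choose (d - 1) ≤ N ^ (d - 1) := by
    refine (Nat.choose_le_pow _ _).trans (Nat.pow_le_pow_left ?_ _)
    omega
  have h7 : N ^ (d - 1) * 2 ^ E < 2 ^ (N - d) := by
    exact_mod_cast h5
  exact (Nat.mul_le_mul_right _ h6).trans_lt h7

open MvPolynomial in
theorem bad_of_rel {k d : ℕ} {w : Fin k → ℂ} {y : ℂ} (h : TR (algebraicClosure ℚ ℂ) d w y) :
    Pool.Agent.QS.BadC d w y := by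
  obtain ⟨P, hP, hd, h0⟩ := h
  have hinj : Function.Injective (algebraMap (algebraicClosure ℚ ℂ) ℂ) :=
    FaithfulSMul.algebraMap_injective _ _
  refine ⟨MvPolynomial.map (algebraMap (algebraicClosure ℚ ℂ) ℂ) P, ?_, ?_, ?_, ?_⟩
  · intro h
    exact hP (MvPolynomial.map_injective _ hinj (h.trans (map_zero _).symm))
  · refine le_trans (le_of_eq ?_) hd
    rw [totalDegree, totalDegree, support_map_of_injective P hinj]
  · intro m
    rw [coeff_map]
    exact mem_algebraicClosure_iff.1 (P.coeff m).2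
  · rw [eval_map, ← aeval_def]
    exact h0

theorem good {k : ℕ} {w : Fin k → ℂ} (hw : AlgebraicIndependent (algebraicClosure ℚ ℂ) w)
    (P : MvPolynomial (Fin k) ℂ) (h : ∀ m, IsAlgebraic ℚ (P.coeff m))
    (h0 : MvPolynomial.eval w P = 0) : P = 0 := by
  obtain ⟨R, rfl⟩ : ∃ R : MvPolynomial (Fin k) (algebraicClosure ℚ ℂ),
      MvPolynomial.map (algebraMap (algebraicClosure ℚ ℂ) ℂ) R = P := by
    have : P ∈ Set.range (MvPolynomial.map (σ := Fin k) (algebraMap (algebraicClosure ℚ ℂ) ℂ)) := by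
      rw [MvPolynomial.mem_range_map_iff_coeffs_subset]
      intro c hc
      obtain ⟨e, -, rfl⟩ := MvPolynomial.mem_coeffs_iff.1 (Finset.mem_coe.1 hc)
      exact ⟨⟨P.coeff e, mem_algebraicClosure_iff.2 (h e)⟩, rfl⟩
    exact this
  rw [MvPolynomial.eval_map, ← MvPolynomial.aeval_def] at h0
  have h2 : R = 0 := (algebraicIndependent_iff.1 hw) R h0
  rw [h2, map_zero]

end NoC

theorem no_cube (k d : ℕ) (hk : 0 < k) (hd : 0 < d) : ∃ M0 : ℕ, ∀ (w : Fin k → ℂ) (c : ℂ)
    (u : Fin M0 → ℂ), AlgebraicIndependent (algebraicClosure ℚ ℂ) w →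
    IsAlgebraic ℚ (Complex.exp c) → (∀ m, IsAlgebraic ℚ (Complex.exp (u m))) →
    LinearIndependent ℚ u →
    ¬ ∀ A : Finset (Fin M0), TR (algebraicClosure ℚ ℂ) d w (c + ∑ m ∈ A, u m) := by
  classical
  obtain ⟨M0, hM0⟩ := NoC.large d ((k + d).choose d)
  refine ⟨M0, fun w c u hwi hc hu hui hall => ?_⟩
  let t : Fin (M0 + 1) → ℂ := Fin.cons c u
  have ht : ∀ i, IsAlgebraic ℚ (Complex.exp (t i)) := by
    intro i
    refine Fin.cases ?_ (fun i => ?_) i
    · exact hc
    · exact hu i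
  obtain ⟨n, U, hn, _, hU, hUeq⟩ := Pool.Agent.QN.main QF (fun c hc => by
      obtain ⟨q, rfl⟩ := (mem_QF c).1 hc
      exact isAlgebraic_ratCast ℚ q) hk hd (Nat.succ_pos _) w
    (fun P h1 _ h3 => NoC.good hwi P h1 h3) t
    (Pool.Agent.QR.free_logF (fun _ _ t ht he b b0 hb hb0 h =>
      Pool.Agent.BKR.baker t ht he b b0 hb hb0 h) QF mem_QF ht)
  have hw : LinearIndependent QF u := Pool.Agent.DI.NoC.indepQF hui
  have hspan : ∀ T : Finset (Fin M0), c + ∑ i ∈ T, u i ∈ span QF (Set.range t) := by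
    intro T
    refine add_mem (subset_span ⟨0, rfl⟩) (sum_mem fun i _ => subset_span ⟨i.succ, ?_⟩)
    simp [t]
  have hcov : (Set.univ : Set (Finset (Fin M0))) ⊆
      ⋃ i ∈ (Finset.univ : Finset (Fin n)), {T : Finset (Fin M0) | c + ∑ i ∈ T, u i ∈ U i} := by
    intro T _
    have h1 : c + ∑ i ∈ T, u i ∈ ⋃ i, (U i : Set ℂ) := by
      rw [← hUeq]
      exact ⟨hspan T, NoC.bad_of_rel (hall T)⟩
    obtain ⟨i, hi⟩ := Set.mem_iUnion.1 h1
    simp only [Finset.mem_univ, Set.iUnion_true, Set.mem_iUnion]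
    exact ⟨i, hi⟩
  have hUi : ∀ i, {T : Finset (Fin M0) | c + ∑ i ∈ T, u i ∈ U i}.ncard ≤
      2 ^ ((k + d).choose d) := by
    intro i
    have : FiniteDimensional QF (span QF (Set.range t)) :=
      FiniteDimensional.span_of_finite QF (Set.finite_range t)
    have : FiniteDimensional QF (U i) := Submodule.finiteDimensional_of_le (hU i).1
    exact (cube u hw c (U i)).trans (Nat.pow_le_pow_right (by norm_num) (hU i).2.le)
  have h1 : (Set.univ : Set (Finset (Fin M0))).ncard ≤ n * 2 ^ ((k + d).choose d) := by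
    refine (Set.ncard_le_ncard hcov (Set.toFinite _)).trans ?_
    refine (Finset.set_ncard_biUnion_le _ _).trans ?_
    refine (Finset.sum_le_card_nsmul _ _ (2 ^ ((k + d).choose d)) fun i _ => hUi i).trans ?_
    rw [Finset.card_univ, Fintype.card_fin, smul_eq_mul]
  rw [Set.ncard_univ, Nat.card_eq_fintype_card, Fintype.card_finset, Fintype.card_fin] at h1
  exact absurd (h1.trans (Nat.mul_le_mul_right _ hn)) (not_le.2 hM0)

end Pool.Agent.DIk

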