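import Pool.Agent.DIk.Defs

/-! # A finite Galois extension of `K(X_1, .., X_k)` that contains given elements -/

namespace Pool.Agent.DIk

open Pool.Agent.QN Pool.Agent.QS

private theorem countable_Q (K : Type) [Field K] [Countable K] (k : ℕ) : Countable (Q K k) := by
  have h1 : Countable (A K k) := by
    rw [← Cardinal.mk_le_aleph0_iff]
    refine MvPolynomial.cardinalMk_le_max.trans (max_le (max_le ?_ ?_) le_rfl)
    · exact Cardinal.mk_le_aleph0_iff.2 inferInstance
    · exact Cardinal.mk_le_aleph0_iff.2 inferInstance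
  have h2 : Function.Surjective (fun p : A K k × A K k =>
      algebraMap (A K k) (Q K k) p.1 / algebraMap (A K k) (Q K k) p.2) := by
    intro q
    obtain ⟨a, b, -, e⟩ := IsFractionRing.div_surjective (A := A K k) q
    exact ⟨(a, b), e⟩
  exact h2.countable

theorem exists_model {K L : Type} [Field K] [CharZero K] [Countable K] [Field L] [IsAlgClosed L]
    [Algebra K L] {k : ℕ} (x : Fin k → L) (hx : AlgebraicIndependent K x) (Y : Set L)
    (hYf : Y.Finite) (hY : ∀ y ∈ Y, ∃ e, SXL K e x y) :
    ∃ (M : Type) (_ : Field M) (_ : Algebra K M) (_ : Algebra (A K k) M) (_ : Algebra (Q K k) M)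
      (_ : IsScalarTower (A K k) (Q K k) M) (_ : IsScalarTower K (A K k) M)
      (_ : IsScalarTower K (Q K k) M) (_ : FiniteDimensional (Q K k) M) (_ : IsGalois (Q K k) M)
      (_ : Countable M) (φ : M →ₐ[K] L), (∀ y ∈ Y, ∃ u, φ u = y) ∧ (∀ i, φ (xM K M k i) = x i) ∧
        ∀ (e : ℕ) (u : M), SXL K e x (φ u) → SX K k e u := by
  classical
  let ev : A K k →+* L := (MvPolynomial.aeval (R := K) x).toRingHom
  have hevC : ∀ c : K, ev (algebraMap K (A K k) c) = algebraMap K L c := fun c =>
    (MvPolynomial.aeval (R := K) x).commutes c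
  have hev : Function.Injective ev := hx
  let ψ : Q K k →+* L := IsFractionRing.lift (K := Q K k) hev
  have hψ : ∀ f : A K k, ψ (algebraMap (A K k) (Q K k) f) = ev f := fun f =>
    IsFractionRing.lift_algebraMap hev f
  let algQ : Algebra (Q K k) L := ψ.toAlgebra
  have hQL : ∀ q : Q K k, algebraMap (Q K k) L q = ψ q := fun _ => rfl
  -- the elements of `Y` are algebraic
  have halg : ∀ y ∈ Y, IsIntegral (Q K k) y := by
    intro y hy
    obtain ⟨e, R, hR, -, h0⟩ := hY y hy
    rw [← isAlgebraic_iff_isIntegral]
    refine ⟨R.map (algebraMap (A K k) (Q K k)), ?_, ?_⟩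
    · rwa [Ne, Polynomial.map_eq_zero_iff (IsFractionRing.injective (A K k) (Q K k))]
    · rw [Polynomial.aeval_def, Polynomial.eval₂_map]
      have h1 : (algebraMap (Q K k) L).comp (algebraMap (A K k) (Q K k)) = ev :=
        RingHom.ext fun f => hψ f
      rw [h1]
      exact h0
  let p : Polynomial (Q K k) := ∏ y ∈ hYf.toFinset, minpoly (Q K k) y
  have hp0 : p ≠ 0 := Finset.prod_ne_zero_iff.2 fun y hy =>
    minpoly.ne_zero (halg y (hYf.mem_toFinset.1 hy))
  let M : IntermediateField (Q K k) L := IntermediateField.adjoin (Q K k) (p.rootSet L)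
  have hsp : p.IsSplittingField (Q K k) M :=
    IntermediateField.adjoin_rootSet_isSplittingField (IsAlgClosed.splits _)
  have hfd : FiniteDimensional (Q K k) M := Polynomial.IsSplittingField.finiteDimensional M p
  have hnm : Normal (Q K k) M := Normal.of_isSplittingField p
  have hch : CharZero (Q K k) := by
    have h1 : Function.Injective (algebraMap K (Q K k)) := (algebraMap K (Q K k)).injective
    exact charZero_of_injective_algebraMap h1
  have hgal : IsGalois (Q K k) M := ⟨⟩
  have hcQ : Countable (Q K k) := countable_Q K k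
  have hcM : Countable M := (Module.finBasis (Q K k) M).equivFun.toEquiv.injective.countable
  let aA : Algebra (A K k) M := ((algebraMap (Q K k) M).comp (algebraMap (A K k) (Q K k))).toAlgebra
  let aK : Algebra K M := ((algebraMap (Q K k) M).comp (algebraMap K (Q K k))).toAlgebra
  have t1 : IsScalarTower (A K k) (Q K k) M := IsScalarTower.of_algebraMap_eq fun _ => rfl
  have t3 : IsScalarTower K (Q K k) M := IsScalarTower.of_algebraMap_eq fun _ => rfl
  have t2 : IsScalarTower K (A K k) M := IsScalarTower.of_algebraMap_eq fun c => by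
    change algebraMap (Q K k) M (algebraMap K (Q K k) c) =
      algebraMap (Q K k) M (algebraMap (A K k) (Q K k) (algebraMap K (A K k) c))
    rw [← IsScalarTower.algebraMap_apply K (A K k) (Q K k)]
  have hM : ∀ f : A K k, M.val (algebraMap (A K k) M f) = ev f := by
    intro f
    change M.val (algebraMap (Q K k) M (algebraMap (A K k) (Q K k) f)) = _
    rw [M.val.commutes, hQL, hψ]
  let φ : M →ₐ[K] L :=
    { M.val.toRingHom with
      commutes' := fun c => by
        change M.val (algebraMap K M c) = algebraMap K L c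
        rw [IsScalarTower.algebraMap_apply K (A K k) M, hM, hevC] }
  have hφ : ∀ u : M, φ u = (u : L) := fun _ => rfl
  refine ⟨M, inferInstance, aK, aA, inferInstance, t1, t2, t3, hfd, hgal, hcM, φ, ?_, ?_, ?_⟩
  · intro y hy
    have h1 : y ∈ M := by
      refine IntermediateField.subset_adjoin _ _ ?_
      rw [Polynomial.mem_rootSet]
      refine ⟨hp0, ?_⟩
      rw [map_prod]
      exact Finset.prod_eq_zero (hYf.mem_toFinset.2 hy) (minpoly.aeval _ _)
    exact ⟨⟨y, h1⟩, rfl⟩
  · intro i
    have h1 := hM (MvPolynomial.X i)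
    have h2 : ev (MvPolynomial.X i) = x i := MvPolynomial.aeval_X (R := K) x i
    rw [h2] at h1
    exact h1
  · rintro e u ⟨R, hR, hdeg, h0⟩
    refine ⟨R, hR, hdeg, ?_⟩
    have hinj : Function.Injective M.val := M.val.toRingHom.injective
    apply hinj
    rw [map_zero, Polynomial.aeval_def]
    have h1 : (M.val.toRingHom : M →+* L).comp (algebraMap (A K k) M) = ev := RingHom.ext hM
    have h2 := Polynomial.hom_eval₂ R (algebraMap (A K k) M) M.val.toRingHom u
    rw [h1] at h2
    exact h2.trans h0

end Pool.Agent.DIk
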