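import Pool.Agent.DIk.PoleB
import Pool.Agent.DIk.Emb
import Pool.Agent.QN.Cmp

/-! # The places of `M` over `K(X_1, .., X_k)` -/

namespace Pool.Agent.DIk

open Pool.Agent.QN Pool.Agent.QS Pool.Agent.DI

variable {K : Type} [Field K] [CharZero K] [IsAlgClosed K] {k : ℕ} {M : Type} [Field M] [Countable M]
  [Algebra K M] [Algebra (A K k) M] [Algebra (Q K k) M] [IsScalarTower (A K k) (Q K k) M]
  [IsScalarTower K (A K k) M] [IsScalarTower K (Q K k) M] [FiniteDimensional (Q K k) M]
  [IsGalois (Q K k) M]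

omit [IsScalarTower K (Q K k) M] in
theorem exists_pole (hk : 0 < k) (y : M) (hy : ¬ ∃ c : K, algebraMap K M c = y) :
    ∃ (Γ : Type) (_ : LinearOrderedCommGroupWithZero Γ) (v : Valuation M Γ) (π : Γ) (r : M → ℂ),
      Plc K (Q K k) v π r ∧ (∀ (e : ℕ) (z : M), SX K k e z → PB (Q K k) v π e z) ∧
        ∃ g : M ≃ₐ[Q K k] M, 1 < v (g y) := by
  classical
  by_contra hcon
  have key : ∀ (Γ : Type) [LinearOrderedCommGroupWithZero Γ] (v : Valuation M Γ) (π : Γ),
      Disc (Q K k) v π → (∀ c : K, c ≠ 0 → v (algebraMap K M c) = 1) →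
      (∀ (e : ℕ) (z : M), SX K k e z → PB (Q K k) v π e z) →
      ∀ g : M ≃ₐ[Q K k] M, v (g y) ≤ 1 := by
    intro Γ i v π h1 h1' h2 g
    obtain ⟨r, hr⟩ := exists_rs (K := K) v h1'
    by_contra h3
    exact hcon ⟨Γ, i, v, π, r, ⟨h1, h1', hr⟩, h2, g, not_le.1 h3⟩
  obtain ⟨nQ, hmon, hnQ⟩ := cj_poly (⊥ : Subgroup (M ≃ₐ[Q K k] M)) y
    (fun h hh => by rw [Subgroup.mem_bot.1 hh]; rfl)
  have hle : ∀ (Γ : Type) [LinearOrderedCommGroupWithZero Γ] (v : Valuation M Γ),
      (∀ g : M ≃ₐ[Q K k] M, v (g y) ≤ 1) → ∀ j, v (algebraMap (Q K k) M (nQ.coeff j)) ≤ 1 := by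
    intro Γ _ v h j
    have h1 := coeff_prod_le v 1 (cj (⊥ : Subgroup (M ≃ₐ[Q K k] M)) y) Finset.univ j
    rw [one_pow, mul_one] at h1
    rw [← Polynomial.coeff_map, hnQ]
    exact h1.trans (Finset.prod_le_one' fun q _ => max_le le_rfl (h _))
  have hmem : ∀ j, ∃ a : A K k, algebraMap (A K k) (Q K k) a = nQ.coeff j := by
    intro j
    refine mem_of_vals (M := M) _ fun p hp => ?_
    obtain ⟨Γ, i, v, hv⟩ := exists_PV (M := M) p hp
    refine ⟨Γ, i, v, hv, hle Γ v (key Γ v _ (hv.disc hp) (fun c hc => ?_)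
      fun e z hz => bound_prime hp hv hz) j⟩
    rw [IsScalarTower.algebraMap_apply K (A K k) M]
    exact hv.const hp c hc
  choose a ha using hmem
  obtain ⟨Γ, i, v, hv⟩ := exists_IV (K := K) (M := M) (⟨0, hk⟩ : Fin k)
  have hinf := hle Γ v (key Γ v _ hv.disc (fun c hc => by
    rw [IsScalarTower.algebraMap_apply K (A K k) M]
    exact hv.const c hc) fun e z hz => bound_inf hv hz)
  have hdeg : ∀ j, (a j).totalDegree = 0 := by
    intro j
    by_cases h0 : a j = 0
    · rw [h0, MvPolynomial.totalDegree_zero]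
    · have h1 := hinf j
      rw [← ha j, ← IsScalarTower.algebraMap_apply, hv.val _ h0] at h1
      by_contra hn
      exact absurd h1 (not_le.2 (one_lt_pow₀ hv.one_lt hn))
  have hC : ∀ j, ∃ κ : K, MvPolynomial.C κ = a j := fun j =>
    ⟨_, (MvPolynomial.totalDegree_eq_zero_iff_eq_C.1 (hdeg j)).symm⟩
  choose κ hκ using hC
  have hκQ : ∀ j, algebraMap K M (κ j) = algebraMap (Q K k) M (nQ.coeff j) := by
    intro j
    rw [← ha j, ← hκ j, ← IsScalarTower.algebraMap_apply (A K k) (Q K k) M,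
      ← MvPolynomial.algebraMap_eq, ← IsScalarTower.algebraMap_apply K (A K k) M]
  have hroot : Polynomial.aeval y nQ = 0 := by
    rw [← Polynomial.eval_map_algebraMap, hnQ, Polynomial.eval_prod]
    refine Finset.prod_eq_zero (Finset.mem_univ (Cs.mk _ 1)) ?_
    rw [cj_mk _ y (fun h hh => by rw [Subgroup.mem_bot.1 hh]; rfl) 1]
    simp
  let P : Polynomial K := ∑ j ∈ Finset.range (nQ.natDegree + 1), Polynomial.monomial j (κ j)
  have hP : P.map (algebraMap K M) = nQ.map (algebraMap (Q K k) M) := by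
    ext j
    rw [Polynomial.coeff_map, Polynomial.coeff_map]
    simp only [P, Polynomial.finsetSum_coeff, Polynomial.coeff_monomial]
    rw [Finset.sum_ite_eq' (Finset.range (nQ.natDegree + 1)) j κ]
    split_ifs with hj
    · exact hκQ j
    · rw [map_zero, Polynomial.coeff_eq_zero_of_natDegree_lt
        (by rw [Finset.mem_range] at hj; omega), map_zero]
  have hmonM : (P.map (algebraMap K M)).Monic := by
    rw [hP]
    exact hmon.map _
  have hmonP : P.Monic := Polynomial.monic_of_injective (algebraMap K M).injective hmonM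
  have hint : IsIntegral K y := by
    refine ⟨P, hmonP, ?_⟩
    rw [← Polynomial.aeval_def, ← Polynomial.eval_map_algebraMap, hP,
      Polynomial.eval_map_algebraMap]
    exact hroot
  obtain ⟨c, hc⟩ := minpoly.mem_range_of_degree_eq_one K y
    (IsAlgClosed.degree_eq_one_of_irreducible K (minpoly.irreducible hint))
  exact hy ⟨c, hc⟩

end Pool.Agent.DIk
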