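import Pool.Agent.DI.Grid
import Pool.Agent.DI.Sub
import Pool.Agent.DIk.Cube
import Pool.Agent.DIk.Pole
import Pool.Agent.DIk.Deg
import Pool.Agent.DIk.Model

/-! # The subbox with relations of bounded degree -/

namespace Pool.Agent.DIk

open Pool.Agent.QN Pool.Agent.QS Pool.Agent.DI

theorem TR_mono {K L : Type} [Field K] [Field L] [Algebra K L] {k d d' : ℕ} (h : d ≤ d')
    {w : Fin k → L} {y : L} (hy : TR K d w y) : TR K d' w y := by
  obtain ⟨P, h1, h2, h3⟩ := hy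
  exact ⟨P, h1, h2.trans h, h3⟩

theorem TR_map {K L L' : Type} [Field K] [Field L] [Algebra K L] [Field L'] [Algebra K L']
    {k d : ℕ} (φ : L →ₐ[K] L') {w : Fin k → L} {y : L} (hy : TR K d w y) :
    TR K d (fun i => φ (w i)) (φ y) := by
  obtain ⟨P, h1, h2, h3⟩ := hy
  refine ⟨P, h1, h2, ?_⟩
  have h4 : (Fin.cons (φ y) (fun i => φ (w i)) : Fin (k + 1) → L') =
      fun i => φ ((Fin.cons y w : Fin (k + 1) → L) i) := by
    funext i
    refine Fin.cases ?_ (fun i => ?_) i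
    · rfl
    · rfl
  rw [h4, ← MvPolynomial.comp_aeval_apply, h3, map_zero]

/-- a relation makes `y` algebraic over the field of the variables -/
theorem alg_of_SX {K M : Type} {k e : ℕ} [Field K] [Field M] [Algebra K M] [Algebra (A K k) M]
    [Algebra (Q K k) M] [IsScalarTower (A K k) (Q K k) M] [IsScalarTower K (A K k) M] {y : M}
    (h : SX K k e y) : IsAlgebraic (Algebra.adjoin K (Set.range (xM K M k))) y := by
  obtain ⟨R, hR, -, h0⟩ := h
  have hmem : ∀ f : A K k, MvPolynomial.aeval (xM K M k) f ∈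
      Algebra.adjoin K (Set.range (xM K M k)) := by
    intro f
    rw [Algebra.adjoin_range_eq_range_aeval]
    exact ⟨f, rfl⟩
  let ι : A K k →ₐ[K] Algebra.adjoin K (Set.range (xM K M k)) :=
    (MvPolynomial.aeval (xM K M k)).codRestrict _ hmem
  have hι : Function.Injective ι := by
    intro f g hfg
    exact xM_indep (K := K) (M := M) (congrArg Subtype.val hfg)
  refine ⟨R.map ι.toRingHom, ?_, ?_⟩
  · rwa [Ne, Polynomial.map_eq_zero_iff hι]
  · rw [Polynomial.aeval_def, Polynomial.eval₂_map, ← h0, Polynomial.aeval_def]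
    congr 1
    exact RingHom.ext fun f => aeval_xM f

theorem subbox (k e : ℕ) (hk : 0 < k) : ∃ d : ℕ, 0 < d ∧ ∀ M0 : ℕ, ∃ t n : ℕ, 0 < t ∧ 0 < n ∧
    ∀ (K : Type) [Field K] [CharZero K] [IsAlgClosed K] [Countable K] [Algebra K ℂ]
      (x : Fin k → ℂ) (_ : AlgebraicIndependent K x) (c : ℂ) (w : Fin n → Fin t → ℂ),
      (∀ z : Fin n → Fin t, SXL K e x (c + ∑ m, w m (z m)) ∧
        ¬ ∃ κ : K, algebraMap K ℂ κ = c + ∑ m, w m (z m)) →
      (∀ m i j, ∃ e', SXL K e' x (w m i - w m j)) →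
      ∃ (I : Fin M0 → Fin n) (z0 : Fin n → Fin t) (j : Fin M0 → Fin t), Function.Injective I ∧
        (∀ m, j m ≠ z0 (I m)) ∧ ∃ u : Fin k → ℂ, AlgebraicIndependent K u ∧
          ∀ A : Finset (Fin M0),
            TR K d u (c + ∑ m, w m (z0 m) + ∑ m ∈ A, (w (I m) (j m) - w (I m) (z0 (I m)))) := by
  classical
  obtain ⟨B, hB0, hB⟩ := cube e
  obtain ⟨B2, hB20, hB2⟩ := grid B
  refine ⟨(2 * (e * B2) + k * (2 * e ^ 2)) + 1, Nat.succ_pos _, fun M0 => ?_⟩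
  obtain ⟨t, n, ht, hn, hgr⟩ := hB2 M0
  refine ⟨t, n, ht, hn, ?_⟩
  intro K _ _ _ _ _ x hx c w hS hw
  let i0 : Fin t := ⟨0, ht⟩
  -- the model
  let Y : Set ℂ := {c + ∑ m, w m i0} ∪ Set.range fun p : Fin n × Fin t => w p.1 p.2 - w p.1 i0
  have hYf : Y.Finite := (Set.finite_singleton _).union (Set.finite_range _)
  have hY : ∀ y ∈ Y, ∃ e', SXL K e' x y := by
    rintro y (rfl | ⟨p, rfl⟩)
    · exact ⟨e, (hS fun _ => i0).1⟩
    · exact hw _ _ _
  obtain ⟨M, iM, iKM, iAM, iQM, iAQ, iKA, iKQ, iF, iG, iC, φ, hφY, hφx, hφS⟩ :=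
    exists_model x hx Y hYf hY
  obtain ⟨c', hc'⟩ := hφY (c + ∑ m, w m i0) (Or.inl rfl)
  choose w' hw' using fun (m : Fin n) (i : Fin t) => hφY (w m i - w m i0) (Or.inr ⟨(m, i), rfl⟩)
  have hφz : ∀ z : Fin n → Fin t, φ (c' + ∑ m, w' m (z m)) = c + ∑ m, w m (z m) := by
    intro z
    rw [map_add, map_sum, hc', Finset.sum_congr rfl fun m _ => hw' m (z m),
      Finset.sum_sub_distrib]
    ring
  have hin : ∀ z : Fin n → Fin t, SX K k e (c' + ∑ m, w' m (z m)) ∧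
      ¬ ∃ κ : K, algebraMap K M κ = c' + ∑ m, w' m (z m) := by
    intro z
    refine ⟨hφS e _ (by rw [hφz]; exact (hS z).1), ?_⟩
    rintro ⟨κ, hκ⟩
    refine (hS z).2 ⟨κ, ?_⟩
    rw [← hφz, ← hκ, AlgHom.commutes]
  have : CharZero M := charZero_of_injective_algebraMap (algebraMap K M).injective
  -- the cube hypothesis
  have hcube : ∀ (y : M) (v : Fin 7 → M),
      (∀ A : Finset (Fin 7), ∃ z : Fin n → Fin t, y + ∑ m ∈ A, v m = c' + ∑ m, w' m (z m)) →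
      ∃ A A' : Finset (Fin 7), A ≠ A' ∧
        Near (M ≃ₐ[Q K k] M) B (y + ∑ m ∈ A, v m) (y + ∑ m ∈ A', v m) := by
    intro y v hyv
    obtain ⟨z1, hz1⟩ := hyv ∅
    obtain ⟨Γ, iΓ, ν, π, r, hP, hPB, g, hg⟩ := exists_pole (K := K) hk
      (y + ∑ m ∈ (∅ : Finset (Fin 7)), v m)
      (by rw [hz1]; exact (hin z1).2)
    refine hB K (Q K k) M Γ ν π r hP y v (fun A => ?_) ⟨∅, g, hg⟩
    obtain ⟨z, hz⟩ := hyv A
    rw [hz]
    exact hPB e _ (hin z).1
  obtain ⟨I, z0, j, hI, hj, hA⟩ := hgr (M ≃ₐ[Q K k] M) M c' w' hcube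
  refine ⟨I, z0, j, hI, hj, ?_⟩
  -- the elements of the subbox
  have hel : ∀ A : Finset (Fin M0), ∃ z : Fin n → Fin t,
      c' + ∑ m, w' m (z0 m) + ∑ m ∈ A, (w' (I m) (j m) - w' (I m) (z0 (I m))) =
        c' + ∑ m, w' m (z m) := by
    intro A
    obtain ⟨z, hz⟩ := exists_point w' I hI z0 j A
    exact ⟨z, by rw [hz, add_assoc]⟩
  have hφA : ∀ A : Finset (Fin M0),
      φ (c' + ∑ m, w' m (z0 m) + ∑ m ∈ A, (w' (I m) (j m) - w' (I m) (z0 (I m)))) =
        c + ∑ m, w m (z0 m) + ∑ m ∈ A, (w (I m) (j m) - w (I m) (z0 (I m))) := by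
    intro A
    rw [map_add, hφz, map_sum]
    congr 1
    refine Finset.sum_congr rfl fun m _ => ?_
    rw [map_sub, hw', hw']
    ring
  set F : Subgroup (M ≃ₐ[Q K k] M) :=
    MulAction.stabilizer (M ≃ₐ[Q K k] M) (c' + ∑ m, w' m (z0 m)) ⊓
      ⨅ m : Fin M0, MulAction.stabilizer (M ≃ₐ[Q K k] M)
        (w' (I m) (j m) - w' (I m) (z0 (I m))) with hF
  have hFfix : ∀ g ∈ F, ∀ A : Finset (Fin M0),
      g (c' + ∑ m, w' m (z0 m) + ∑ m ∈ A, (w' (I m) (j m) - w' (I m) (z0 (I m)))) =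
        c' + ∑ m, w' m (z0 m) + ∑ m ∈ A, (w' (I m) (j m) - w' (I m) (z0 (I m))) := by
    intro g hg A
    rw [hF, Subgroup.mem_inf, Subgroup.mem_iInf] at hg
    obtain ⟨hg1, hg2⟩ := hg
    rw [MulAction.mem_stabilizer_iff, AlgEquiv.smul_def] at hg1
    rw [map_add, hg1, map_sum]
    congr 1
    refine Finset.sum_congr rfl fun m _ => ?_
    have := hg2 m
    rwa [MulAction.mem_stabilizer_iff, AlgEquiv.smul_def] at this
  -- the exchange of one variable
  have hbase : c' + ∑ m, w' m (z0 m) + ∑ m ∈ (∅ : Finset (Fin M0)),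
      (w' (I m) (j m) - w' (I m) (z0 (I m))) = c' + ∑ m, w' m (z0 m) := by
    rw [Finset.sum_empty, add_zero]
  obtain ⟨l, hl⟩ := exists_index (xM K M k) xM_indep (c' + ∑ m, w' m (z0 m))
    (alg_of_SX (hin z0).1) (fun h => (hin z0).2 (by
      obtain ⟨κ, hκ⟩ := minpoly.mem_range_of_degree_eq_one K _
        (IsAlgClosed.degree_eq_one_of_irreducible K (minpoly.irreducible h.isIntegral))
      exact ⟨κ, hκ⟩))
  refine ⟨fun i => φ (Function.update (xM K M k) l (c' + ∑ m, w' m (z0 m)) i),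
    hl.map' φ.toRingHom.injective, fun A => ?_⟩
  obtain ⟨z', hz'⟩ := hel A
  have hA0 := hA ∅
  rw [hbase] at hA0
  have hrel := near_rel (K := K) (e := e) (B := B2) (c' + ∑ m, w' m (z0 m))
    (c' + ∑ m, w' m (z0 m) + ∑ m ∈ A, (w' (I m) (j m) - w' (I m) (z0 (I m))))
    (hin z0).1 (by rw [hz']; exact (hin z').1) l hl F
    (fun g hg => ⟨by have := hFfix g hg ∅; rwa [hbase] at this, hFfix g hg A⟩) hA0 (hA A)
  have hrel' := TR_mono (Nat.le_succ _) (TR_map φ hrel)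
  rwa [hφA A] at hrel'

end Pool.Agent.DIk
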