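import Pool.Agent.DI.End
import Pool.Agent.DIk.Sub
import Pool.Agent.DIk.NoCube

/-! # The density theorem -/

namespace Pool.Agent.DIk

open Pool.Agent.QS Pool.Agent.DI

/-- a relation over the algebraic numbers of degree `≤ e` in each `x i` -/
def RX (e : ℕ) {k : ℕ} (x : Fin k → ℂ) (y : ℂ) : Prop :=
  ∃ P : MvPolynomial (Fin (k + 1)) ℂ, P ≠ 0 ∧ (∀ i : Fin k, P.degreeOf i.succ ≤ e) ∧
    (∀ m, IsAlgebraic ℚ (P.coeff m)) ∧
      MvPolynomial.eval (Fin.cons y x : Fin (k + 1) → ℂ) P = 0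

theorem sxl_of_rx {e k : ℕ} {x : Fin k → ℂ} {y : ℂ} (h : RX e x y) :
    SXL (algebraicClosure ℚ ℂ) (k * e) x y := by
  obtain ⟨P, hP0, hPd, hPa, hPe⟩ := h
  obtain ⟨P', rfl⟩ := End_lift P hPa
  have hinj : Function.Injective (algebraMap (algebraicClosure ℚ ℂ) ℂ) :=
    FaithfulSMul.algebraMap_injective _ _
  have hP'0 : P' ≠ 0 := by
    rintro rfl
    exact hP0 (map_zero _)
  refine ⟨MvPolynomial.finSuccEquiv (algebraicClosure ℚ ℂ) k P', ?_, fun j => ?_, ?_⟩
  · rwa [Ne, EmbeddingLike.map_eq_zero_iff]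
  · have h1 : ∀ i : Fin k, MvPolynomial.degreeOf i
        ((MvPolynomial.finSuccEquiv (algebraicClosure ℚ ℂ) k P').coeff j) ≤ e := by
      intro i
      refine (MvPolynomial.degreeOf_coeff_finSuccEquiv P' i j).trans ?_
      have h5 : MvPolynomial.degreeOf i.succ
          (MvPolynomial.map (algebraMap (algebraicClosure ℚ ℂ) ℂ) P') =
          MvPolynomial.degreeOf i.succ P' := by
        rw [MvPolynomial.degreeOf_eq_sup, MvPolynomial.degreeOf_eq_sup,
          MvPolynomial.support_map_of_injective P' hinj]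
      rw [← h5]
      exact hPd i
    rw [MvPolynomial.totalDegree]
    refine Finset.sup_le fun m hm => ?_
    rw [Finsupp.sum_fintype _ _ fun _ => rfl]
    refine (Finset.sum_le_card_nsmul _ _ e fun i _ =>
      (MvPolynomial.monomial_le_degreeOf i hm).trans (h1 i)).trans ?_
    rw [Finset.card_univ, Fintype.card_fin, smul_eq_mul]
  · rw [← aeval_cons_L, ← hPe, MvPolynomial.eval_map, MvPolynomial.aeval_def]

/-- the elements that are algebraic over `K(x)` -/
theorem sxl_sub {K L : Type} [Field K] [Field L] [Algebra K L] {k : ℕ} {x : Fin k → L}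
    {y y' : L} (h : ∃ e, SXL K e x y) (h' : ∃ e, SXL K e x y') : ∃ e, SXL K e x (y - y') := by
  let φ : A K k →+* L := (MvPolynomial.aeval (R := K) x).toRingHom
  let _ : Algebra (A K k) L := φ.toAlgebra
  have h1 : ∀ y : L, (∃ e, SXL K e x y) ↔ IsAlgebraic (A K k) y := by
    intro y
    constructor
    · rintro ⟨e, R, hR, -, h⟩
      exact ⟨R, hR, h⟩
    · rintro ⟨R, hR, h⟩
      refine ⟨R.support.sup fun j => (R.coeff j).totalDegree, R, hR, fun j => ?_, h⟩
      by_cases hj : R.coeff j = 0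
      · rw [hj, MvPolynomial.totalDegree_zero]
        exact Nat.zero_le _
      · exact Finset.le_sup (f := fun j => (R.coeff j).totalDegree)
          (Polynomial.mem_support_iff.2 hj)
  rw [h1] at h h' ⊢
  exact h.sub h'

/-- the bad integers -/
def Bd (e : ℕ) {k : ℕ} (x : Fin k → ℂ) (t : ℂ) : Set ℕ :=
  {a : ℕ | t + ((Real.log (a : ℝ) : ℝ) : ℂ) ≠ 0 ∧ RX e x (t + ((Real.log (a : ℝ) : ℝ) : ℂ))}

theorem main (k e : ℕ) (hk : 0 < k) : ∃ (C : ℝ) (m X0 : ℕ), 0 < C ∧ ∀ x : Fin k → ℂ,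
    AlgebraicIndependent ℚ x → ∀ t : ℂ, IsAlgebraic ℚ (Complex.exp t) → ∀ X : ℕ, X0 ≤ X →
      ({a : ℕ | (1 ≤ a ∧ a ≤ X) ∧ a ∈ Bd e x t}.ncard : ℝ) ≤
        X * (C * Real.log (Real.log X) ^ m * Real.exp (-Real.log (Real.log X))) := by
  classical
  obtain ⟨d, hd, hsub⟩ := subbox k (k * e) hk
  obtain ⟨M0, hM0⟩ := no_cube k d hk hd
  obtain ⟨s, n, hs, hn, hbox⟩ := hsub M0
  obtain ⟨C, m, X0, hC, hden⟩ := Pool.Agent.QDen.density_grid n s hn hs
  refine ⟨C, m, X0, hC, fun x hx t ht X hX => hden (Bd e x t) ?_ X hX⟩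
  intro b hb V hVp hVc hVd
  by_contra hcon
  push Not at hcon
  let K := algebraicClosure ℚ ℂ
  have : IsAlgClosed K := (algebraicClosure.isAlgClosure ℚ ℂ).isAlgClosed
  have hxK : AlgebraicIndependent K x := by
    have : Algebra.IsAlgebraic ℚ K := algebraicClosure.isAlgebraic ℚ ℂ
    exact hx.extendScalars K
  have hKc : Countable K := by
    have h1 : {x : ℂ | IsAlgebraic ℚ x}.Countable := Algebraic.countable ℚ ℂ
    exact (h1.mono fun c hc => mem_algebraicClosure_iff.1 hc).to_subtype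
  -- the primes
  let p : Fin n → Fin s → ℕ := fun m i => ((V m).equivFinOfCardEq (hVc m)).symm i
  have hpV : ∀ m i, p m i ∈ V m := fun m i => (((V m).equivFinOfCardEq (hVc m)).symm i).2
  have hpp : ∀ m i, (p m i).Prime := fun m i => hVp m _ (hpV m i)
  have hpinj : ∀ m, Function.Injective (p m) := fun m i j h =>
    ((V m).equivFinOfCardEq (hVc m)).symm.injective (Subtype.ext h)
  let c : ℂ := t + ((Real.log (b : ℝ) : ℝ) : ℂ)
  let w : Fin n → Fin s → ℂ := fun m i => ((Real.log (p m i : ℝ) : ℝ) : ℂ)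
  have hyz : ∀ z : Fin n → Fin s, c + ∑ m, w m (z m) =
      t + ((Real.log ((b * ∏ m, p m (z m) : ℕ) : ℝ) : ℝ) : ℂ) := by
    intro z
    have h0 : ∀ m ∈ (Finset.univ : Finset (Fin n)), ((p m (z m) : ℕ) : ℝ) ≠ 0 := fun m _ => by
      exact_mod_cast (hpp m (z m)).ne_zero
    push_cast
    rw [Real.log_mul (by exact_mod_cast hb) (Finset.prod_ne_zero_iff.2 h0), Real.log_prod h0,
      Complex.ofReal_add, Complex.ofReal_sum, add_assoc]
  have hzB : ∀ z : Fin n → Fin s, b * ∏ m, p m (z m) ∈ Bd e x t := fun z =>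
    hcon (fun m => p m (z m)) fun m => hpV m _
  have hz1 : ∀ z : Fin n → Fin s, 1 ≤ b * ∏ m, p m (z m) := fun z =>
    Nat.one_le_iff_ne_zero.2 (mul_ne_zero hb (Finset.prod_ne_zero_iff.2 fun m _ =>
      (hpp m (z m)).ne_zero))
  have htr : ∀ z : Fin n → Fin s, ¬ IsAlgebraic ℚ (c + ∑ m, w m (z m)) := by
    intro z
    rw [hyz]
    exact Pool.Agent.QDen.transcendental_lam ht (hz1 z) (hzB z).1
  have hS : ∀ z : Fin n → Fin s, SXL K (k * e) x (c + ∑ m, w m (z m)) ∧
      ¬ ∃ κ : K, algebraMap K ℂ κ = c + ∑ m, w m (z m) := by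
    intro z
    refine ⟨?_, ?_⟩
    · rw [hyz]
      exact sxl_of_rx (hzB z).2
    · rintro ⟨κ, hκ⟩
      refine htr z ?_
      rw [← hκ]
      exact mem_algebraicClosure_iff.1 κ.2
  have hw : ∀ m i j, ∃ e', SXL K e' x (w m i - w m j) := by
    intro m i j
    let z : Fin n → Fin s := fun _ => j
    have h1 : w m i - w m j = (c + ∑ k, w k (Function.update z m i k)) - (c + ∑ k, w k (z k)) := by
      rw [add_sub_add_left_eq_sub, ← Finset.sum_sub_distrib, Finset.sum_eq_single m]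
      · rw [Function.update_self]
      · intro k _ hk
        rw [Function.update_of_ne hk, sub_self]
      · intro h
        exact absurd (Finset.mem_univ m) h
    rw [h1]
    exact sxl_sub ⟨_, (hS _).1⟩ ⟨_, (hS _).1⟩
  obtain ⟨I, z0, j, hI, hj, u, hu, hTR⟩ := hbox K x hxK c w hS hw
  -- the contradiction
  refine hM0 u (c + ∑ m, w m (z0 m)) (fun m => w (I m) (j m) - w (I m) (z0 (I m))) hu ?_ ?_ ?_ hTR
  · rw [hyz, Complex.exp_add, ← Complex.ofReal_exp,
      Real.exp_log (by exact_mod_cast Nat.pos_of_ne_zero (Nat.one_le_iff_ne_zero.1 (hz1 z0)))]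
    exact ht.mul (by exact_mod_cast isAlgebraic_natCast (R := ℚ) (A := ℂ) _)
  · intro m
    have h1 : ∀ m i, IsAlgebraic ℚ (Complex.exp (w m i)) := by
      intro m i
      change IsAlgebraic ℚ (Complex.exp ((Real.log (p m i : ℝ) : ℝ) : ℂ))
      rw [← Complex.ofReal_exp, Real.exp_log (by exact_mod_cast (hpp m i).pos)]
      exact_mod_cast isAlgebraic_natCast (R := ℚ) (A := ℂ) (p m i)
    rw [Complex.exp_sub]
    exact (h1 _ _).mul (h1 _ _).inv
  · have hdis : ∀ m m' : Fin n, m ≠ m' → ∀ i i', p m i ≠ p m' i' := by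
      intro m m' hm i i' h
      exact Finset.disjoint_left.1 (hVd m m' hm) (hpV m i) (h ▸ hpV m' i')
    refine log_diff_indep (fun m => p (I m) (j m)) (fun m => p (I m) (z0 (I m)))
      (fun m => hpp _ _) (fun m => hpp _ _) ?_ ?_
    · intro m m' h
      by_contra hne
      exact hdis _ _ (fun h' => hne (hI h')) _ _ h
    · intro m m' h
      rcases eq_or_ne m m' with rfl | hne
      · exact hj m (hpinj _ h)
      · exact hdis _ _ (fun h' => hne (hI h')) _ _ h

end Pool.Agent.DIk
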