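import Pool.Agent.DIk.End

/-! # Polynomials of any degree with coefficients in a space of finite dimension -/

set_option autoImplicit false

namespace Pool.Agent.DIk.Lin

open Polynomial

section basis

variable {K Ω : Type} [Field K] [Field Ω] [Algebra K Ω]

/-- a transcendence basis of a space of finite dimension -/
theorem exists_tb (V : Submodule K Ω) [FiniteDimensional K V] :
    ∃ (k : ℕ) (x : Fin k → Ω), AlgebraicIndependent K x ∧
      ∀ v ∈ V, IsAlgebraic (Algebra.adjoin K (Set.range x)) v := by
  classical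
  obtain ⟨u, -, hu⟩ := exists_maximal_algebraicIndependent (R := K) (∅ : Set Ω) (V : Set Ω)
    (Set.empty_subset _)
    ((algebraicIndependent_empty_iff ..).mpr (FaithfulSMul.algebraMap_injective K Ω))
  have hfin : Finite u := by
    have h1 : LinearIndependent K (fun i : u => (i : Ω)) :=
      AlgebraicIndependent.linearIndependent hu.prop.1
    have h2 : LinearIndependent K (fun i : u => (⟨(i : Ω), hu.prop.2 i.2⟩ : V)) :=
      LinearIndependent.of_comp V.subtype h1
    exact h2.finite
  let e : Fin (Nat.card u) ≃ u := (Finite.equivFin u).symm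
  refine ⟨Nat.card u, fun i => (e i : Ω), ?_, fun v hv => ?_⟩
  · exact AlgebraicIndependent.comp (x := fun i : u => (i : Ω)) hu.prop.1 e e.injective
  · have hr : Set.range (fun i => ((e i : u) : Ω)) = u := by
      ext a
      constructor
      · rintro ⟨i, rfl⟩
        exact (e i).2
      · intro ha
        exact ⟨e.symm ⟨a, ha⟩, congrArg Subtype.val (e.apply_symm_apply ⟨a, ha⟩)⟩
    rw [hr]
    by_cases hvu : v ∈ u
    · exact isAlgebraic_algebraMap (⟨v, Algebra.subset_adjoin hvu⟩ : Algebra.adjoin K u)
    · by_contra htr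
      have h1 : AlgebraicIndepOn K id (insert v u) := by
        rw [AlgebraicIndepOn.insert_iff hvu]
        refine ⟨hu.prop.1, ?_⟩
        rw [Set.image_id]
        exact htr
      have h2 := hu.le_of_ge (y := insert v u) ⟨h1, Set.insert_subset hv hu.prop.2⟩
        (Set.subset_insert v u)
      exact hvu (h2 (Set.mem_insert v u))

end basis

section degree

variable {A : Type} [CommRing A]

/-- a filtration property of the coefficients -/
structure Filt (D : ℕ → A → Prop) : Prop where
  zero : ∀ e, D e 0
  one : ∀ e, D e 1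
  add : ∀ e a b, D e a → D e b → D e (a + b)
  neg : ∀ e a, D e a → D e (-a)
  mul : ∀ e e' a b, D e a → D e' b → D (e + e') (a * b)

variable {D : ℕ → A → Prop} (hD : Filt D)

include hD

theorem Filt.sum {e : ℕ} {ι : Type} (s : Finset ι) (f : ι → A) (h : ∀ i ∈ s, D e (f i)) :
    D e (∑ i ∈ s, f i) := by
  classical
  induction s using Finset.induction_on with
  | empty => exact hD.zero e
  | insert i s hi ih =>
    rw [Finset.sum_insert hi]
    exact hD.add _ _ _ (h i (Finset.mem_insert_self i s))
      (ih fun j hj => h j (Finset.mem_insert_of_mem hj))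

theorem Filt.prod {e : ℕ} {ι : Type} (s : Finset ι) (f : ι → A) (h : ∀ i ∈ s, D e (f i)) :
    D (s.card * e) (∏ i ∈ s, f i) := by
  classical
  induction s using Finset.induction_on with
  | empty => exact hD.one _
  | insert i s hi ih =>
    rw [Finset.prod_insert hi, Finset.card_insert_of_notMem hi, add_mul, one_mul, add_comm]
    exact hD.mul _ _ _ _ (h i (Finset.mem_insert_self i s))
      (ih fun j hj => h j (Finset.mem_insert_of_mem hj))

theorem Filt.det {e n : ℕ} (M : Matrix (Fin n) (Fin n) A) (h : ∀ i j, D e (M i j)) :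
    D (n * e) M.det := by
  rw [Matrix.det_apply]
  refine hD.sum _ _ fun σ _ => ?_
  have h1 : D (n * e) (∏ i, M (σ i) i) := by
    have h2 := hD.prod (e := e) Finset.univ (fun i => M (σ i) i) fun i _ => h _ _
    rwa [Finset.card_univ, Fintype.card_fin] at h2
  rcases Int.units_eq_one_or (Equiv.Perm.sign σ) with h3 | h3
  · rw [h3, one_smul]
    exact h1
  · rw [h3, Units.neg_smul, one_smul]
    exact hD.neg _ _ h1

end degree

/-- polynomials whose coefficients have total degree at most `e` -/
def PD {K : Type} [Field K] {k : ℕ} (e : ℕ) (p : Polynomial (MvPolynomial (Fin k) K)) : Prop :=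
  ∀ j, (p.coeff j).totalDegree ≤ e

theorem filt_PD (K : Type) [Field K] (k : ℕ) : Filt (PD (K := K) (k := k)) where
  zero e j := by
    rw [Polynomial.coeff_zero, MvPolynomial.totalDegree_zero]
    exact Nat.zero_le _
  one e j := by
    rw [Polynomial.coeff_one]
    split_ifs
    · rw [MvPolynomial.totalDegree_one]
      exact Nat.zero_le _
    · rw [MvPolynomial.totalDegree_zero]
      exact Nat.zero_le _
  add e a b ha hb j := by
    rw [Polynomial.coeff_add]
    exact (MvPolynomial.totalDegree_add _ _).trans (max_le (ha j) (hb j))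
  neg e a ha j := by
    rw [Polynomial.coeff_neg, MvPolynomial.totalDegree_neg]
    exact ha j
  mul e e' a b ha hb j := by
    rw [Polynomial.coeff_mul]
    refine MvPolynomial.totalDegree_finsetSum_le fun p _ => ?_
    exact (MvPolynomial.totalDegree_mul _ _).trans (add_le_add (ha _) (hb _))

/-- a common denominator -/
theorem common_denom {K Ω : Type} [Field K] [Field Ω] [Algebra K Ω] {k : ℕ} (x : Fin k → Ω)
    {ι : Type} (s : Finset ι) (f : ι → Ω)
    (h : ∀ i ∈ s, f i ∈ IntermediateField.adjoin K (Set.range x)) :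
    ∃ q : MvPolynomial (Fin k) K, MvPolynomial.aeval x q ≠ 0 ∧
      ∀ i ∈ s, ∃ g : MvPolynomial (Fin k) K,
        MvPolynomial.aeval x q * f i = MvPolynomial.aeval x g := by
  classical
  induction s using Finset.induction_on with
  | empty => exact ⟨1, by rw [map_one]; exact one_ne_zero, fun i hi => absurd hi (by simp)⟩
  | insert i s hi ih =>
    obtain ⟨q, hq, hqf⟩ := ih fun j hj => h j (Finset.mem_insert_of_mem hj)
    obtain ⟨r, t, hrt⟩ := (IntermediateField.mem_adjoin_range_iff K x (f i)).1
      (h i (Finset.mem_insert_self i s))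
    by_cases ht : MvPolynomial.aeval x t = 0
    · refine ⟨q, hq, fun j hj => ?_⟩
      rcases Finset.mem_insert.1 hj with rfl | hj
      · refine ⟨0, ?_⟩
        rw [hrt, ht, div_zero, mul_zero, map_zero]
      · exact hqf j hj
    · refine ⟨q * t, by rw [map_mul]; exact mul_ne_zero hq ht, fun j hj => ?_⟩
      rcases Finset.mem_insert.1 hj with rfl | hj
      · refine ⟨q * r, ?_⟩
        rw [map_mul, map_mul, hrt, mul_assoc, mul_div_cancel₀ _ ht]
      · obtain ⟨g, hg⟩ := hqf j hj
        refine ⟨g * t, ?_⟩
        rw [map_mul, map_mul, ← hg]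
        ring

/-- the matrices of multiplication: `b` generates, over `K(x)`, a space stable under `V` -/
theorem exists_matrix {K Ω : Type} [Field K] [Field Ω] [Algebra K Ω] (V : Submodule K Ω)
    [FiniteDimensional K V] {k : ℕ} (x : Fin k → Ω)
    (hV : ∀ v ∈ V, IsAlgebraic (Algebra.adjoin K (Set.range x)) v) :
    ∃ (n e : ℕ) (b : Fin n → Ω) (q : MvPolynomial (Fin k) K)
      (G : V → Matrix (Fin n) (Fin n) (MvPolynomial (Fin k) K)),
      0 < n ∧ LinearIndependent (IntermediateField.adjoin K (Set.range x)) b ∧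
      MvPolynomial.aeval x q ≠ 0 ∧ (∀ c i j, (G c i j).totalDegree ≤ e) ∧ G 0 = 0 ∧
      ∀ c j, ∑ i, b i * MvPolynomial.aeval x (G c i j) = MvPolynomial.aeval x q * (c : Ω) * b j := by
  classical
  let F := IntermediateField.adjoin K (Set.range x)
  let wb := Module.finBasis K V
  let d := Module.finrank K V
  have hint : ∀ v ∈ V, IsIntegral F v := by
    intro v hv
    have h1 := hV v hv
    rw [← isAlgebraic_iff_isIntegral]
    have h2 : Algebra.adjoin K (Set.range x) ≤ F.toSubalgebra :=
      IntermediateField.algebra_adjoin_le_adjoin K _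
    obtain ⟨p, hp, hpv⟩ := h1
    refine ⟨p.map (Subalgebra.inclusion h2).toRingHom, ?_, ?_⟩
    · rw [Ne, Polynomial.map_eq_zero_iff (Subalgebra.inclusion_injective h2)]
      exact hp
    · rw [Polynomial.aeval_def, Polynomial.eval₂_map]
      rw [Polynomial.aeval_def] at hpv
      exact hpv
  let L : IntermediateField F Ω := IntermediateField.adjoin F (Set.range fun l => ((wb l : V) : Ω))
  have hL : FiniteDimensional F L :=
    IntermediateField.finiteDimensional_adjoin (fun y hy => by
      obtain ⟨l, rfl⟩ := hy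
      exact hint _ (wb l).2)
  let b := Module.finBasis F L
  let n := Module.finrank F L
  have hn : 0 < n := Module.finrank_pos
  let w : Fin d → L := fun l => ⟨((wb l : V) : Ω),
    IntermediateField.subset_adjoin F _ ⟨l, rfl⟩⟩
  let m : (Fin d × Fin n × Fin n) → Ω := fun t => ((b.repr (w t.1 * b t.2.2) t.2.1 : F) : Ω)
  obtain ⟨q, hq, hqm⟩ := common_denom x Finset.univ m fun t _ =>
    (b.repr (w t.1 * b t.2.2) t.2.1 : F).2
  choose g hg using fun t => hqm t (Finset.mem_univ t)
  refine ⟨n, Finset.univ.sup fun t => (g t).totalDegree, fun i => ((b i : L) : Ω), q,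
    fun c i j => ∑ l, MvPolynomial.C (wb.repr c l) * g (l, i, j), hn, ?_, hq, ?_, ?_, ?_⟩
  · exact b.linearIndependent.map' L.val.toLinearMap (LinearMap.ker_eq_bot.2 L.val.injective)
  · intro c i j
    refine MvPolynomial.totalDegree_finsetSum_le fun l _ => ?_
    refine (MvPolynomial.totalDegree_mul _ _).trans ?_
    rw [MvPolynomial.totalDegree_C, zero_add]
    exact Finset.le_sup (f := fun t => (g t).totalDegree) (Finset.mem_univ (l, i, j))
  · funext i j
    simp
  · intro c j
    have h1 : ∀ l, ∑ i, m (l, i, j) * ((b i : L) : Ω) = ((wb l : V) : Ω) * ((b j : L) : Ω) := by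
      intro l
      have h2 := b.sum_repr (w l * b j)
      have h3 := congrArg (fun z : L => (z : Ω)) h2
      simp only [IntermediateField.coe_mul] at h3
      rw [← h3]
      push_cast
      rfl
    have h4 : ((c : V) : Ω) = ∑ l, algebraMap K Ω (wb.repr c l) * ((wb l : V) : Ω) := by
      have h5 := congrArg (fun z : V => (z : Ω)) (wb.sum_repr c)
      rw [← h5]
      push_cast
      refine Finset.sum_congr rfl fun l _ => ?_
      rw [Algebra.smul_def]
    calc ∑ i, ((b i : L) : Ω) * MvPolynomial.aeval x
          (∑ l, MvPolynomial.C (wb.repr c l) * g (l, i, j))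
        = ∑ i, ∑ l, algebraMap K Ω (wb.repr c l) * (MvPolynomial.aeval x q *
            (m (l, i, j) * ((b i : L) : Ω))) := by
          refine Finset.sum_congr rfl fun i _ => ?_
          rw [map_sum, Finset.mul_sum]
          refine Finset.sum_congr rfl fun l _ => ?_
          rw [map_mul, MvPolynomial.aeval_C, ← hg]
          ring
      _ = ∑ l, algebraMap K Ω (wb.repr c l) * (MvPolynomial.aeval x q *
            ∑ i, m (l, i, j) * ((b i : L) : Ω)) := by
          rw [Finset.sum_comm]
          refine Finset.sum_congr rfl fun l _ => ?_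
          rw [Finset.mul_sum, Finset.mul_sum]
      _ = _ := by
          rw [h4, Finset.mul_sum, Finset.sum_mul]
          refine Finset.sum_congr rfl fun l _ => ?_
          rw [h1]
          ring

/-- `y` is a zero of a nonzero polynomial of any degree with coefficients in `V` -/
def ZP {K Ω : Type} [Field K] [Field Ω] [Algebra K Ω] (V : Submodule K Ω) (y : Ω) : Prop :=
  ∃ P : Polynomial Ω, P ≠ 0 ∧ (∀ j, P.coeff j ∈ V) ∧ P.eval y = 0

/-- a polynomial with coefficients in `V` gives a relation of bounded degree -/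
theorem sxl_of_zp {K Ω : Type} [Field K] [Field Ω] [Algebra K Ω] (V : Submodule K Ω)
    [FiniteDimensional K V] {k : ℕ} (x : Fin k → Ω) (hx : AlgebraicIndependent K x)
    (hV : ∀ v ∈ V, IsAlgebraic (Algebra.adjoin K (Set.range x)) v) :
    ∃ e : ℕ, ∀ y : Ω, ZP V y → SXL K e x y := by
  classical
  obtain ⟨n, e, b, q, G, hn, hb, hq, hGe, hG0, hG⟩ := exists_matrix V x hV
  refine ⟨n * e, ?_⟩
  rintro y ⟨P, hP0, hPV, hPy⟩
  let φ : MvPolynomial (Fin k) K →+* Ω := (MvPolynomial.aeval (R := K) x).toRingHom
  have hφ : Function.Injective φ := hx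
  let c : ℕ → V := fun s => ⟨P.coeff s, hPV s⟩
  let M : Matrix (Fin n) (Fin n) (Polynomial (MvPolynomial (Fin k) K)) := fun i j =>
    ∑ s ∈ P.support, Polynomial.C (G (c s) i j) * Polynomial.X ^ s
  have hM : ∀ i j, PD e (M i j) := by
    intro i j
    refine (filt_PD K k).sum _ _ fun s _ t => ?_
    rw [Polynomial.coeff_C_mul_X_pow]
    split_ifs
    · exact hGe _ _ _
    · rw [MvPolynomial.totalDegree_zero]
      exact Nat.zero_le _
  -- the identity
  have hid : ∀ j, ∑ i, Polynomial.C (b i) * (M i j).map φ =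
      Polynomial.C (φ q * b j) * P := by
    intro j
    have h1 : ∀ i, (M i j).map φ = ∑ s ∈ P.support,
        Polynomial.C (φ (G (c s) i j)) * Polynomial.X ^ s := by
      intro i
      rw [Polynomial.map_sum]
      refine Finset.sum_congr rfl fun s _ => ?_
      rw [Polynomial.map_mul, Polynomial.map_C, Polynomial.map_pow, Polynomial.map_X]
    have h2 : ∀ s, ∑ i, b i * φ (G (c s) i j) = φ q * b j * P.coeff s := by
      intro s
      have h3 := hG (c s) j
      change ∑ i, b i * MvPolynomial.aeval x (G (c s) i j) = _ at h3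
      change ∑ i, b i * MvPolynomial.aeval x (G (c s) i j) =
        MvPolynomial.aeval x q * b j * P.coeff s
      rw [h3]
      change MvPolynomial.aeval x q * P.coeff s * b j = _
      ring
    calc ∑ i, Polynomial.C (b i) * (M i j).map φ
        = ∑ s ∈ P.support, Polynomial.C (∑ i, b i * φ (G (c s) i j)) * Polynomial.X ^ s := by
          simp only [h1, Finset.mul_sum]
          rw [Finset.sum_comm]
          refine Finset.sum_congr rfl fun s _ => ?_
          rw [map_sum, Finset.sum_mul]
          refine Finset.sum_congr rfl fun i _ => ?_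
          rw [Polynomial.C_mul, mul_assoc]
      _ = ∑ s ∈ P.support, Polynomial.C (φ q * b j) *
            (Polynomial.C (P.coeff s) * Polynomial.X ^ s) := by
          refine Finset.sum_congr rfl fun s _ => ?_
          rw [h2, Polynomial.C_mul, mul_assoc]
      _ = Polynomial.C (φ q * b j) * P := by
          rw [← Finset.mul_sum]
          congr 1
          exact P.as_sum_support_C_mul_X_pow.symm
  refine ⟨M.det, ?_, (filt_PD K k).det M hM, ?_⟩
  · intro hdet
    obtain ⟨u, hu0, hu⟩ := Matrix.exists_mulVec_eq_zero_iff.2 hdet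
    have h1 : Polynomial.C (φ q) * P * ∑ j, Polynomial.C (b j) * (u j).map φ = 0 := by
      calc Polynomial.C (φ q) * P * ∑ j, Polynomial.C (b j) * (u j).map φ
          = ∑ j, (Polynomial.C (φ q * b j) * P) * (u j).map φ := by
            rw [Finset.mul_sum]
            refine Finset.sum_congr rfl fun j _ => ?_
            rw [Polynomial.C_mul]
            ring
        _ = ∑ i, Polynomial.C (b i) * (∑ j, M i j * u j).map φ := by
            simp only [← hid, Finset.sum_mul, Polynomial.map_sum, Finset.mul_sum,
              Polynomial.map_mul]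
            rw [Finset.sum_comm]
            refine Finset.sum_congr rfl fun i _ => Finset.sum_congr rfl fun j _ => ?_
            ring
        _ = 0 := by
            refine Finset.sum_eq_zero fun i _ => ?_
            have h2 := congrFun hu i
            change ∑ j, M i j * u j = 0 at h2
            rw [h2, Polynomial.map_zero, mul_zero]
    have h2 : ∑ j, Polynomial.C (b j) * (u j).map φ = 0 := by
      rcases mul_eq_zero.1 h1 with h3 | h3
      · rcases mul_eq_zero.1 h3 with h4 | h4
        · exact absurd (Polynomial.C_eq_zero.1 h4) hq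
        · exact absurd h4 hP0
      · exact h3
    apply hu0
    funext j
    ext1 s
    have h3 := congrArg (fun p : Polynomial Ω => p.coeff s) h2
    simp only [Polynomial.finset_sum_coeff, Polynomial.coeff_C_mul, Polynomial.coeff_map,
      Polynomial.coeff_zero] at h3
    have hmem : ∀ a : MvPolynomial (Fin k) K, φ a ∈ IntermediateField.adjoin K (Set.range x) := by
      intro a
      rw [IntermediateField.mem_adjoin_range_iff]
      exact ⟨a, 1, by rw [map_one, div_one]; rfl⟩
    have h4 := Fintype.linearIndependent_iff.1 hb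
      (fun j => (⟨φ ((u j).coeff s), hmem _⟩ : IntermediateField.adjoin K (Set.range x))) (by
        rw [← h3]
        refine Finset.sum_congr rfl fun j _ => ?_
        rw [Algebra.smul_def, mul_comm]
        rfl) j
    have h5 : φ ((u j).coeff s) = 0 := congrArg Subtype.val h4
    change (u j).coeff s = (0 : Polynomial (MvPolynomial (Fin k) K)).coeff s
    rw [Polynomial.coeff_zero]
    exact hφ (h5.trans (map_zero φ).symm)
  · change Polynomial.eval₂ φ y M.det = 0
    have h1 : ∀ j, ∑ i, b i * Polynomial.eval₂ φ y (M i j) = 0 := by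
      intro j
      have h2 := congrArg (Polynomial.eval y) (hid j)
      rw [Polynomial.eval_finset_sum, Polynomial.eval_mul, hPy, mul_zero] at h2
      rw [← h2]
      refine Finset.sum_congr rfl fun i _ => ?_
      rw [Polynomial.eval_mul, Polynomial.eval_C, Polynomial.eval_map]
    have h2 : (M.map (Polynomial.eval₂RingHom φ y)).det = 0 := by
      rw [← Matrix.exists_vecMul_eq_zero_iff]
      refine ⟨b, fun h0 => ?_, ?_⟩
      · have h3 := hb.ne_zero ⟨0, hn⟩
        exact h3 (congrFun h0 _)
      · funext j
        exact h1 j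
    rw [← RingHom.mapMatrix_apply, ← RingHom.map_det] at h2
    exact h2

theorem rx_of_sxl {e k : ℕ} {x : Fin k → ℂ} {y : ℂ} (h : SXL (algebraicClosure ℚ ℂ) e x y) :
    RX e x y := by
  obtain ⟨R, hR0, hRe, hRy⟩ := h
  obtain ⟨P, hP⟩ : ∃ P, MvPolynomial.finSuccEquiv (algebraicClosure ℚ ℂ) k P = R :=
    ⟨(MvPolynomial.finSuccEquiv (algebraicClosure ℚ ℂ) k).symm R, AlgEquiv.apply_symm_apply _ _⟩
  have hinj : Function.Injective (algebraMap (algebraicClosure ℚ ℂ) ℂ) :=
    FaithfulSMul.algebraMap_injective _ _
  have hP0 : P ≠ 0 := by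
    rintro rfl
    exact hR0 (by rw [← hP, map_zero])
  refine ⟨MvPolynomial.map (algebraMap (algebraicClosure ℚ ℂ) ℂ) P, ?_, fun i => ?_, fun m => ?_,
    ?_⟩
  · intro h1
    exact hP0 (MvPolynomial.map_injective _ hinj (by rw [h1, map_zero]))
  · rw [MvPolynomial.degreeOf_le_iff]
    intro m hm
    have h1 : m ∈ P.support := MvPolynomial.support_map_subset _ _ hm
    have h2 : m.tail ∈ (R.coeff (m 0)).support := by
      rw [← hP, MvPolynomial.mem_support_coeff_finSuccEquiv, Finsupp.cons_tail]
      exact h1
    have h3 : m i.succ = m.tail i := rfl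
    rw [h3]
    refine le_trans ?_ (hRe (m 0))
    refine le_trans ?_ (MvPolynomial.le_totalDegree h2)
    rw [Finsupp.sum_fintype _ _ fun _ => rfl]
    exact Finset.single_le_sum (f := fun j => m.tail j) (fun _ _ => Nat.zero_le _)
      (Finset.mem_univ i)
  · rw [MvPolynomial.coeff_map]
    exact mem_algebraicClosure_iff.1 (SetLike.coe_mem _)
  · rw [MvPolynomial.eval_map, ← MvPolynomial.aeval_def, ← hRy, ← hP]
    exact Pool.Agent.QS.aeval_cons_L _ _ _

/-- the numbers of a space of finite dimension, as polynomials in independent numbers -/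
theorem exists_rx (V : Submodule (algebraicClosure ℚ ℂ) ℂ)
    [FiniteDimensional (algebraicClosure ℚ ℂ) V] :
    ∃ (k e : ℕ) (x : Fin k → ℂ), 0 < k ∧ AlgebraicIndependent ℚ x ∧ ∀ y, ZP V y → RX e x y := by
  let K := algebraicClosure ℚ ℂ
  have hKalg : Algebra.IsAlgebraic ℚ K := algebraicClosure.isAlgebraic ℚ ℂ
  obtain ⟨τ, hτ⟩ : ∃ τ : ℂ, ¬ IsAlgebraic ℚ τ := by
    by_contra h
    push Not at h
    exact not_countable_complex ((Algebraic.countable ℚ ℂ).mono fun z _ => h z)
  let V' : Submodule K ℂ := V ⊔ Submodule.span K {τ}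
  have hfin : FiniteDimensional K V' := Submodule.finiteDimensional_sup _ _
  obtain ⟨k, x, hx, hV'⟩ := exists_tb V'
  have hk : 0 < k := by
    rcases Nat.eq_zero_or_pos k with rfl | hk
    · exfalso
      have h1 := hV' τ (Submodule.mem_sup_right (Submodule.mem_span_singleton_self τ))
      rw [Set.range_eq_empty, Algebra.adjoin_empty] at h1
      have hb : Algebra.IsAlgebraic K (⊥ : Subalgebra K ℂ) := ⟨by
        rintro ⟨z, hz⟩
        obtain ⟨c, rfl⟩ := Algebra.mem_bot.1 hz
        exact isAlgebraic_algebraMap c⟩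
      have h2 : IsAlgebraic K τ := h1.restrictScalars K
      exact hτ (h2.restrictScalars ℚ)
    · exact hk
  obtain ⟨e, he⟩ := sxl_of_zp V' x hx hV'
  refine ⟨k, e, x, hk, hx.restrictScalars (algebraMap ℚ K).injective, fun y hy => ?_⟩
  obtain ⟨P, h1, h2, h3⟩ := hy
  exact rx_of_sxl (he y ⟨P, h1, fun j => Submodule.mem_sup_left (h2 j), h3⟩)

/-- the density theorem for polynomials with coefficients in a space of finite dimension -/
theorem main (V : Submodule (algebraicClosure ℚ ℂ) ℂ)
    [FiniteDimensional (algebraicClosure ℚ ℂ) V] :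
    ∃ (C : ℝ) (m X0 : ℕ), 0 < C ∧ ∀ t : ℂ, IsAlgebraic ℚ (Complex.exp t) → ∀ X : ℕ, X0 ≤ X →
      ({a : ℕ | (1 ≤ a ∧ a ≤ X) ∧ (t + ((Real.log (a : ℝ) : ℝ) : ℂ) ≠ 0 ∧
        ZP V (t + ((Real.log (a : ℝ) : ℝ) : ℂ)))}.ncard : ℝ) ≤
        X * (C * Real.log (Real.log X) ^ m * Real.exp (-Real.log (Real.log X))) := by
  obtain ⟨k, e, x, hk, hx, hV⟩ := exists_rx V
  obtain ⟨C, m, X0, hC, h⟩ := Pool.Agent.DIk.main k e hk
  refine ⟨C, m, X0, hC, fun t ht X hX => le_trans ?_ (h x hx t ht X hX)⟩
  refine Nat.cast_le.2 (Set.ncard_le_ncard ?_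
    ((Set.finite_Icc 1 X).subset fun a ha => ha.1))
  rintro a ⟨ha, h0, hz⟩
  exact ⟨ha, h0, hV _ hz⟩

end Pool.Agent.DIk.Lin
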