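import Pool.Agent.DIk.StrM

/-! # Linear dependence over an arbitrary field -/

namespace Pool.Agent.DIk

/-- common denominators -/
theorem common_den {K L : Type*} [Field K] [Field L] [Algebra K L] {σ ι : Type*} [Finite ι]
    (x : σ → L) (f : ι → L) (hf : ∀ i, f i ∈ IntermediateField.adjoin K (Set.range x)) :
    ∃ D : MvPolynomial σ K, MvPolynomial.aeval x D ≠ 0 ∧
      ∀ i, ∃ P : MvPolynomial σ K, MvPolynomial.aeval x P = MvPolynomial.aeval x D * f i := by
  classical
  have := Fintype.ofFinite ι
  have h1 : ∀ i, ∃ r s : MvPolynomial σ K, MvPolynomial.aeval x s ≠ 0 ∧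
      MvPolynomial.aeval x r = MvPolynomial.aeval x s * f i := by
    intro i
    obtain ⟨r, s, hrs⟩ := (IntermediateField.mem_adjoin_range_iff K x (f i)).1 (hf i)
    by_cases hs : MvPolynomial.aeval x s = 0
    · refine ⟨0, 1, ?_, ?_⟩
      · rw [map_one]
        exact one_ne_zero
      · rw [hrs, hs, div_zero, mul_zero, map_zero]
    · exact ⟨r, s, hs, by rw [hrs, mul_div_cancel₀ _ hs]⟩
  choose r s hs hrs using h1
  refine ⟨∏ i, s i, ?_, fun i => ⟨r i * ∏ j ∈ Finset.univ.erase i, s j, ?_⟩⟩
  · rw [map_prod]
    exact Finset.prod_ne_zero_iff.2 fun i _ => hs i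
  · rw [map_mul, hrs, ← Finset.mul_prod_erase Finset.univ s (Finset.mem_univ i), map_mul]
    ring

theorem exists_tb {K L : Type*} [Field K] [Field L] [Algebra K L] {N : ℕ} (u : Fin N → L) :
    ∃ s : Set (Fin N), AlgebraicIndepOn K u s ∧
      ∀ i, IsAlgebraic (Algebra.adjoin K (u '' s)) (u i) := by
  classical
  obtain ⟨s, hs⟩ := (Set.toFinite {s : Set (Fin N) | AlgebraicIndepOn K u s}).exists_maximal
    ⟨∅, by
      change AlgebraicIndependent K _
      rw [algebraicIndependent_empty_type_iff]
      exact (algebraMap K L).injective⟩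
  refine ⟨s, hs.1, fun i => ?_⟩
  by_cases hi : i ∈ s
  · exact isAlgebraic_algebraMap
      (⟨u i, Algebra.subset_adjoin ⟨i, hi, rfl⟩⟩ : Algebra.adjoin K (u '' s))
  · by_contra h
    have h2 : AlgebraicIndepOn K u (insert i s) := (AlgebraicIndepOn.insert_iff hi).2 ⟨hs.1, h⟩
    exact hi (hs.2 h2 (Set.subset_insert i s) (Set.mem_insert i s))

theorem lin_any {K L : Type} [Field K] [IsAlgClosed K] [Field L] [Algebra K L] {N : ℕ}
    (u : Fin N → L) (hu : LinearIndependent K u) :
    ∃ (k E : ℕ) (x : Fin k → L), AlgebraicIndependent K x ∧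
      ∀ r : Fin N → L, r ≠ 0 → ∑ i, r i * u i = 0 →
        ∃ P : MvPolynomial (Fin k) L, P ≠ 0 ∧ P.totalDegree ≤ E ∧
          (∀ m, P.coeff m ∈ Algebra.adjoin K (Set.range r)) ∧
            MvPolynomial.aeval x P = 0 := by
  classical
  obtain ⟨s, hs, halg0⟩ := exists_tb (K := K) u
  let k := Fintype.card s
  let eq := Fintype.equivFin s
  let x : Fin k → L := fun j => u (eq.symm j)
  have hx : AlgebraicIndependent K x := hs.comp _ eq.symm.injective
  have hrange : Set.range x = u '' s := by
    ext z
    constructor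
    · rintro ⟨j, rfl⟩
      exact ⟨_, (eq.symm j).2, rfl⟩
    · rintro ⟨i, hi, rfl⟩
      exact ⟨eq ⟨i, hi⟩, by
        change u (eq.symm (eq ⟨i, hi⟩)) = u i
        rw [Equiv.symm_apply_apply]⟩
  let F : IntermediateField K L := IntermediateField.adjoin K (Set.range x)
  have halg : ∀ i, IsIntegral F (u i) := by
    intro i
    rw [← isAlgebraic_iff_isIntegral]
    have h1 := halg0 i
    rw [← hrange] at h1
    obtain ⟨p, hp0, hp⟩ := h1
    have hle : Algebra.adjoin K (Set.range x) ≤ F.toSubalgebra :=
      IntermediateField.algebra_adjoin_le_adjoin K _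
    let ι : Algebra.adjoin K (Set.range x) →+* F := (Subalgebra.inclusion hle).toRingHom
    have hι : Function.Injective ι := Subalgebra.inclusion_injective hle
    refine ⟨p.map ι, (Polynomial.map_ne_zero_iff hι).2 hp0, ?_⟩
    rw [Polynomial.aeval_def, Polynomial.eval₂_map]
    rw [Polynomial.aeval_def] at hp
    exact hp
  let M : IntermediateField F L := IntermediateField.adjoin F (Set.range u)
  have hfd : FiniteDimensional F M := by
    have : Finite (Set.range u) := Set.finite_range u
    exact IntermediateField.finiteDimensional_adjoin (by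
      rintro _ ⟨i, rfl⟩
      exact halg i)
  let w : Fin N → M := fun i => ⟨u i, IntermediateField.subset_adjoin F _ ⟨i, rfl⟩⟩
  let n := Module.finrank F M
  let b : Module.Basis (Fin n) F M := Module.finBasis F M
  let U : Fin N → Matrix (Fin n) (Fin n) F := fun i => Algebra.leftMulMatrix b (w i)
  have hU : ∀ i c, ∑ a, (U i a c : L) * (b a : L) = u i * (b c : L) := by
    intro i c
    have h1 : w i * b c = ∑ a, (Algebra.leftMulMatrix b (w i)) a c • b a := by
      conv_lhs => rw [← b.sum_repr (w i * b c)]
      refine Finset.sum_congr rfl fun a _ => ?_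
      rw [Algebra.leftMulMatrix_eq_repr_mul]
    have h2 := congrArg (fun z : M => (z : L)) h1
    change u i * (b c : L) = _ at h2
    rw [h2]
    push_cast
    rfl
  obtain ⟨D, hD, hP⟩ := common_den x (fun p : Fin N × Fin n × Fin n => (U p.1 p.2.1 p.2.2 : L))
    (fun p => (U p.1 p.2.1 p.2.2).2)
  choose Pu hPu using hP
  let G : MvPolynomial (Fin k) (MvPolynomial (Fin N) K) :=
    Matrix.det (Matrix.of fun a c => ∑ i, MvPolynomial.C (MvPolynomial.X i : MvPolynomial (Fin N) K)
      * MvPolynomial.map MvPolynomial.C (Pu (i, a, c)))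
  let T : (Fin N → L) → MvPolynomial (Fin k) L := fun r =>
    MvPolynomial.map (MvPolynomial.aeval (R := K) r).toRingHom G
  have hT : ∀ r : Fin N → L, MvPolynomial.aeval x (T r) =
      Matrix.det (Matrix.of fun a c : Fin n => MvPolynomial.aeval x D * ∑ i, r i * (U i a c : L)) := by
    intro r
    let θ : MvPolynomial (Fin k) (MvPolynomial (Fin N) K) →+* L :=
      ((MvPolynomial.aeval (R := L) x).toRingHom).comp
        (MvPolynomial.map (MvPolynomial.aeval (R := K) r).toRingHom)
    have h1 : MvPolynomial.aeval x (T r) = θ G := rfl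
    rw [h1]
    change θ (Matrix.det _) = _
    rw [RingHom.map_det]
    congr 1
    ext a c
    rw [RingHom.mapMatrix_apply, Matrix.map_apply, Matrix.of_apply, Matrix.of_apply, map_sum,
      Finset.mul_sum]
    refine Finset.sum_congr rfl fun i _ => ?_
    rw [map_mul]
    have h2 : θ (MvPolynomial.C (MvPolynomial.X i)) = r i := by
      change MvPolynomial.aeval x (MvPolynomial.map _ (MvPolynomial.C (MvPolynomial.X i))) = _
      rw [MvPolynomial.map_C, MvPolynomial.aeval_C]
      change MvPolynomial.aeval r (MvPolynomial.X i) = _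
      rw [MvPolynomial.aeval_X]
    have h3 : θ (MvPolynomial.map MvPolynomial.C (Pu (i, a, c))) =
        MvPolynomial.aeval x (Pu (i, a, c)) := by
      change MvPolynomial.aeval x (MvPolynomial.map _ (MvPolynomial.map _ _)) = _
      rw [MvPolynomial.map_map]
      have h4 : (MvPolynomial.aeval (R := K) r).toRingHom.comp MvPolynomial.C = algebraMap K L := by
        ext c
        change MvPolynomial.aeval r (MvPolynomial.C c) = _
        rw [MvPolynomial.aeval_C]
      rw [h4, MvPolynomial.aeval_map_algebraMap]
    rw [h2, h3, hPu]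
    ring
  -- at the points of `K ^ N`
  have hK : ∀ τ : Fin N → K, (∀ m, MvPolynomial.aeval τ (G.coeff m) = 0) → τ = 0 := by
    intro τ h0
    have h1 : T (fun i => algebraMap K L (τ i)) = 0 := by
      ext m
      rw [MvPolynomial.coeff_map, MvPolynomial.coeff_zero]
      change MvPolynomial.aeval (fun i => algebraMap K L (τ i)) (G.coeff m) = 0
      have h2 := MvPolynomial.aeval_algebraMap_apply L τ (G.coeff m)
      have h3 : MvPolynomial.aeval (fun i => algebraMap K L (τ i)) (G.coeff m) =
        algebraMap K L (MvPolynomial.aeval τ (G.coeff m)) := h2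
      rw [h3, h0, map_zero]
    have h2 := hT (fun i => algebraMap K L (τ i))
    rw [h1, map_zero] at h2
    let z : M := ∑ i, algebraMap K F (τ i) • w i
    have h3 : (Matrix.of fun a c : Fin n => MvPolynomial.aeval x D *
        ∑ i, algebraMap K L (τ i) * (U i a c : L)) =
        MvPolynomial.aeval x D • (Algebra.leftMulMatrix b z).map (algebraMap F L) := by
      ext a c
      rw [Matrix.smul_apply, Matrix.map_apply, Matrix.of_apply, smul_eq_mul]
      congr 1
      have h4 : Algebra.leftMulMatrix b z = ∑ i, algebraMap K F (τ i) • U i := by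
        change Algebra.leftMulMatrix b (∑ i, algebraMap K F (τ i) • w i) = _
        rw [map_sum]
        refine Finset.sum_congr rfl fun i _ => ?_
        rw [map_smul]
      rw [h4, Matrix.sum_apply, map_sum]
      refine Finset.sum_congr rfl fun i _ => ?_
      rw [Matrix.smul_apply, smul_eq_mul, map_mul]
      rfl
    rw [h3, Matrix.det_smul, Fintype.card_fin] at h2
    have h5 : (Algebra.leftMulMatrix b z).map (algebraMap F L) =
      (algebraMap F L).mapMatrix (Algebra.leftMulMatrix b z) := rfl
    rw [h5, ← RingHom.map_det, ← Algebra.norm_eq_matrix_det] at h2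
    have h6 : algebraMap F L (Algebra.norm F z) = 0 := by
      rcases mul_eq_zero.1 h2.symm with h | h
      · exact absurd h (pow_ne_zero _ hD)
      · exact h
    have h7 : z = 0 := by
      rw [← Algebra.norm_eq_zero_iff (R := F)]
      exact (map_eq_zero_iff _ (algebraMap F L).injective).1 h6
    have h8 : ∑ i, τ i • u i = 0 := by
      have h9 := congrArg (fun z : M => (z : L)) h7
      change ((∑ i, algebraMap K F (τ i) • w i : M) : L) = 0 at h9
      rw [← h9]
      push_cast
      refine Finset.sum_congr rfl fun i _ => ?_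
      rw [Algebra.smul_def]
      rfl
    exact funext fun i => Fintype.linearIndependent_iff.1 hu τ h8 i
  -- the Nullstellensatz
  have hN : ∀ r : Fin N → L, r ≠ 0 → T r ≠ 0 := by
    intro r hr h0
    apply hr
    let I : Ideal (MvPolynomial (Fin N) K) := Ideal.span (Set.range fun m => G.coeff m)
    have h1 : MvPolynomial.zeroLocus K I ⊆ {0} := by
      intro τ hτ
      exact hK τ fun m => hτ _ (Ideal.subset_span ⟨m, rfl⟩)
    have h2 : I ≤ RingHom.ker (MvPolynomial.aeval (R := K) r) := by
      rw [Ideal.span_le]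
      rintro _ ⟨m, rfl⟩
      change MvPolynomial.aeval r (G.coeff m) = 0
      have h3 := congrArg (MvPolynomial.coeff m) h0
      rw [MvPolynomial.coeff_map, MvPolynomial.coeff_zero] at h3
      exact h3
    funext i
    have h3 : (MvPolynomial.X i : MvPolynomial (Fin N) K) ∈ I.radical := by
      rw [← MvPolynomial.vanishingIdeal_zeroLocus_eq_radical (K := K)]
      intro τ hτ
      rw [h1 hτ, MvPolynomial.aeval_X]
      rfl
    obtain ⟨q, hq⟩ := h3
    have h4 := h2 hq
    rw [RingHom.mem_ker, map_pow, MvPolynomial.aeval_X] at h4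
    by_contra h5
    exact pow_ne_zero q h5 h4
  refine ⟨k, G.totalDegree, x, hx, fun r hr hru => ⟨T r, hN r hr, ?_, ?_, ?_⟩⟩
  · exact Finset.sup_mono (MvPolynomial.support_map_subset _ _)
  · intro m
    rw [MvPolynomial.coeff_map, Algebra.adjoin_range_eq_range_aeval]
    exact ⟨_, rfl⟩
  · rw [hT, ← Matrix.exists_vecMul_eq_zero_iff]
    refine ⟨fun a => (b a : L), ?_, ?_⟩
    · intro h0
      have h1 : 0 < n := Module.finrank_pos
      have h2 := congrFun h0 ⟨0, h1⟩
      exact b.ne_zero ⟨0, h1⟩ (Subtype.ext h2)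
    · funext c
      rw [Pi.zero_apply]
      change ∑ a, (b a : L) * (MvPolynomial.aeval x D * ∑ i, r i * (U i a c : L)) = 0
      have h1 : ∀ a, (b a : L) * (MvPolynomial.aeval x D * ∑ i, r i * (U i a c : L)) =
          ∑ i, MvPolynomial.aeval x D * r i * ((U i a c : L) * (b a : L)) := by
        intro a
        rw [Finset.mul_sum, Finset.mul_sum]
        refine Finset.sum_congr rfl fun i _ => ?_
        ring
      rw [Finset.sum_congr rfl fun a _ => h1 a, Finset.sum_comm]
      have h2 : ∀ i, ∑ a, MvPolynomial.aeval x D * r i * ((U i a c : L) * (b a : L)) =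
          (MvPolynomial.aeval x D * (b c : L)) * (r i * u i) := by
        intro i
        rw [← Finset.mul_sum, hU]
        ring
      rw [Finset.sum_congr rfl fun i _ => h2 i, ← Finset.mul_sum, hru, mul_zero]

end Pool.Agent.DIk
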