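import Pool.Agent.DIk.LinA

/-! # Norms of relations, and the relation of bounded degree -/

namespace Pool.Agent.DIk

theorem totalDegree_det_le {R σ : Type*} [CommRing R] {n E : ℕ}
    (A : Matrix (Fin n) (Fin n) (MvPolynomial σ R)) (hA : ∀ i j, (A i j).totalDegree ≤ E) :
    A.det.totalDegree ≤ n * E := by
  classical
  rw [Matrix.det_apply]
  refine MvPolynomial.totalDegree_finsetSum_le fun p _ => ?_
  refine (MvPolynomial.totalDegree_smul_le _ _).trans ?_
  refine (MvPolynomial.totalDegree_finsetProd _ _).trans ?_
  refine (Finset.sum_le_sum fun i _ => hA (p i) i).trans ?_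
  rw [Finset.sum_const, Finset.card_univ, Fintype.card_fin, smul_eq_mul]

/-- a relation over a finite extension gives one over the base -/
theorem norm_down {F L C : Type*} [Field F] [Infinite F] [Field L] [Field C] [Algebra F L]
    [Algebra L C] [Algebra F C] [IsScalarTower F L C] [FiniteDimensional F L] {k E : ℕ}
    (x : Fin k → C) (P : MvPolynomial (Fin k) L) (hP0 : P ≠ 0) (hP : P.totalDegree ≤ E)
    (hx : MvPolynomial.aeval x P = 0) :
    ∃ R : MvPolynomial (Fin k) F, R ≠ 0 ∧ R.totalDegree ≤ Module.finrank F L * E ∧
      MvPolynomial.aeval x R = 0 := by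
  classical
  let n := Module.finrank F L
  let b : Module.Basis (Fin n) F L := Module.finBasis F L
  let B : L →ₐ[F] Matrix (Fin n) (Fin n) F := Algebra.leftMulMatrix b
  let A : Matrix (Fin n) (Fin n) (MvPolynomial (Fin k) F) := Matrix.of fun i j =>
    ∑ m ∈ P.support, MvPolynomial.monomial m (B (P.coeff m) i j)
  refine ⟨A.det, ?_, ?_, ?_⟩
  · -- a point where `P` does not vanish
    have h1 : ∃ c : Fin k → F, MvPolynomial.eval (fun i => algebraMap F L (c i)) P ≠ 0 := by
      by_contra h
      push Not at h
      apply hP0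
      refine MvPolynomial.funext_set (fun _ : Fin k => Set.range (algebraMap F L)) (fun i =>
        Set.infinite_range_of_injective (algebraMap F L).injective) fun z hz => ?_
      choose c hc using fun i => hz i (Set.mem_univ i)
      have h2 := h c
      have h3 : (fun i => algebraMap F L (c i)) = z := funext hc
      rw [h3] at h2
      rw [h2, map_zero]
    obtain ⟨c, hc⟩ := h1
    intro h0
    apply hc
    rw [← Algebra.norm_eq_zero_iff (R := F), Algebra.norm_eq_matrix_det b]
    have h2 := congrArg (MvPolynomial.eval c) h0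
    rw [map_zero, RingHom.map_det] at h2
    rw [← h2]
    congr 1
    ext i j
    rw [RingHom.mapMatrix_apply, Matrix.map_apply]
    change _ = MvPolynomial.eval c (∑ m ∈ P.support, MvPolynomial.monomial m (B (P.coeff m) i j))
    rw [map_sum, MvPolynomial.eval_eq']
    have h3 : Algebra.leftMulMatrix b (∑ m ∈ P.support,
        P.coeff m * ∏ i, algebraMap F L (c i) ^ m i) =
        ∑ m ∈ P.support, (∏ i, c i ^ m i) • B (P.coeff m) := by
      rw [map_sum]
      refine Finset.sum_congr rfl fun m _ => ?_
      have h4 : P.coeff m * ∏ i, algebraMap F L (c i) ^ m i = (∏ i, c i ^ m i) • P.coeff m := by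
        rw [Algebra.smul_def, map_prod, mul_comm]
        congr 1
        refine Finset.prod_congr rfl fun i _ => ?_
        rw [map_pow]
      rw [h4, map_smul]
    rw [h3, Matrix.sum_apply]
    refine Finset.sum_congr rfl fun m _ => ?_
    rw [Matrix.smul_apply, smul_eq_mul, MvPolynomial.eval_monomial, mul_comm]
    congr 1
    rw [Finsupp.prod_fintype]
    intro i
    rw [pow_zero]
  · refine totalDegree_det_le A fun i j => ?_
    refine MvPolynomial.totalDegree_finsetSum_le fun m hm => ?_
    refine (MvPolynomial.totalDegree_monomial_le _ _).trans ?_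
    refine le_trans ?_ hP
    exact MvPolynomial.le_totalDegree hm
  · have h1 : MvPolynomial.aeval x A.det = (A.map (MvPolynomial.aeval (R := F) x)).det := by
      exact AlgHom.map_det _ _
    rw [h1, ← Matrix.exists_vecMul_eq_zero_iff]
    refine ⟨fun a => algebraMap L C (b a), ?_, ?_⟩
    · intro h0
      have h1 : 0 < n := Module.finrank_pos
      have h2 := congrFun h0 ⟨0, h1⟩
      exact b.ne_zero ⟨0, h1⟩ ((map_eq_zero_iff _ (algebraMap L C).injective).1 h2)
    · funext c
      rw [Pi.zero_apply]
      change ∑ a, algebraMap L C (b a) * MvPolynomial.aeval x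
        (∑ m ∈ P.support, MvPolynomial.monomial m (B (P.coeff m) a c)) = 0
      have h2 : ∀ a, algebraMap L C (b a) * MvPolynomial.aeval x
          (∑ m ∈ P.support, MvPolynomial.monomial m (B (P.coeff m) a c)) =
          ∑ m ∈ P.support, (∏ i, x i ^ m i) * algebraMap L C ((B (P.coeff m) a c) • b a) := by
        intro a
        rw [map_sum, Finset.mul_sum]
        refine Finset.sum_congr rfl fun m _ => ?_
        rw [MvPolynomial.aeval_monomial, Algebra.smul_def, map_mul,
          ← IsScalarTower.algebraMap_apply F L C, Finsupp.prod_fintype _ _ fun i => pow_zero _]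
        ring
      rw [Finset.sum_congr rfl fun a _ => h2 a, Finset.sum_comm]
      have h3 : ∀ m ∈ P.support, ∑ a, (∏ i, x i ^ m i) *
          algebraMap L C ((B (P.coeff m) a c) • b a) =
          algebraMap L C (b c) * (algebraMap L C (P.coeff m) * ∏ i, x i ^ m i) := by
        intro m _
        rw [← Finset.mul_sum, ← map_sum]
        have h4 : ∑ a, (B (P.coeff m) a c) • b a = P.coeff m * b c := by
          conv_rhs => rw [← b.sum_repr (P.coeff m * b c)]
          refine Finset.sum_congr rfl fun a _ => ?_
          rw [Algebra.leftMulMatrix_eq_repr_mul]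
        rw [h4, map_mul]
        ring
      rw [Finset.sum_congr rfl h3, ← Finset.mul_sum]
      have h5 : ∑ m ∈ P.support, algebraMap L C (P.coeff m) * ∏ i, x i ^ m i = 0 := by
        rw [← hx, MvPolynomial.aeval_def, MvPolynomial.eval₂_eq']
      rw [h5, mul_zero]

/-- a relation over the field generated by `y` -/
theorem sxl_of_adjoin {K C : Type} [Field K] [Field C] [Algebra K C] {k e : ℕ} (x : Fin k → C)
    (y : C) (P : MvPolynomial (Fin k) (IntermediateField.adjoin K {y})) (hP0 : P ≠ 0)
    (hP : P.totalDegree ≤ e) (hx : MvPolynomial.aeval x P = 0) : DIk.SXL K e x y := by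
  classical
  obtain ⟨D, hD, hR⟩ := common_den (K := K) (fun _ : Unit => y)
    (fun m : P.support => ((P.coeff m : IntermediateField.adjoin K {y}) : C)) (fun m => by
      have h1 : Set.range (fun _ : Unit => y) = {y} := Set.range_const
      rw [h1]
      exact (P.coeff m).2)
  have hR' : ∀ m : P.support, ∃ p : Polynomial K, Polynomial.aeval y p =
      MvPolynomial.aeval (fun _ : Unit => y) D * ((P.coeff m : IntermediateField.adjoin K {y}) : C) := by
    intro m
    obtain ⟨q, hq⟩ := hR m
    refine ⟨MvPolynomial.aeval (fun _ : Unit => (Polynomial.X : Polynomial K)) q, ?_⟩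
    rw [← hq]
    have h1 : (Polynomial.aeval y).comp
        (MvPolynomial.aeval (fun _ : Unit => (Polynomial.X : Polynomial K))) =
        MvPolynomial.aeval (R := K) (fun _ : Unit => y) := by
      ext i
      rw [AlgHom.comp_apply, MvPolynomial.aeval_X, MvPolynomial.aeval_X, Polynomial.aeval_X]
    exact congrArg (fun f => f q) h1
  choose p hp using hR'
  let R : Polynomial (MvPolynomial (Fin k) K) :=
    ∑ m : P.support, (p m).map MvPolynomial.C * Polynomial.C (MvPolynomial.monomial m.1 1)
  have hRc : ∀ j, R.coeff j = ∑ m : P.support, MvPolynomial.monomial m.1 ((p m).coeff j) := by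
    intro j
    change (∑ m : P.support, (p m).map MvPolynomial.C *
      Polynomial.C (MvPolynomial.monomial m.1 1)).coeff j = _
    rw [Polynomial.finsetSum_coeff]
    refine Finset.sum_congr rfl fun m _ => ?_
    rw [Polynomial.coeff_mul_C, Polynomial.coeff_map, MvPolynomial.C_mul_monomial, mul_one]
  refine ⟨R, ?_, ?_, ?_⟩
  · obtain ⟨m0, hm0⟩ := MvPolynomial.ne_zero_iff.1 hP0
    have hm0s : m0 ∈ P.support := MvPolynomial.mem_support_iff.2 hm0
    have h1 : p ⟨m0, hm0s⟩ ≠ 0 := by
      intro h
      have h2 := hp ⟨m0, hm0s⟩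
      rw [h, map_zero] at h2
      rcases mul_eq_zero.1 h2.symm with h3 | h3
      · exact hD h3
      · exact hm0 (Subtype.ext h3)
    obtain ⟨j, hj⟩ : ∃ j, (p ⟨m0, hm0s⟩).coeff j ≠ 0 := by
      by_contra h
      push Not at h
      exact h1 (Polynomial.ext h)
    intro h0
    have h2 := congrArg (MvPolynomial.coeff m0) ((hRc j).symm.trans (by rw [h0, Polynomial.coeff_zero]))
    rw [MvPolynomial.coeff_sum, MvPolynomial.coeff_zero,
      Finset.sum_eq_single (⟨m0, hm0s⟩ : P.support)] at h2
    · rw [MvPolynomial.coeff_monomial, if_pos rfl] at h2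
      exact hj h2
    · intro m _ hm
      rw [MvPolynomial.coeff_monomial, if_neg]
      intro h
      exact hm (Subtype.ext h)
    · intro h
      exact absurd (Finset.mem_univ _) h
  · intro j
    rw [hRc]
    refine MvPolynomial.totalDegree_finsetSum_le fun m _ => ?_
    refine (MvPolynomial.totalDegree_monomial_le _ _).trans ?_
    exact le_trans (MvPolynomial.le_totalDegree m.2) hP
  · change Polynomial.eval₂ _ y (∑ m : P.support, (p m).map MvPolynomial.C *
      Polynomial.C (MvPolynomial.monomial m.1 1)) = 0
    rw [Polynomial.eval₂_finsetSum]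
    have h1 : ∀ m : P.support, Polynomial.eval₂ (MvPolynomial.aeval (R := K) x).toRingHom y
        ((p m).map MvPolynomial.C * Polynomial.C (MvPolynomial.monomial m.1 1)) =
        MvPolynomial.aeval (fun _ : Unit => y) D *
          (((P.coeff m : IntermediateField.adjoin K {y}) : C) * ∏ i, x i ^ m.1 i) := by
      intro m
      rw [Polynomial.eval₂_mul, Polynomial.eval₂_C, Polynomial.eval₂_map]
      have h2 : (MvPolynomial.aeval (R := K) x).toRingHom.comp MvPolynomial.C = algebraMap K C := by
        ext c
        change MvPolynomial.aeval x (MvPolynomial.C c) = _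
        rw [MvPolynomial.aeval_C]
      rw [h2, ← Polynomial.aeval_def, hp, ← mul_assoc]
      congr 1
      change MvPolynomial.aeval x (MvPolynomial.monomial m.1 1) = _
      rw [MvPolynomial.aeval_monomial, map_one, one_mul, Finsupp.prod_fintype _ _ fun i => pow_zero _]
    rw [Finset.sum_congr rfl fun m _ => h1 m, ← Finset.mul_sum]
    have h2 : ∑ m : P.support, ((P.coeff m : IntermediateField.adjoin K {y}) : C) *
        ∏ i, x i ^ m.1 i = 0 := by
      rw [← hx, MvPolynomial.aeval_def, MvPolynomial.eval₂_eq']
      exact Finset.sum_coe_sort P.support (fun m => ((P.coeff m : IntermediateField.adjoin K {y}) : C) *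
        ∏ i, x i ^ m i)
    rw [h2, mul_zero]

end Pool.Agent.DIk
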