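import Pool.Agent.DIk.LinB

/-! # Linear independence over the extensions of bounded degree of the field generated by `y` -/

namespace Pool.Agent.DIk

theorem exists_transcendental : ∃ z : ℂ, Transcendental ℚ z := by
  have h1 := transcendental_liouvilleNumber (m := 2) le_rfl
  refine ⟨((liouvilleNumber 2 : ℝ) : ℂ), fun h => h1 ?_⟩
  have h2 : IsAlgebraic ℚ (liouvilleNumber (2 : ℕ) : ℝ) := by
    have h3 : IsAlgebraic ℚ (algebraMap ℝ ℂ (liouvilleNumber (2 : ℕ) : ℝ)) := by
      exact_mod_cast h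
    exact (isAlgebraic_algebraMap_iff (algebraMap ℝ ℂ).injective).1 h3
  exact (IsFractionRing.isAlgebraic_iff ℤ ℚ ℝ).2 h2

theorem lin_ext {N : ℕ} (u : Fin N → ℂ)
    (hu : LinearIndependent (algebraicClosure ℚ ℂ) u) (e : ℕ) :
    ∃ (k E : ℕ) (x : Fin k → ℂ), 0 < k ∧ AlgebraicIndependent ℚ x ∧
      ∀ y, (∃ L : IntermediateField (IntermediateField.adjoin (algebraicClosure ℚ ℂ) {y}) ℂ,
        FiniteDimensional (IntermediateField.adjoin (algebraicClosure ℚ ℂ) {y}) L ∧
        Module.finrank (IntermediateField.adjoin (algebraicClosure ℚ ℂ) {y}) L ≤ e ∧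
          ¬ LinearIndependent L u) → RT E x y := by
  classical
  have hKcl : IsAlgClosed (algebraicClosure ℚ ℂ) :=
    (algebraicClosure.isAlgClosure ℚ ℂ).isAlgClosed
  obtain ⟨k, E, x, hx, key⟩ := lin_any u hu
  have hxQ : AlgebraicIndependent ℚ x :=
    AlgebraicIndependent.restrictScalars (R := ℚ) (K := algebraicClosure ℚ ℂ)
      (algebraMap ℚ (algebraicClosure ℚ ℂ)).injective hx
  have main : ∀ y : ℂ, (∃ L : IntermediateField (IntermediateField.adjoin (algebraicClosure ℚ ℂ) {y}) ℂ,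
      FiniteDimensional (IntermediateField.adjoin (algebraicClosure ℚ ℂ) {y}) L ∧
      Module.finrank (IntermediateField.adjoin (algebraicClosure ℚ ℂ) {y}) L ≤ e ∧
        ¬ LinearIndependent L u) → ∃ L : IntermediateField
          (IntermediateField.adjoin (algebraicClosure ℚ ℂ) {y}) ℂ,
        FiniteDimensional (IntermediateField.adjoin (algebraicClosure ℚ ℂ) {y}) L ∧
        Module.finrank (IntermediateField.adjoin (algebraicClosure ℚ ℂ) {y}) L ≤ e ∧
        ∃ P : MvPolynomial (Fin k) L, P ≠ 0 ∧ P.totalDegree ≤ E ∧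
          MvPolynomial.aeval x P = 0 := by
    rintro y ⟨L, hfd, hLe, hL⟩
    refine ⟨L, hfd, hLe, ?_⟩
    rw [Fintype.not_linearIndependent_iff] at hL
    obtain ⟨g, hg, i0, hi0⟩ := hL
    obtain ⟨P, hP0, hPE, hPc, hPx⟩ := key (fun i => (g i : ℂ)) (fun h => hi0
      (Subtype.ext (congrFun h i0))) (by
        rw [← hg]
        exact Finset.sum_congr rfl fun i _ => rfl)
    have hmem : ∀ m, P.coeff m ∈ L := by
      intro m
      have h1 : Algebra.adjoin (algebraicClosure ℚ ℂ) (Set.range fun i => (g i : ℂ)) ≤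
          (L.restrictScalars (algebraicClosure ℚ ℂ)).toSubalgebra := by
        rw [Algebra.adjoin_le_iff]
        rintro _ ⟨i, rfl⟩
        exact (g i).2
      exact h1 (hPc m)
    have hrange : ∃ P' : MvPolynomial (Fin k) L, MvPolynomial.map (algebraMap L ℂ) P' = P := by
      refine ⟨∑ m ∈ P.support, MvPolynomial.monomial m ⟨P.coeff m, hmem m⟩, ?_⟩
      rw [map_sum]
      conv_rhs => rw [P.as_sum]
      refine Finset.sum_congr rfl fun m _ => ?_
      rw [MvPolynomial.map_monomial]
      rfl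
    obtain ⟨P', rfl⟩ := hrange
    have hinj := (algebraMap L ℂ).injective
    refine ⟨P', ?_, ?_, ?_⟩
    · rintro rfl
      exact hP0 (map_zero _)
    · rw [MvPolynomial.totalDegree] at hPE ⊢
      rwa [MvPolynomial.support_map_of_injective _ hinj] at hPE
    · rw [← hPx, MvPolynomial.aeval_map_algebraMap]
  rcases Nat.eq_zero_or_pos k with rfl | hk
  · obtain ⟨z, hz⟩ := exists_transcendental
    refine ⟨1, 0, fun _ => z, one_pos, (algebraicIndependent_unique_type_iff).2 hz, ?_⟩
    intro y hy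
    obtain ⟨L, -, -, P, hP0, -, hPx⟩ := main y hy
    exfalso
    apply hP0
    obtain ⟨c, rfl⟩ := MvPolynomial.C_surjective (Fin 0) P
    rw [MvPolynomial.aeval_C] at hPx
    rw [(map_eq_zero_iff _ (algebraMap L ℂ).injective).1 hPx, map_zero]
  · refine ⟨k, e * E, x, hk, hxQ, fun y hy => ?_⟩
    obtain ⟨L, hfd, hLe, P, hP0, hPE, hPx⟩ := main y hy
    have hinf : Infinite (IntermediateField.adjoin (algebraicClosure ℚ ℂ) {y}) :=
      Infinite.of_injective _ (algebraMap (algebraicClosure ℚ ℂ)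
        (IntermediateField.adjoin (algebraicClosure ℚ ℂ) {y})).injective
    obtain ⟨R, hR0, hRE, hRx⟩ := norm_down
      (F := IntermediateField.adjoin (algebraicClosure ℚ ℂ) {y}) x P hP0 hPE hPx
    exact rt_of_sxl (sxl_of_adjoin x y R hR0 (hRE.trans (Nat.mul_le_mul_right E hLe)) hRx)

end Pool.Agent.DIk
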