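import Pool.Agent.DIk.SubsF
import Pool.Agent.QR.MainE
import Pool.Agent.BKR.Baker

/-! # Subset sums of exponential and of elliptic logarithms -/

namespace Pool.Agent.DIk

open Module Submodule Pool.Agent.DI

/-- `F = ℚ` and all `exp (t i)` are algebraic; or, for a lattice `Ω = ℤ ω₁ + ℤ ω₂` with algebraic
invariants `g₂, g₃`, `F` is the field of the `c` with `c Ω ⊂ ℚ Ω`, and each `t i` is in `Ω` or
`℘ (t i)` is algebraic. (The text of `AnyDegree`.) -/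
def IsLogs (F : Subfield ℂ) {r : ℕ} (t : Fin r → ℂ) : Prop :=
  ((∀ c : ℂ, c ∈ F ↔ ∃ q : ℚ, c = q) ∧ ∀ i, IsAlgebraic ℚ (Complex.exp (t i))) ∨
    ∃ ω₁ ω₂ : ℂ, (ω₂ / ω₁).im ≠ 0 ∧
      IsAlgebraic ℚ (60 * ∑' q : ℤ × ℤ,
        if q = 0 then (0 : ℂ) else 1 / ((q.1 : ℂ) * ω₁ + (q.2 : ℂ) * ω₂) ^ 4) ∧
      IsAlgebraic ℚ (140 * ∑' q : ℤ × ℤ,
        if q = 0 then (0 : ℂ) else 1 / ((q.1 : ℂ) * ω₁ + (q.2 : ℂ) * ω₂) ^ 6) ∧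
      (∀ c : ℂ, c ∈ F ↔ ∃ a b a' b' : ℚ,
        c * ω₁ = (a : ℂ) * ω₁ + (b : ℂ) * ω₂ ∧ c * ω₂ = (a' : ℂ) * ω₁ + (b' : ℂ) * ω₂) ∧
      ∀ i, (∃ a b : ℤ, t i = (a : ℂ) * ω₁ + (b : ℂ) * ω₂) ∨
        IsAlgebraic ℚ (1 / t i ^ 2 + ∑' q : ℤ × ℤ,
          if q = 0 then (0 : ℂ) else
            (1 / (t i - ((q.1 : ℂ) * ω₁ + (q.2 : ℂ) * ω₂)) ^ 2
              - 1 / ((q.1 : ℂ) * ω₁ + (q.2 : ℂ) * ω₂) ^ 2))

theorem IsLogs.facts {F : Subfield ℂ} {r : ℕ} {t : Fin r → ℂ} (h : IsLogs F t) :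
    (∀ c ∈ F, IsAlgebraic ℚ c) ∧
      Pool.Agent.QR.Free (algebraicClosure ℚ ℂ) (span F (Set.range t)) := by
  rcases h with ⟨hF, he⟩ | ⟨ω₁, ω₂, him, hg2, hg3, hF, he⟩
  · exact ⟨fun c hc => by
      obtain ⟨q, rfl⟩ := (hF c).1 hc
      exact isAlgebraic_ratCast ℚ q,
      Pool.Agent.QR.free_logF (fun _ _ t ht he b b0 hb hb0 h =>
        Pool.Agent.BKR.baker t ht he b b0 hb hb0 h) F hF he⟩
  · obtain ⟨L, rfl, rfl⟩ := Pool.Agent.ZCM.exists_periodPair ω₁ ω₂ him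
    have hg2' : IsAlgebraic ℚ L.g₂ := by rw [Pool.Agent.ZCM.g₂_eq_tsum]; exact hg2
    have hg3' : IsAlgebraic ℚ L.g₃ := by rw [Pool.Agent.ZCM.g₃_eq_tsum]; exact hg3
    have hF' : ∀ c, c ∈ F ↔ c ∈ Pool.Agent.EBM.EndF L := fun c =>
      (hF c).trans (Pool.Agent.QR.endF_iff L c).symm
    have hp : ∀ i, t i ∈ Pool.Agent.EBM.ELog L := fun i => by
      rcases he i with ⟨a, b, hab⟩ | h
      · exact Or.inl (PeriodPair.mem_lattice.2 ⟨a, b, hab.symm⟩)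
      · exact Or.inr (by rw [Pool.Agent.CHU.P_eq_tsum]; exact h)
    exact ⟨fun c hc => Pool.Agent.EBM.endF_alg L ((hF' c).1 hc),
      Pool.Agent.QR.free_ell L hg2' hg3' F hF' hp⟩

/-- subset sums of logarithms -/
theorem subsetsL (k e : ℕ) (hk : 0 < k) : ∃ (n : ℕ) (C c : ℝ), 0 < n ∧ 0 < C ∧ 0 < c ∧ c ≤ 1 ∧
    ∀ (F : Subfield ℂ) (N : ℕ) (t : ℂ) (l : Fin N → ℂ), 0 < N →
      IsLogs F (Fin.cons t l : Fin (N + 1) → ℂ) → LinearIndependent F l →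
      ∀ x : Fin k → ℂ, AlgebraicIndependent ℚ x →
      ({A : Finset (Fin N) | A.card = n ∧ RX e x (t + ∑ i ∈ A, l i)}.ncard : ℝ) ≤
        C * (N : ℝ) ^ ((n : ℝ) - c) := by
  obtain ⟨n, C, c, hn, hC, hc, hc1, h⟩ := subsetsF k e hk
  exact ⟨n, C, c, hn, hC, hc, hc1, fun F N t l hN hl hi x hx =>
    h F hl.facts.1 x hx N t l hN hl.facts.2 hi⟩

end Pool.Agent.DIk
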