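import Pool.Agent.DIk.Val
import Pool.Agent.DI.OrbV

/-! # Conjugates with a pole -/

namespace Pool.Agent.DIk

open Pool.Agent.QN Pool.Agent.QS Pool.Agent.DI

variable {K Q M Γ : Type} [Field K] [Field Q] [Field M] [Algebra K Q] [Algebra K M] [Algebra Q M]
  [IsScalarTower K Q M] [LinearOrderedCommGroupWithZero Γ] {v : Valuation M Γ} {π : Γ}
  {r : M → ℂ}
  [Infinite K] [FiniteDimensional Q M] [IsGalois Q M]

/-- an invariant function takes at most `e` values on the poles -/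
theorem values_le (h : Plc K Q v π r) {e : ℕ} {y : M} (hy : PB Q v π e y) {β : Type} (f : M → β)
    (hf : ∀ g : M ≃ₐ[Q] M, In Q v g → ∀ z, f (g z) = f z) :
    (f '' {η : M | η ∈ conjs Q y ∧ 1 < v η}).ncard ≤ e := by
  classical
  set S : Finset M := (conjs Q y).filter fun η => 1 < v η with hSdef
  have hset : {η : M | η ∈ conjs Q y ∧ 1 < v η} = (S : Set M) := by
    ext η
    simp [hSdef]
  rw [hset, ← Finset.coe_image, Set.ncard_coe_finset]
  set T : Finset β := S.image f with hTdef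
  have hπ : 0 < π := h.disc.pos
  have hπ1 : π < 1 := h.disc.lt
  have hfib : ∀ b ∈ T, 1 ≤ v (∏ η ∈ S.filter (fun η => f η = b), η) * π := by
    intro b hb
    refine h.fix _ (fun g hg => OrbV.prod_fix _ g fun η hη => ?_) ?_
    · obtain ⟨h1, h2⟩ := Finset.mem_filter.1 hη
      obtain ⟨h3, h4⟩ := Finset.mem_filter.1 h1
      refine Finset.mem_filter.2 ⟨Finset.mem_filter.2 ⟨OrbV.conj_mem h3 g, ?_⟩, ?_⟩
      · rw [hg.1]
        exact h4
      · rw [hf g hg]
        exact h2
    · obtain ⟨η, hη, rfl⟩ := Finset.mem_image.1 hb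
      rw [map_prod]
      have hmem : η ∈ S.filter (fun η' => f η' = f η) := Finset.mem_filter.2 ⟨hη, rfl⟩
      rw [← Finset.mul_prod_erase _ _ hmem]
      have h1 : 1 < v η := (Finset.mem_filter.1 hη).2
      have h2 : 1 ≤ ∏ x ∈ (S.filter (fun η' => f η' = f η)).erase η, v x :=
        Finset.one_le_prod' fun x hx =>
          (Finset.mem_filter.1 (Finset.mem_filter.1 (Finset.mem_of_mem_erase hx)).1).2.le
      exact lt_mul_of_lt_of_one_le h1 h2
  have hprod : 1 ≤ (∏ η ∈ S, v η) * π ^ T.card := by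
    have h1 : 1 ≤ ∏ b ∈ T, (v (∏ η ∈ S.filter (fun η => f η = b), η) * π) :=
      Finset.one_le_prod' hfib
    rw [Finset.prod_mul_distrib, Finset.prod_const] at h1
    have h2 : ∏ b ∈ T, v (∏ η ∈ S.filter (fun η => f η = b), η) = ∏ η ∈ S, v η := by
      simp only [map_prod]
      exact Finset.prod_fiberwise_of_maps_to (fun x hx => Finset.mem_image_of_mem f hx) _
    rwa [h2] at h1
  have hPB : (∏ η ∈ S, v η) * π ^ e ≤ 1 := by
    have h1 : ∏ η ∈ conjs Q y, max 1 (v η) = ∏ η ∈ S, v η := by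
      rw [hSdef, Finset.prod_filter]
      refine Finset.prod_congr rfl fun η _ => ?_
      split_ifs with h2
      · exact max_eq_right h2.le
      · exact max_eq_left (not_lt.1 h2)
    have h2 := hy
    rw [PB, h1] at h2
    exact h2
  by_contra hcon
  have hlt : e < T.card := not_le.1 hcon
  have hP : (∏ η ∈ S, v η) ≠ 0 := by
    intro h0
    rw [h0, zero_mul] at hprod
    exact absurd hprod (not_le.2 zero_lt_one)
  have h3 : π ^ T.card < π ^ e := pow_lt_pow_right_of_lt_one₀ hπ hπ1 hlt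
  have h4 : (∏ η ∈ S, v η) * π ^ T.card < (∏ η ∈ S, v η) * π ^ e :=
    mul_lt_mul_of_pos_left h3 (zero_lt_iff.2 hP)
  exact absurd (hprod.trans_lt (h4.trans_le hPB)) (lt_irrefl _)

/-- the number of absolute values of the leading coefficients -/
theorem abs_le (h : Plc K Q v π r) {e : ℕ} {y : M} (hy : PB Q v π e y) {z0 : M}
    (hz0 : 1 < v z0) :
    ((fun η => ‖lam r z0 η‖) '' {η : M | η ∈ conjs Q y}).ncard ≤ e + 1 := by
  have hne : z0 ≠ 0 := by
    rintro rfl
    rw [map_zero] at hz0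
    exact absurd hz0 (not_lt.2 zero_le_one)
  have hf : ∀ g : M ≃ₐ[Q] M, In Q v g → ∀ z,
      ‖lam r z0 (g z)‖ = ‖lam r z0 z‖ := by
    intro g hg z
    obtain ⟨n, hn, h1⟩ := chi_pow h hne g hg
    rw [lam_smul h hne g hg, norm_mul]
    have h2 : ‖lam r z0 (g z0)‖ ^ n = 1 := by
      rw [← norm_pow, h1, norm_one]
    rw [(pow_eq_one_iff_of_nonneg (norm_nonneg _) hn.ne').1 h2, one_mul]
  have h1 := values_le h hy (fun η => ‖lam r z0 η‖) hf
  have hsub : (fun η => ‖lam r z0 η‖) '' {η : M | η ∈ conjs Q y} ⊆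
      insert 0 ((fun η => ‖lam r z0 η‖) '' {η : M | η ∈ conjs Q y ∧ 1 < v η}) := by
    rintro _ ⟨η, hη, rfl⟩
    by_cases h2 : 1 < v η
    · exact Set.mem_insert_of_mem _ ⟨η, ⟨hη, h2⟩, rfl⟩
    · refine Set.mem_insert_iff.2 (Or.inl ?_)
      have h3 : lam r z0 η = 0 := lam_small h hne ((not_lt.1 h2).trans_lt hz0)
      show ‖lam r z0 η‖ = 0
      rw [h3, norm_zero]
  have hfin : ((fun η => ‖lam r z0 η‖) '' {η : M | η ∈ conjs Q y ∧ 1 < v η}).Finite :=
    (((conjs Q y).finite_toSet).subset fun η hη => hη.1).image _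
  refine (Set.ncard_le_ncard hsub (hfin.insert 0)).trans ((Set.ncard_insert_le _ _).trans ?_)
  exact Nat.add_le_add_right h1 1

end Pool.Agent.DIk
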