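import Pool.Agent.DIk.Defs
import Pool.Agent.DI.End

/-! # The model of the structure theorem for `k` numbers, and its relations -/

namespace Pool.Agent.DIk

open Pool.Agent.QN Pool.Agent.QS Pool.Agent.DI

/-- as `exists_model`, with the values on `K[X]` -/
theorem exists_model2 {K L : Type} [Field K] [CharZero K] [Field L] [IsAlgClosed L]
    [Algebra K L] {k : ℕ} (x : Fin k → L) (hx : AlgebraicIndependent K x) (Y : Set L) (hYf : Y.Finite)
    (hY : ∀ y ∈ Y, ∃ e, DIk.SXL K e x y) :
    ∃ (M : Type) (_ : Field M) (_ : Algebra K M) (_ : Algebra (A K k) M) (_ : Algebra (Q K k) M)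
      (_ : IsScalarTower (A K k) (Q K k) M) (_ : IsScalarTower K (A K k) M)
      (_ : IsScalarTower K (Q K k) M) (_ : FiniteDimensional (Q K k) M) (_ : IsGalois (Q K k) M)
      (φ : M →ₐ[K] L), (∀ y ∈ Y, ∃ u, φ u = y) ∧
        (∀ (e : ℕ) (u : M), DIk.SXL K e x (φ u) → DIk.SX K k e u) ∧
        ∀ (e : ℕ) (u : M), DIk.SX K k e u → DIk.SXL K e x (φ u) := by
  classical
  let ev : A K k →+* L := (MvPolynomial.aeval (R := K) x).toRingHom
  have hevC : ∀ c : K, ev (algebraMap K (A K k) c) = algebraMap K L c := fun c =>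
    (MvPolynomial.aeval (R := K) x).commutes c
  have hev : Function.Injective ev := hx
  let ψ : Q K k →+* L := IsFractionRing.lift (K := Q K k) hev
  have hψ : ∀ f : A K k, ψ (algebraMap (A K k) (Q K k) f) = ev f := fun f =>
    IsFractionRing.lift_algebraMap hev f
  let algQ : Algebra (Q K k) L := ψ.toAlgebra
  have hQL : ∀ q : Q K k, algebraMap (Q K k) L q = ψ q := fun _ => rfl
  -- the elements of `Y` are algebraic
  have halg : ∀ y ∈ Y, IsIntegral (Q K k) y := by
    intro y hy
    obtain ⟨e, R, hR, -, h0⟩ := hY y hy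
    rw [← isAlgebraic_iff_isIntegral]
    refine ⟨R.map (algebraMap (A K k) (Q K k)), ?_, ?_⟩
    · rwa [Ne, Polynomial.map_eq_zero_iff (IsFractionRing.injective (A K k) (Q K k))]
    · rw [Polynomial.aeval_def, Polynomial.eval₂_map]
      have h1 : (algebraMap (Q K k) L).comp (algebraMap (A K k) (Q K k)) = ev :=
        RingHom.ext fun f => hψ f
      rw [h1]
      exact h0
  let p : Polynomial (Q K k) := ∏ y ∈ hYf.toFinset, minpoly (Q K k) y
  have hp0 : p ≠ 0 := Finset.prod_ne_zero_iff.2 fun y hy =>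
    minpoly.ne_zero (halg y (hYf.mem_toFinset.1 hy))
  let M : IntermediateField (Q K k) L := IntermediateField.adjoin (Q K k) (p.rootSet L)
  have hsp : p.IsSplittingField (Q K k) M :=
    IntermediateField.adjoin_rootSet_isSplittingField (IsAlgClosed.splits _)
  have hfd : FiniteDimensional (Q K k) M := Polynomial.IsSplittingField.finiteDimensional M p
  have hnm : Normal (Q K k) M := Normal.of_isSplittingField p
  have hch : CharZero (Q K k) := by
    have h1 : Function.Injective (algebraMap K (Q K k)) := (algebraMap K (Q K k)).injective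
    exact charZero_of_injective_algebraMap h1
  have hgal : IsGalois (Q K k) M := ⟨⟩
  let aA : Algebra (A K k) M := ((algebraMap (Q K k) M).comp (algebraMap (A K k) (Q K k))).toAlgebra
  let aK : Algebra K M := ((algebraMap (Q K k) M).comp (algebraMap K (Q K k))).toAlgebra
  have t1 : IsScalarTower (A K k) (Q K k) M := IsScalarTower.of_algebraMap_eq fun _ => rfl
  have t3 : IsScalarTower K (Q K k) M := IsScalarTower.of_algebraMap_eq fun _ => rfl
  have t2 : IsScalarTower K (A K k) M := IsScalarTower.of_algebraMap_eq fun c => by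
    change algebraMap (Q K k) M (algebraMap K (Q K k) c) =
      algebraMap (Q K k) M (algebraMap (A K k) (Q K k) (algebraMap K (A K k) c))
    rw [← IsScalarTower.algebraMap_apply K (A K k) (Q K k)]
  have hM : ∀ f : A K k, M.val (algebraMap (A K k) M f) = ev f := by
    intro f
    change M.val (algebraMap (Q K k) M (algebraMap (A K k) (Q K k) f)) = _
    rw [M.val.commutes, hQL, hψ]
  let φ : M →ₐ[K] L :=
    { M.val.toRingHom with
      commutes' := fun c => by
        change M.val (algebraMap K M c) = algebraMap K L c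
        rw [IsScalarTower.algebraMap_apply K (A K k) M, hM, hevC] }
  have hφ : ∀ u : M, φ u = (u : L) := fun _ => rfl
  have hc : (M.val.toRingHom : M →+* L).comp (algebraMap (A K k) M) = ev := RingHom.ext hM
  refine ⟨M, inferInstance, aK, aA, inferInstance, t1, t2, t3, hfd, hgal, φ, ?_, ?_, ?_⟩
  · intro y hy
    have h1 : y ∈ M := by
      refine IntermediateField.subset_adjoin _ _ ?_
      rw [Polynomial.mem_rootSet]
      refine ⟨hp0, ?_⟩
      rw [map_prod]
      exact Finset.prod_eq_zero (hYf.mem_toFinset.2 hy) (minpoly.aeval _ _)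
    exact ⟨⟨y, h1⟩, rfl⟩
  · rintro e u ⟨R, hR, hdeg, h0⟩
    refine ⟨R, hR, hdeg, ?_⟩
    have hinj : Function.Injective M.val := M.val.toRingHom.injective
    apply hinj
    rw [map_zero, Polynomial.aeval_def]
    have h1 : (M.val.toRingHom : M →+* L).comp (algebraMap (A K k) M) = ev := RingHom.ext hM
    have h2 := Polynomial.hom_eval₂ R (algebraMap (A K k) M) M.val.toRingHom u
    rw [h1] at h2
    exact h2.trans h0
  · rintro e u ⟨R, hR, hdeg, h0⟩
    refine ⟨R, hR, hdeg, ?_⟩
    have h2 := Polynomial.hom_eval₂ R (algebraMap (A K k) M) M.val.toRingHom u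
    rw [hc] at h2
    refine h2.symm.trans ?_
    rw [← Polynomial.aeval_def, h0, map_zero]

/-- a relation over the algebraic numbers of total degree `≤ e` in the `x i` -/
def RT (e : ℕ) {k : ℕ} (x : Fin k → ℂ) (y : ℂ) : Prop :=
  ∃ P : MvPolynomial (Fin (k + 1)) ℂ, P ≠ 0 ∧ (∀ m ∈ P.support, ∑ i : Fin k, m i.succ ≤ e) ∧
    (∀ m, IsAlgebraic ℚ (P.coeff m)) ∧
      MvPolynomial.eval (Fin.cons y x : Fin (k + 1) → ℂ) P = 0

theorem sxl_of_rt {e k : ℕ} {x : Fin k → ℂ} {y : ℂ} (h : RT e x y) :
    DIk.SXL (algebraicClosure ℚ ℂ) e x y := by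
  obtain ⟨P, hP0, hPd, hPa, hPe⟩ := h
  obtain ⟨P', rfl⟩ := End_lift P hPa
  have hinj : Function.Injective (algebraMap (algebraicClosure ℚ ℂ) ℂ) :=
    FaithfulSMul.algebraMap_injective _ _
  have hP'0 : P' ≠ 0 := by
    rintro rfl
    exact hP0 (map_zero _)
  refine ⟨MvPolynomial.finSuccEquiv (algebraicClosure ℚ ℂ) k P', ?_, fun j => ?_, ?_⟩
  · rwa [Ne, EmbeddingLike.map_eq_zero_iff]
  · rw [MvPolynomial.totalDegree]
    refine Finset.sup_le fun m hm => ?_
    rw [MvPolynomial.mem_support_coeff_finSuccEquiv] at hm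
    rw [Finsupp.sum_fintype _ _ fun _ => rfl]
    have h1 := hPd (m.cons j) (by
      rw [MvPolynomial.support_map_of_injective P' hinj]
      exact hm)
    simpa [Finsupp.cons_succ] using h1
  · rw [← aeval_cons_L, ← hPe, MvPolynomial.eval_map, MvPolynomial.aeval_def]

theorem rt_of_sxl {e k : ℕ} {x : Fin k → ℂ} {y : ℂ}
    (h : DIk.SXL (algebraicClosure ℚ ℂ) e x y) : RT e x y := by
  obtain ⟨R, hR0, hRd, hR⟩ := h
  have hinj : Function.Injective (algebraMap (algebraicClosure ℚ ℂ) ℂ) :=
    FaithfulSMul.algebraMap_injective _ _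
  set P' : MvPolynomial (Fin (k + 1)) (algebraicClosure ℚ ℂ) :=
    (MvPolynomial.finSuccEquiv (algebraicClosure ℚ ℂ) k).symm R with hP'
  have hP'0 : P' ≠ 0 := by
    rw [hP', Ne, EmbeddingLike.map_eq_zero_iff]
    exact hR0
  refine ⟨MvPolynomial.map (algebraMap (algebraicClosure ℚ ℂ) ℂ) P', ?_, ?_, ?_, ?_⟩
  · intro h0
    exact hP'0 (MvPolynomial.map_injective _ hinj (by rw [h0, map_zero]))
  · intro m hm
    rw [MvPolynomial.support_map_of_injective P' hinj] at hm
    have h1 : (R.coeff (m 0)).coeff (Finsupp.tail m) ≠ 0 := by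
      have h2 := MvPolynomial.finSuccEquiv_coeff_coeff (Finsupp.tail m) P' (m 0)
      rw [hP', AlgEquiv.apply_symm_apply, Finsupp.cons_tail] at h2
      rw [h2]
      exact MvPolynomial.mem_support_iff.1 hm
    have h3 := MvPolynomial.le_totalDegree (MvPolynomial.mem_support_iff.2 h1)
    refine le_trans ?_ (h3.trans (hRd _))
    rw [Finsupp.sum_fintype _ _ fun _ => rfl]
    simp [Finsupp.tail_apply]
  · intro m
    rw [MvPolynomial.coeff_map]
    exact mem_algebraicClosure_iff.1 (Subtype.property _)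
  · rw [MvPolynomial.eval_map, ← MvPolynomial.aeval_def, aeval_cons_L, hP',
      AlgEquiv.apply_symm_apply]
    exact hR

/-- the elements algebraic over `K(x)` -/
theorem sxl_iff {K L : Type} [Field K] [Field L] [Algebra K L] {k : ℕ} {x : Fin k → L} (y : L) :
    (∃ e, DIk.SXL K e x y) ↔
      @IsAlgebraic (A K k) L _ _ (MvPolynomial.aeval (R := K) x).toRingHom.toAlgebra
        y := by
  let φ : A K k →+* L := (MvPolynomial.aeval (R := K) x).toRingHom
  let _ : Algebra (A K k) L := φ.toAlgebra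
  constructor
  · rintro ⟨e, R, hR, -, h⟩
    exact ⟨R, hR, h⟩
  · rintro ⟨R, hR, h⟩
    refine ⟨R.support.sup fun j => (R.coeff j).totalDegree, R, hR, fun j => ?_, h⟩
    by_cases hj : R.coeff j = 0
    · rw [hj, MvPolynomial.totalDegree_zero]
      exact Nat.zero_le _
    · exact Finset.le_sup (f := fun j => (R.coeff j).totalDegree)
        (Polynomial.mem_support_iff.2 hj)

theorem sxl_add {K L : Type} [Field K] [Field L] [Algebra K L] {k : ℕ} {x : Fin k → L}
    {y y' : L} (h : ∃ e, DIk.SXL K e x y) (h' : ∃ e, DIk.SXL K e x y') : ∃ e, DIk.SXL K e x (y + y') := by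
  let φ : A K k →+* L := (MvPolynomial.aeval (R := K) x).toRingHom
  let _ : Algebra (A K k) L := φ.toAlgebra
  rw [sxl_iff] at h h' ⊢
  exact h.add h'

theorem sxl_smul {K L : Type} [Field K] [Field L] [Algebra K L] {k : ℕ} {x : Fin k → L} (c : K)
    {y : L} (h : ∃ e, DIk.SXL K e x y) : ∃ e, DIk.SXL K e x (algebraMap K L c * y) := by
  let φ : A K k →+* L := (MvPolynomial.aeval (R := K) x).toRingHom
  let _ : Algebra (A K k) L := φ.toAlgebra
  rw [sxl_iff] at h ⊢
  have h1 : algebraMap K L c = algebraMap (A K k) L (MvPolynomial.C c) := by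
    change _ = MvPolynomial.aeval x (MvPolynomial.C c)
    rw [MvPolynomial.aeval_C]
  rw [h1]
  exact (isAlgebraic_algebraMap _).mul h

/-- translation by a constant -/
theorem sxl_add_const {K L : Type} [Field K] [Field L] [Algebra K L] {e k : ℕ} {x : Fin k → L}
    {y : L} (c : K) (h : DIk.SXL K e x y) : DIk.SXL K e x (y + algebraMap K L c) := by
  obtain ⟨R, hR, hd, h0⟩ := h
  refine ⟨Polynomial.taylor (MvPolynomial.C (-c)) R, ?_, fun j => ?_, ?_⟩
  · intro h1
    apply hR
    apply Polynomial.taylor_injective (MvPolynomial.C (-c))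
    rw [h1, map_zero]
  · rw [Polynomial.taylor_coeff, Polynomial.eval_eq_sum_range]
    refine MvPolynomial.totalDegree_finsetSum_le fun i _ => ?_
    rw [Polynomial.hasseDeriv_coeff, ← map_pow]
    refine (MvPolynomial.totalDegree_mul _ _).trans ?_
    rw [MvPolynomial.totalDegree_C, add_zero]
    refine (MvPolynomial.totalDegree_mul _ _).trans ?_
    have h1 : (((i + j).choose j : ℕ) : MvPolynomial (Fin k) K) =
        MvPolynomial.C (((i + j).choose j : ℕ) : K) := by
      rw [map_natCast]
    rw [h1, MvPolynomial.totalDegree_C, zero_add]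
    exact hd _
  · rw [Polynomial.taylor_apply, Polynomial.eval₂_comp, Polynomial.eval₂_add, Polynomial.eval₂_X,
      Polynomial.eval₂_C]
    have h1 : (MvPolynomial.aeval (R := K) x).toRingHom (MvPolynomial.C (-c)) =
        - algebraMap K L c := by
      change MvPolynomial.aeval x (MvPolynomial.C (-c)) = _
      rw [MvPolynomial.aeval_C, map_neg]
    rw [h1, add_neg_cancel_right]
    exact h0

theorem rt_add_const {e k : ℕ} {x : Fin k → ℂ} {y : ℂ} {c : ℂ} (hc : IsAlgebraic ℚ c)
    (h : RT e x y) : RT e x (y + c) :=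
  rt_of_sxl (sxl_add_const (K := algebraicClosure ℚ ℂ) ⟨c, mem_algebraicClosure_iff.2 hc⟩
    (sxl_of_rt h))

end Pool.Agent.DIk
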