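import Pool.Agent.DIk.DomU
import Pool.Agent.DIk.DomD
import Pool.Agent.DIk.StrM
import Pool.Agent.QNH.FreeH

/-! # The structure theorem for `k` numbers -/

namespace Pool.Agent.DIk

open Pool.Agent.QN Pool.Agent.QS Pool.Agent.DI

theorem struct_thm (F : Subfield ℂ) (hF : ∀ c ∈ F, IsAlgebraic ℚ c) (e : ℕ) {k : ℕ} (hk : 0 < k)
    (x : Fin k → ℂ) (hx : AlgebraicIndependent ℚ x) (V : Submodule F ℂ) [FiniteDimensional F V]
    (hV : Pool.Agent.QNH.Free0 (algebraicClosure ℚ ℂ) V) :
    ∃ (n : ℕ) (U : Fin n → Submodule F ℂ),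
      (∀ i, U i ≤ V ∧ Module.finrank F (U i) ≤ (k + e).choose k) ∧
      {y : ℂ | y ∈ V ∧ RT e x y} = ⋃ i, (U i : Set ℂ) := by
  classical
  let K := algebraicClosure ℚ ℂ
  have hKcl : IsAlgClosed K := (algebraicClosure.isAlgClosure ℚ ℂ).isAlgClosed
  have hxK : AlgebraicIndependent K x := by
    have : Algebra.IsAlgebraic ℚ K := algebraicClosure.isAlgebraic ℚ ℂ
    exact hx.extendScalars K
  let f : F →+* K := (algebraMap F ℂ).codRestrict K.toSubring fun c =>
    mem_algebraicClosure_iff.2 (hF c c.2)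
  have hf : ∀ c : F, algebraMap K ℂ (f c) = (c : ℂ) := fun c => rfl
  -- the elements of `V` algebraic over `K(x)`
  let V1 : Submodule F ℂ :=
    { carrier := {y | y ∈ V ∧ ∃ e', DIk.SXL K e' x y}
      add_mem' := fun {a b} ha hb => ⟨V.add_mem ha.1 hb.1, sxl_add ha.2 hb.2⟩
      zero_mem' := ⟨V.zero_mem, 0, Polynomial.X, Polynomial.X_ne_zero, fun j => by
        rw [Polynomial.coeff_X]
        split_ifs
        · rw [MvPolynomial.totalDegree_one]
        · rw [MvPolynomial.totalDegree_zero], by rw [Polynomial.eval₂_X]⟩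
      smul_mem' := fun c {a} ha => ⟨V.smul_mem c ha.1, by
        have h1 : c • a = algebraMap K ℂ (f c) * a := by
          rw [hf]
          rfl
        rw [h1]
        exact sxl_smul _ ha.2⟩ }
  have hV1V : V1 ≤ V := fun y hy => hy.1
  have hfin : FiniteDimensional F V1 := Submodule.finiteDimensional_of_le hV1V
  let b := Module.finBasis F V1
  obtain ⟨M, iM, iKM, iAM, iQM, iAQ, iKA, iKQ, iF, iG, φ, hφY, hφS, hφS'⟩ :=
    exists_model2 x hxK (Set.range fun i => ((b i : V1) : ℂ)) (Set.finite_range _)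
      (by
        rintro y ⟨i, rfl⟩
        exact (b i).2.2)
  let aF : Algebra F M := ((algebraMap K M).comp f).toAlgebra
  have hFM : ∀ c : F, algebraMap F M c = algebraMap K M (f c) := fun _ => rfl
  let φF : M →ₗ[F] ℂ :=
    { toFun := φ
      map_add' := map_add φ
      map_smul' := fun c u => by
        rw [Algebra.smul_def, map_mul, hFM, AlgHom.commutes]
        rfl }
  have hφF : ∀ u, φF u = φ u := fun _ => rfl
  have hφinj : Function.Injective φF := φ.toRingHom.injective
  let V' : Submodule F M := V1.comap φF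
  have hV'fin : FiniteDimensional F V' := by
    let g : V' →ₗ[F] V1 := φF.restrict fun u hu => hu
    have hg : Function.Injective g := fun u w h => by
      apply Subtype.ext
      apply hφinj
      exact congrArg (fun z : V1 => (z : ℂ)) h
    exact FiniteDimensional.of_injective g hg
  obtain ⟨Γ, iΓ, v, hv⟩ := exists_pls K M (⟨0, hk⟩ : Fin k)
  obtain ⟨n, U, hU, hUe⟩ := union_M hv (F := F) (fun c => ⟨f c, hFM c⟩) e V'
  refine ⟨n, fun i => (U i).map φF, fun i => ⟨?_, ?_⟩, ?_⟩
  · rintro y ⟨u, hu, rfl⟩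
    exact ((hU i).1 hu : φF u ∈ V1).1
  · obtain ⟨hUV, y, hyU, hyS, hyD⟩ := hU i
    have hUfin : FiniteDimensional F (U i) := Submodule.finiteDimensional_of_le hUV
    rw [← (Submodule.equivMapOfInjective φF hφinj (U i)).finrank_eq]
    let w := Module.finBasis F (U i)
    have hwi : LinearIndependent F fun j => ((w j : U i) : M) :=
      w.linearIndependent.map' (U i).subtype (Submodule.ker_subtype _)
    have hwφ : LinearIndependent F fun j => φF ((w j : U i) : M) :=
      hwi.map' φF (LinearMap.ker_eq_bot.2 hφinj)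
    have hwV : ∀ j, φF ((w j : U i) : M) ∈ V := fun j => (hUV (w j).2 : φF _ ∈ V1).1
    refine dim_le (K := K) hv hyS (fun j => ((w j : U i) : M)) (fun j => hyD _ (w j).2) ?_
    rw [Fintype.linearIndependent_iff]
    intro g hg
    refine hV _ _ hwV hwφ g ?_
    have h1 := congrArg φ hg
    rw [map_zero, map_sum] at h1
    rw [← h1]
    refine Finset.sum_congr rfl fun j _ => ?_
    rw [Algebra.smul_def, map_mul, AlgHom.commutes, hφF]
  · ext y
    rw [Set.mem_iUnion]
    constructor
    · rintro ⟨hyV, hy⟩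
      have hy1 : y ∈ V1 := ⟨hyV, e, sxl_of_rt hy⟩
      -- the preimage
      have h1 := congrArg (fun z : V1 => (z : ℂ)) (b.sum_repr ⟨y, hy1⟩)
      choose u hu using fun i => hφY ((b i : V1) : ℂ) ⟨i, rfl⟩
      have h2 : φF (∑ i, b.repr ⟨y, hy1⟩ i • u i) = y := by
        rw [map_sum]
        rw [Submodule.coe_sum] at h1
        refine Eq.trans (Finset.sum_congr rfl fun i _ => ?_) h1
        rw [map_smul, hφF, hu]
        rfl
      have h3 : (∑ i, b.repr ⟨y, hy1⟩ i • u i) ∈ V' := by
        change φF _ ∈ V1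
        rw [h2]
        exact hy1
      have h4 : DIk.SX K k e (∑ i, b.repr ⟨y, hy1⟩ i • u i) := by
        refine hφS e _ ?_
        rw [← hφF, h2]
        exact sxl_of_rt hy
      obtain ⟨i, hi⟩ := (hUe _ h3).1 h4
      exact ⟨i, _, hi, h2⟩
    · rintro ⟨i, u, hu, rfl⟩
      have h1 : u ∈ V' := (hU i).1 hu
      refine ⟨(h1 : φF u ∈ V1).1, rt_of_sxl ?_⟩
      exact hφS' e u ((hUe u h1).2 ⟨i, hu⟩)

end Pool.Agent.DIk
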