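import Pool.Agent.DIk.End
import Pool.Agent.DI.SubsA
import Pool.Agent.DIk.NoCubeF

/-! # Subset sums of independent numbers in a space which is free over the algebraic numbers -/

namespace Pool.Agent.DIk

open Module Submodule Pool.Agent.QS Pool.Agent.DI

namespace SubF

theorem free_mono {F : Subfield ℂ} {U V : Submodule F ℂ} (h : U ≤ V)
    (hV : Pool.Agent.QR.Free (algebraicClosure ℚ ℂ) V) :
    Pool.Agent.QR.Free (algebraicClosure ℚ ℂ) U :=
  fun ι _ v hv => hV ι v fun i => h (hv i)

/-- a nonzero element of a free space is transcendental -/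
theorem transc {F : Subfield ℂ} {V : Submodule F ℂ}
    (hV : Pool.Agent.QR.Free (algebraicClosure ℚ ℂ) V) {y : ℂ} (hy : y ∈ V) (h0 : y ≠ 0) :
    ¬ IsAlgebraic ℚ y := by
  intro ha
  have h1 := hV (Fin 1) (fun _ => y) (fun _ => hy) (by
    rw [linearIndependent_unique_iff]
    exact h0) (-⟨y, mem_algebraicClosure_iff.2 ha⟩) (fun _ => 1) (by
    rw [Fin.sum_univ_one, map_neg, map_one, one_mul]
    exact neg_add_cancel y)
  exact one_ne_zero (h1.2 0)

end SubF

theorem subsetsF (k e : ℕ) (hk : 0 < k) : ∃ (n : ℕ) (C c : ℝ), 0 < n ∧ 0 < C ∧ 0 < c ∧ c ≤ 1 ∧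
    ∀ F : Subfield ℂ, (∀ z ∈ F, IsAlgebraic ℚ z) →
    ∀ x : Fin k → ℂ, AlgebraicIndependent ℚ x →
    ∀ (N : ℕ) (t : ℂ) (l : Fin N → ℂ), 0 < N →
      Pool.Agent.QR.Free (algebraicClosure ℚ ℂ)
        (span F (Set.range (Fin.cons t l : Fin (N + 1) → ℂ))) →
      LinearIndependent F l →
      ({A : Finset (Fin N) | A.card = n ∧ RX e x (t + ∑ i ∈ A, l i)}.ncard : ℝ) ≤
        C * (N : ℝ) ^ ((n : ℝ) - c) := by
  classical
  obtain ⟨d, hd, hsub⟩ := subbox k (k * e) hk
  obtain ⟨M0, hM0⟩ := no_cubeF k d hk hd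
  obtain ⟨s, n, hs, hn, hbox⟩ := hsub M0
  obtain ⟨C, c0, hC, hc0, hc1, hfew⟩ := grid_subsets n s hs
  refine ⟨n, 1 + C, c0, hn, by positivity, hc0, hc1, fun F hF x hx N t l hN hfree hli => ?_⟩
  let K := algebraicClosure ℚ ℂ
  have : IsAlgClosed K := (algebraicClosure.isAlgClosure ℚ ℂ).isAlgClosed
  have hxK : AlgebraicIndependent K x := by
    have : Algebra.IsAlgebraic ℚ K := algebraicClosure.isAlgebraic ℚ ℂ
    exact hx.extendScalars K
  have hKc : Countable K := by
    have h1 : {x : ℂ | IsAlgebraic ℚ x}.Countable := Algebraic.countable ℚ ℂ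
    exact (h1.mono fun c hc => mem_algebraicClosure_iff.1 hc).to_subtype
  set V : Submodule F ℂ := span F (Set.range (Fin.cons t l : Fin (N + 1) → ℂ)) with hVdef
  have htV : t ∈ V := subset_span ⟨0, rfl⟩
  have hlV : ∀ i, l i ∈ V := fun i => subset_span ⟨i.succ, by simp⟩
  have hexp : ∀ A : Finset (Fin N), t + ∑ i ∈ A, l i ∈ V := fun A =>
    add_mem htV (sum_mem fun i _ => hlV i)
  have htra : ∀ y ∈ V, y ≠ 0 → ¬ IsAlgebraic ℚ y := fun y hy hy0 => SubF.transc hfree hy hy0
  -- the subsets with non-zero sum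
  have hmain : ({A : Finset (Fin N) | (A.card = n ∧ t + ∑ i ∈ A, l i ≠ 0) ∧
      RX e x (t + ∑ i ∈ A, l i)}.ncard : ℝ) ≤ C * (N : ℝ) ^ ((n : ℝ) - c0) := by
    refine hfew N hN _ (fun A hA => hA.1.1) fun p hpi hpd => ?_
    by_contra hcon
    push Not at hcon
    let w : Fin n → Fin s → ℂ := fun m i => l (p m i)
    have hpz : ∀ z : Fin n → Fin s, Function.Injective fun m => p m (z m) := by
      intro z m m' h
      by_contra hne
      exact hpd m m' hne _ _ h
    have hyz : ∀ z : Fin n → Fin s, t + ∑ m, w m (z m) =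
        t + ∑ i ∈ Finset.univ.image (fun m => p m (z m)), l i := by
      intro z
      rw [Finset.sum_image fun a _ b _ h => hpz z h]
    have htr : ∀ z : Fin n → Fin s, ¬ IsAlgebraic ℚ (t + ∑ m, w m (z m)) := by
      intro z
      rw [hyz]
      exact htra _ (hexp _) (hcon z).1.2
    have hS : ∀ z : Fin n → Fin s, SXL K (k * e) x (t + ∑ m, w m (z m)) ∧
        ¬ ∃ κ : K, algebraMap K ℂ κ = t + ∑ m, w m (z m) := by
      intro z
      refine ⟨?_, ?_⟩
      · rw [hyz]
        exact sxl_of_rx (hcon z).2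
      · rintro ⟨κ, hκ⟩
        refine htr z ?_
        rw [← hκ]
        exact mem_algebraicClosure_iff.1 κ.2
    have hw : ∀ m i j, ∃ e', SXL K e' x (w m i - w m j) := by
      intro m i j
      let z : Fin n → Fin s := fun _ => j
      have h1 : w m i - w m j =
          (t + ∑ k, w k (Function.update z m i k)) - (t + ∑ k, w k (z k)) := by
        rw [add_sub_add_left_eq_sub, ← Finset.sum_sub_distrib, Finset.sum_eq_single m]
        · rw [Function.update_self]
        · intro k _ hk
          rw [Function.update_of_ne hk, sub_self]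
        · intro h
          exact absurd (Finset.mem_univ m) h
      rw [h1]
      exact sxl_sub ⟨_, (hS _).1⟩ ⟨_, (hS _).1⟩
    obtain ⟨I, z0, j, hI, hj, u, hu, hTR⟩ := hbox K x hxK t w hS hw
    refine hM0 F hF u (t + ∑ m, w m (z0 m)) (fun m => w (I m) (j m) - w (I m) (z0 (I m))) hu
      (SubF.free_mono ?_ hfree) ?_ hTR
    · rw [Submodule.span_le]
      rintro _ ⟨i, rfl⟩
      refine Fin.cases ?_ (fun m => ?_) i
      · rw [Fin.cons_zero, hyz]
        exact hexp _
      · rw [Fin.cons_succ]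
        exact sub_mem (hlV _) (hlV _)
    · -- differences of different members of an independent family
      rw [Fintype.linearIndependent_iff]
      intro g hg m0
      have hli' := Fintype.linearIndependent_iff.1 hli
      have h1 := hli' (fun k => ∑ m, g m * ((if p (I m) (j m) = k then 1 else 0) -
        (if p (I m) (z0 (I m)) = k then 1 else 0))) (by
        rw [← hg]
        simp only [Finset.sum_smul]
        rw [Finset.sum_comm]
        refine Finset.sum_congr rfl fun m _ => ?_
        have h2 : ∀ k : Fin N, (g m * ((if p (I m) (j m) = k then (1 : F) else 0) -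
            (if p (I m) (z0 (I m)) = k then (1 : F) else 0))) • l k =
            g m • ((if p (I m) (j m) = k then l k else 0) -
              (if p (I m) (z0 (I m)) = k then l k else 0)) := by
          intro k
          rw [mul_smul]
          congr 1
          rw [sub_smul]
          congr 1
          · split_ifs
            · rw [one_smul]
            · rw [zero_smul]
          · split_ifs
            · rw [one_smul]
            · rw [zero_smul]
        rw [Finset.sum_congr rfl fun k _ => h2 k, ← Finset.smul_sum, Finset.sum_sub_distrib,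
          Finset.sum_ite_eq, Finset.sum_ite_eq, if_pos (Finset.mem_univ _),
          if_pos (Finset.mem_univ _)]) (p (I m0) (j m0))
      rw [Finset.sum_eq_single m0] at h1
      · rw [if_pos rfl, if_neg fun h => hj m0 (hpi (I m0) h.symm), sub_zero, mul_one] at h1
        exact h1
      · intro m _ hm
        rw [if_neg fun h => hpd _ _ (fun h' => hm (hI h')) _ _ h,
          if_neg fun h => hpd _ _ (fun h' => hm (hI h')) _ _ h, sub_zero, mul_zero]
      · intro h
        exact absurd (Finset.mem_univ _) h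
  -- at most one subset has sum zero
  have hzero : {A : Finset (Fin N) | t + ∑ i ∈ A, l i = 0}.ncard ≤ 1 := by
    rw [Set.ncard_le_one (Set.toFinite _)]
    intro A hA A' hA'
    have h0 : ∑ i ∈ A, l i = ∑ i ∈ A', l i := by
      have h1 : t + ∑ i ∈ A, l i = t + ∑ i ∈ A', l i := by
        rw [show t + ∑ i ∈ A, l i = 0 from hA, show t + ∑ i ∈ A', l i = 0 from hA']
      exact add_left_cancel h1
    have h2 := Fintype.linearIndependent_iff.1 hli
      (fun i => (if i ∈ A then (1 : F) else 0) - (if i ∈ A' then (1 : F) else 0)) (by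
        simp only [sub_smul, ite_smul, one_smul, zero_smul, Finset.sum_sub_distrib]
        rw [← Finset.sum_filter, ← Finset.sum_filter]
        simp only [Finset.filter_mem_eq_inter, Finset.univ_inter]
        rw [h0, sub_self])
    ext i
    have h3 := h2 i
    by_cases h4 : i ∈ A
    · by_cases h5 : i ∈ A'
      · exact ⟨fun _ => h5, fun _ => h4⟩
      · simp [h4, h5] at h3
    · by_cases h5 : i ∈ A'
      · simp [h4, h5] at h3
      · exact ⟨fun h => absurd h h4, fun h => absurd h h5⟩
  have hsubset : {A : Finset (Fin N) | A.card = n ∧ RX e x (t + ∑ i ∈ A, l i)} ⊆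
      {A : Finset (Fin N) | t + ∑ i ∈ A, l i = 0} ∪
        {A : Finset (Fin N) | (A.card = n ∧ t + ∑ i ∈ A, l i ≠ 0) ∧
          RX e x (t + ∑ i ∈ A, l i)} := by
    rintro A ⟨h1, h2⟩
    by_cases h3 : t + ∑ i ∈ A, l i = 0
    · exact Or.inl h3
    · exact Or.inr ⟨⟨h1, h3⟩, h2⟩
  have hcard := (Set.ncard_le_ncard hsubset (Set.toFinite _)).trans (Set.ncard_union_le _ _)
  have hcard' : ({A : Finset (Fin N) | A.card = n ∧ RX e x (t + ∑ i ∈ A, l i)}.ncard : ℝ) ≤
      ({A : Finset (Fin N) | t + ∑ i ∈ A, l i = 0}.ncard : ℝ) +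
        ({A : Finset (Fin N) | (A.card = n ∧ t + ∑ i ∈ A, l i ≠ 0) ∧
          RX e x (t + ∑ i ∈ A, l i)}.ncard : ℝ) := by
    exact_mod_cast hcard
  have hN1 : (1 : ℝ) ≤ (N : ℝ) ^ ((n : ℝ) - c0) := by
    refine Real.one_le_rpow (by exact_mod_cast hN) ?_
    have : (1 : ℝ) ≤ n := by exact_mod_cast hn
    linarith
  have hz1 : ({A : Finset (Fin N) | t + ∑ i ∈ A, l i = 0}.ncard : ℝ) ≤ 1 := by
    exact_mod_cast hzero
  calc _ ≤ 1 + C * (N : ℝ) ^ ((n : ℝ) - c0) := by linarith
    _ ≤ 1 * (N : ℝ) ^ ((n : ℝ) - c0) + C * (N : ℝ) ^ ((n : ℝ) - c0) := by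
        rw [one_mul]
        linarith
    _ = (1 + C) * (N : ℝ) ^ ((n : ℝ) - c0) := by ring

end Pool.Agent.DIk
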