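import Pool.Agent.DI.Defs

/-! # The inertia group and the leading coefficient at a place with any residue field -/

namespace Pool.Agent.DIk

open Pool.Agent.QN Pool.Agent.QS Pool.Agent.DI

section

variable {M Γ : Type} [Field M] [LinearOrderedCommGroupWithZero Γ]

/-- a residue map with values in `ℂ` (zero outside of the valuation ring) -/
structure Rs (v : Valuation M Γ) (r : M → ℂ) : Prop where
  add : ∀ a b, v a ≤ 1 → v b ≤ 1 → r (a + b) = r a + r b
  mul : ∀ a b, v a ≤ 1 → v b ≤ 1 → r (a * b) = r a * r b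
  zero : ∀ a, v a ≤ 1 → (r a = 0 ↔ v a < 1)
  big : ∀ a, 1 < v a → r a = 0

/-- a place of `M`: discrete on `Q`, trivial on `K`, with a residue map to `ℂ` -/
structure Plc (K Q : Type) [Field K] [Field Q] [Algebra K M] [Algebra Q M] (v : Valuation M Γ)
    (π : Γ) (r : M → ℂ) : Prop where
  disc : Disc Q v π
  const : ∀ c : K, c ≠ 0 → v (algebraMap K M c) = 1
  res : Rs v r

/-- the inertia group -/
def In (Q : Type) [Field Q] [Algebra Q M] (v : Valuation M Γ) (g : M ≃ₐ[Q] M) : Prop :=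
  (∀ u, v (g u) = v u) ∧ ∀ u, v u ≤ 1 → v (g u - u) < 1

/-- the leading coefficient -/
noncomputable def lam (r : M → ℂ) (z0 z : M) : ℂ := r (z / z0)

end

section

variable {M Γ : Type} [Field M] [LinearOrderedCommGroupWithZero Γ] {v : Valuation M Γ} {r : M → ℂ}

theorem Rs.r0 (h : Rs v r) : r 0 = 0 := by
  have h1 : v (0 : M) < 1 := by
    rw [map_zero]
    exact zero_lt_one
  exact (h.zero 0 h1.le).2 h1

theorem Rs.r1 (h : Rs v r) : r 1 = 1 := by
  have h1 : v (1 : M) = 1 := map_one _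
  have h2 := h.mul 1 1 h1.le h1.le
  rw [mul_one] at h2
  have h3 : r 1 ≠ 0 := by
    intro h0
    have h4 := (h.zero 1 h1.le).1 h0
    rw [h1] at h4
    exact lt_irrefl _ h4
  have h4 : r 1 * (r 1 - 1) = 0 := by
    rw [mul_sub, ← h2, mul_one, sub_self]
  rcases mul_eq_zero.1 h4 with h5 | h5
  · exact absurd h5 h3
  · exact sub_eq_zero.1 h5

theorem Rs.neg (h : Rs v r) {a : M} (ha : v a ≤ 1) : r (-a) = - r a := by
  have h1 := h.add a (-a) ha (by rw [Valuation.map_neg]; exact ha)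
  rw [add_neg_cancel, h.r0] at h1
  exact eq_neg_of_add_eq_zero_right h1.symm

theorem Rs.sub (h : Rs v r) {a b : M} (ha : v a ≤ 1) (hb : v b ≤ 1) : r (a - b) = r a - r b := by
  rw [sub_eq_add_neg, h.add a (-b) ha (by rw [Valuation.map_neg]; exact hb), h.neg hb,
    sub_eq_add_neg]

theorem Rs.sum (h : Rs v r) {ι : Type} (s : Finset ι) (f : ι → M) (hf : ∀ i ∈ s, v (f i) ≤ 1) :
    r (∑ i ∈ s, f i) = ∑ i ∈ s, r (f i) := by
  classical
  induction s using Finset.induction_on with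
  | empty => rw [Finset.sum_empty, Finset.sum_empty, h.r0]
  | insert a s ha ih =>
    rw [Finset.sum_insert ha, Finset.sum_insert ha, h.add _ _ (hf a (Finset.mem_insert_self a s))
      (v.map_sum_le fun i hi => hf i (Finset.mem_insert_of_mem hi)),
      ih fun i hi => hf i (Finset.mem_insert_of_mem hi)]

/-- close elements have the same residue -/
theorem Rs.eq (h : Rs v r) {a b : M} (ha : v a ≤ 1) (hb : v b ≤ 1) : r a = r b ↔ v (a - b) < 1 := by
  have h1 : v (a - b) ≤ 1 := (v.map_sub a b).trans (max_le ha hb)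
  rw [← h.zero _ h1, h.sub ha hb, sub_eq_zero]

end

variable {K Q M Γ : Type} [Field K] [Field Q] [Field M] [Algebra K Q] [Algebra K M] [Algebra Q M]
  [IsScalarTower K Q M] [LinearOrderedCommGroupWithZero Γ] {v : Valuation M Γ} {π : Γ} {r : M → ℂ}

/-- the decomposition group -/
def Dec (Q : Type) [Field Q] [Algebra Q M] (v : Valuation M Γ) : Subgroup (M ≃ₐ[Q] M) where
  carrier := {g | ∀ u, v (g u) = v u}
  one_mem' := fun u => rfl
  mul_mem' := by
    intro a b ha hb u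
    rw [AlgEquiv.mul_apply, ha, hb]
  inv_mem' := by
    intro a ha u
    have h1 := ha (a⁻¹ u)
    rw [← AlgEquiv.mul_apply, mul_inv_cancel, AlgEquiv.one_apply] at h1
    exact h1.symm

theorem mem_Dec {Q : Type} [Field Q] [Algebra Q M] {v : Valuation M Γ} {g : M ≃ₐ[Q] M} :
    g ∈ Dec Q v ↔ ∀ u, v (g u) = v u := Iff.rfl

/-- the class of `1` for the decomposition group is the group itself -/
theorem sameV_Dec [Infinite K] [FiniteDimensional Q M] (h : Plc K Q v π r)
    (τ : M ≃ₐ[Q] M) (hτ : SameV (Dec Q v) v 1 τ) : τ ∈ Dec Q v := by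
  classical
  by_contra hn
  obtain ⟨q, hq⟩ := h.disc.surj
  have hy : ∀ g : M ≃ₐ[Q] M, v (g (algebraMap Q M q⁻¹)) = π⁻¹ := by
    intro g
    rw [AlgEquiv.commutes, map_inv₀, map_inv₀, hq]
  have hb0 : ∀ g ∈ (⊥ : Subgroup (M ≃ₐ[Q] M)), g (algebraMap Q M q⁻¹) = algebraMap Q M q⁻¹ :=
    fun g _ => g.commutes _
  obtain ⟨b, -, hb2, hb3⟩ := exists_single_pole h.disc h.const ⊥ (algebraMap Q M q⁻¹) hb0 1
  have hin : ∀ g : M ≃ₐ[Q] M, g ∈ Dec Q v → v (g b) = π⁻¹ := by
    intro g hg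
    rw [hb2 g (fun z _ => (hg z).symm), hy]
  have hout : ∀ g : M ≃ₐ[Q] M, g ∉ Dec Q v → v (g b) ≤ 1 := by
    intro g hg
    apply hb3 g
    intro hs
    apply hg
    intro u
    exact (hs u (fun k hk => by rw [Subgroup.mem_bot.1 hk]; rfl)).symm
  have : Fintype (Dec Q v) := Fintype.ofFinite _
  have hz : ∀ k ∈ Dec Q v, k (∏ d : Dec Q v, (d : M ≃ₐ[Q] M) b) =
      ∏ d : Dec Q v, (d : M ≃ₐ[Q] M) b := by
    intro k hk
    rw [map_prod]
    exact Fintype.prod_equiv (Equiv.mulLeft (⟨k, hk⟩ : Dec Q v)) _ _ fun d => rfl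
  have h1 := hτ _ hz
  rw [AlgEquiv.one_apply, map_prod, map_prod, map_prod] at h1
  have h2 : ∏ d : Dec Q v, v ((d : M ≃ₐ[Q] M) b) = π⁻¹ ^ Fintype.card (Dec Q v) := by
    rw [Finset.prod_congr rfl fun d _ => hin _ (SetLike.coe_mem d), Finset.prod_const,
      Finset.card_univ]
  have h3 : ∏ d : Dec Q v, v (τ ((d : M ≃ₐ[Q] M) b)) ≤ 1 := by
    refine Finset.prod_le_one' fun d _ => ?_
    rw [← AlgEquiv.mul_apply]
    apply hout
    intro hm
    exact hn ((Subgroup.mul_mem_cancel_right _ d.2).1 hm)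
  rw [← h1, h2] at h3
  have h4 : 1 < π⁻¹ := (one_lt_inv₀ h.disc.pos).2 h.disc.lt
  exact absurd h3 (not_le.2 (one_lt_pow₀ h4 Fintype.card_ne_zero))

/-- an element fixed by the decomposition group has a value of `Q` -/
theorem Plc.fixD [Infinite K] [FiniteDimensional Q M] [IsGalois Q M] (h : Plc K Q v π r) (z : M)
    (hz : ∀ g : M ≃ₐ[Q] M, (∀ u, v (g u) = v u) → g z = z) (h1 : 1 < v z) : 1 ≤ v z * π := by
  have hz' : ∀ g ∈ Dec Q v, g z = z := fun g hg => hz g hg
  have h2 := class_one h.disc h.const (Dec Q v) z hz' 1 h1 {Cs.mk (Dec Q v) 1} (by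
    intro τ
    rw [Finset.mem_singleton, Cs.mk_eq_iff, mul_one]
    constructor
    · intro hτ w hw
      rw [AlgEquiv.one_apply, ((Dec Q v).inv_mem_iff.1 hτ) w]
    · intro hs
      exact (Dec Q v).inv_mem (sameV_Dec h τ hs))
  rw [Finset.prod_singleton, cj_mk _ z hz'] at h2
  exact h2

/-- the residue character of an element of the decomposition group -/
noncomputable def resHom (h : Plc K Q v π r) (d : Dec Q v) : v.integer →* ℂ where
  toFun u := r ((d : M ≃ₐ[Q] M) (u : M))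
  map_one' := by
    change r ((d : M ≃ₐ[Q] M) 1) = 1
    rw [map_one, h.res.r1]
  map_mul' := by
    intro a b
    change r ((d : M ≃ₐ[Q] M) ((a : M) * (b : M))) = _
    rw [map_mul]
    exact h.res.mul _ _ (by rw [d.2 a]; exact a.2) (by rw [d.2 b]; exact b.2)

/-- an element fixed by the inertia group has a value of `Q` -/
theorem Plc.fix [Infinite K] [FiniteDimensional Q M] [IsGalois Q M] (h : Plc K Q v π r) (z : M)
    (hz : ∀ g : M ≃ₐ[Q] M, In Q v g → g z = z) (h1 : 1 < v z) : 1 ≤ v z * π := by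
  classical
  have : Fintype (Dec Q v) := Fintype.ofFinite _
  have hz0 : z ≠ 0 := by
    rintro rfl
    rw [map_zero] at h1
    exact absurd h1 (not_lt.2 zero_le_one)
  have hvz : v z ≠ 0 := (Valuation.ne_zero_iff v).2 hz0
  have hc : ∀ d : Dec Q v, v ((d : M ≃ₐ[Q] M) z / z) = 1 := by
    intro d
    rw [map_div₀, d.2 z, div_self hvz]
  obtain ⟨u, hu⟩ : ∃ u : v.integer, ∑ d : Dec Q v, r ((d : M ≃ₐ[Q] M) z / z) *
      r ((d : M ≃ₐ[Q] M) (u : M)) ≠ 0 := by
    by_contra hcon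
    push Not at hcon
    have hli := linearIndependent_monoidHom v.integer ℂ
    rw [linearIndependent_iff] at hli
    have h2 := hli (∑ d : Dec Q v, Finsupp.single (resHom h d) (r ((d : M ≃ₐ[Q] M) z / z))) (by
      rw [map_sum]
      funext u
      rw [Finset.sum_apply]
      refine Eq.trans (Finset.sum_congr rfl fun d _ => ?_) (hcon u)
      rw [Finsupp.linearCombination_single]
      rfl)
    have h3 := congrArg (fun f : (v.integer →* ℂ) →₀ ℂ => f (resHom h 1)) h2
    simp only [Finsupp.finsetSum_apply, Finsupp.single_apply, Finsupp.coe_zero,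
      Pi.zero_apply] at h3
    have h4 : ∀ d : Dec Q v, (if resHom h d = resHom h 1 then r ((d : M ≃ₐ[Q] M) z / z) else 0) =
        if resHom h d = resHom h 1 then (1 : ℂ) else 0 := by
      intro d
      split_ifs with hd
      · have h5 : In Q v (d : M ≃ₐ[Q] M) := by
          refine ⟨d.2, fun u hu => ?_⟩
          have h6 := DFunLike.congr_fun hd (⟨u, hu⟩ : v.integer)
          exact (h.res.eq (by rw [d.2 u]; exact hu) hu).1 h6
        rw [hz _ h5, div_self hz0, h.res.r1]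
      · rfl
    rw [Finset.sum_congr rfl fun d _ => h4 d, Finset.sum_boole] at h3
    have h5 : 0 < (Finset.univ.filter fun d : Dec Q v => resHom h d = resHom h 1).card :=
      Finset.card_pos.2 ⟨1, by simp⟩
    exact (Nat.cast_ne_zero.2 h5.ne') h3
  -- the trace
  set w : M := ∑ d : Dec Q v, (d : M ≃ₐ[Q] M) (z * u) with hw
  have hwz : w / z = ∑ d : Dec Q v, ((d : M ≃ₐ[Q] M) z / z) * (d : M ≃ₐ[Q] M) (u : M) := by
    rw [hw, Finset.sum_div]
    refine Finset.sum_congr rfl fun d _ => ?_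
    rw [map_mul]
    field_simp
  have hud : ∀ d : Dec Q v, v ((d : M ≃ₐ[Q] M) (u : M)) ≤ 1 := by
    intro d
    rw [d.2 u]
    exact u.2
  have hterm : ∀ d ∈ (Finset.univ : Finset (Dec Q v)),
      v (((d : M ≃ₐ[Q] M) z / z) * (d : M ≃ₐ[Q] M) (u : M)) ≤ 1 := by
    intro d _
    rw [map_mul, hc, one_mul]
    exact hud d
  have hr : r (w / z) ≠ 0 := by
    rw [hwz, h.res.sum _ _ hterm, Finset.sum_congr rfl fun d _ => h.res.mul _ _ (hc d).le (hud d)]
    exact hu
  have hle : v (w / z) ≤ 1 := by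
    rw [hwz]
    exact v.map_sum_le hterm
  have heq : v (w / z) = 1 :=
    le_antisymm hle (not_lt.1 fun hlt => hr ((h.res.zero _ hle).2 hlt))
  have hvw : v w = v z := by
    rw [map_div₀, div_eq_one_iff_eq hvz] at heq
    exact heq
  rw [← hvw]
  refine h.fixD w (fun g hg => ?_) (by rw [hvw]; exact h1)
  rw [hw, map_sum]
  exact Fintype.sum_equiv (Equiv.mulLeft (⟨g, hg⟩ : Dec Q v)) _ _ fun d => rfl

omit [Algebra K Q] [IsScalarTower K Q M] in
theorem lam_self (h : Plc K Q v π r) {z0 : M} (hz0 : z0 ≠ 0) : lam r z0 z0 = 1 := by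
  unfold lam
  rw [div_self hz0, h.res.r1]

omit [Field K] [Field Q] [Algebra K Q] [Algebra K M] [Algebra Q M] [IsScalarTower K Q M] in
theorem div_le {z0 z : M} (hz0 : z0 ≠ 0) (hz : v z ≤ v z0) : v (z / z0) ≤ 1 := by
  rw [map_div₀]
  exact div_le_one_of_le₀ hz zero_le

omit [Algebra K Q] [IsScalarTower K Q M] in
theorem lam_add (h : Plc K Q v π r) {z0 z z' : M} (hz0 : z0 ≠ 0) (hz : v z ≤ v z0)
    (hz' : v z' ≤ v z0) : lam r z0 (z + z') = lam r z0 z + lam r z0 z' := by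
  unfold lam
  rw [add_div, h.res.add _ _ (div_le hz0 hz) (div_le hz0 hz')]

omit [Algebra K Q] [IsScalarTower K Q M] in
theorem lam_sum (h : Plc K Q v π r) {z0 : M} (hz0 : z0 ≠ 0) {ι : Type} (s : Finset ι) (f : ι → M)
    (hf : ∀ i ∈ s, v (f i) ≤ v z0) : lam r z0 (∑ i ∈ s, f i) = ∑ i ∈ s, lam r z0 (f i) := by
  unfold lam
  rw [Finset.sum_div, h.res.sum _ _ fun i hi => div_le hz0 (hf i hi)]

omit [Algebra K Q] [IsScalarTower K Q M] in
theorem lam_big (h : Plc K Q v π r) {z0 z : M} (hz0 : z0 ≠ 0) (hz : v z0 < v z) :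
    lam r z0 z = 0 := by
  refine h.res.big _ ?_
  rw [map_div₀]
  exact (one_lt_div₀ (zero_lt_iff.2 ((Valuation.ne_zero_iff v).2 hz0))).2 hz

omit [Algebra K Q] [IsScalarTower K Q M] in
theorem lam_small (h : Plc K Q v π r) {z0 z : M} (hz0 : z0 ≠ 0) (hz : v z < v z0) :
    lam r z0 z = 0 := by
  refine (h.res.zero _ (div_le hz0 hz.le)).2 ?_
  rw [map_div₀]
  exact (div_lt_one₀ (zero_lt_iff.2 ((Valuation.ne_zero_iff v).2 hz0))).2 hz

omit [Algebra K Q] [IsScalarTower K Q M] in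
theorem lam_ne_zero (h : Plc K Q v π r) {z0 z : M} (hz0 : z0 ≠ 0) :
    lam r z0 z ≠ 0 → v z = v z0 := by
  intro hl
  rcases lt_trichotomy (v z) (v z0) with hlt | heq | hgt
  · exact absurd (lam_small h hz0 hlt) hl
  · exact heq
  · exact absurd (lam_big h hz0 hgt) hl

omit [Algebra K Q] [IsScalarTower K Q M] in
theorem lam_ne_zero' (h : Plc K Q v π r) {z0 z : M} (hz0 : z0 ≠ 0) (hz : v z = v z0) :
    lam r z0 z ≠ 0 := by
  intro h0
  have h1 := (h.res.zero _ (div_le hz0 hz.le)).1 h0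
  rw [map_div₀, hz, div_self ((Valuation.ne_zero_iff v).2 hz0)] at h1
  exact lt_irrefl _ h1

omit [Algebra K Q] [IsScalarTower K Q M] in
/-- the character of the inertia group (for every `z`) -/
theorem lam_smul (h : Plc K Q v π r) {z0 : M} (hz0 : z0 ≠ 0) (g : M ≃ₐ[Q] M)
    (hg : In Q v g) (z : M) : lam r z0 (g z) = lam r z0 (g z0) * lam r z0 z := by
  rcases lt_or_ge (v z0) (v z) with hlt | hle
  · rw [lam_big h hz0 hlt, mul_zero, lam_big h hz0 (by rw [hg.1]; exact hlt)]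
  · unfold lam
    have h1 : g z / z0 = (g z0 / z0) * g (z / z0) := by
      have h2 : g z0 ≠ 0 := (map_ne_zero g).2 hz0
      rw [map_div₀]
      field_simp
    have h2 : v (z / z0) ≤ 1 := div_le hz0 hle
    have h3 : v (g (z / z0)) ≤ 1 := by
      rw [hg.1]
      exact h2
    rw [h1, h.res.mul _ _ (div_le hz0 (hg.1 z0).le) h3, (h.res.eq h3 h2).2 (hg.2 _ h2)]

omit [Field K] [Algebra K Q] [Algebra K M] [IsScalarTower K Q M] in
theorem In.one : In Q v (1 : M ≃ₐ[Q] M) := by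
  refine ⟨fun _ => rfl, fun u _ => ?_⟩
  rw [AlgEquiv.one_apply, sub_self, map_zero]
  exact zero_lt_one

omit [Field K] [Algebra K Q] [Algebra K M] [IsScalarTower K Q M] in
theorem In.mul {g g' : M ≃ₐ[Q] M} (h : In Q v g) (h' : In Q v g') : In Q v (g * g') := by
  refine ⟨fun u => by rw [AlgEquiv.mul_apply, h.1, h'.1], fun u hu => ?_⟩
  rw [AlgEquiv.mul_apply]
  have h1 : g (g' u) - u = (g (g' u) - g' u) + (g' u - u) := by ring
  rw [h1]
  exact (v.map_add _ _).trans_lt (max_lt (h.2 _ (by rw [h'.1]; exact hu)) (h'.2 _ hu))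

omit [Field K] [Algebra K Q] [Algebra K M] [IsScalarTower K Q M] in
theorem In.inv {g : M ≃ₐ[Q] M} (h : In Q v g) : In Q v g⁻¹ := by
  have h0 : ∀ u, g (g⁻¹ u) = u := fun u => by
    rw [← AlgEquiv.mul_apply, mul_inv_cancel, AlgEquiv.one_apply]
  have h1 : ∀ u, v (g⁻¹ u) = v u := by
    intro u
    have h2 := h.1 (g⁻¹ u)
    rw [h0] at h2
    exact h2.symm
  refine ⟨h1, fun u hu => ?_⟩
  have h2 := h.2 (g⁻¹ u) (by rw [h1]; exact hu)
  rw [h0, ← neg_sub, Valuation.map_neg] at h2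
  exact h2

omit [Algebra K Q] [IsScalarTower K Q M] in
theorem chi_pow [FiniteDimensional Q M] (h : Plc K Q v π r) {z0 : M} (hz0 : z0 ≠ 0)
    (g : M ≃ₐ[Q] M) (hg : In Q v g) : ∃ n : ℕ, 0 < n ∧ lam r z0 (g z0) ^ n = 1 := by
  refine ⟨orderOf g, orderOf_pos g, ?_⟩
  have key : ∀ n : ℕ, lam r z0 ((g ^ n) z0) = lam r z0 (g z0) ^ n := by
    intro n
    induction n with
    | zero =>
      rw [pow_zero, pow_zero, AlgEquiv.one_apply]
      exact lam_self h hz0
    | succ n ih =>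
      rw [pow_succ', AlgEquiv.mul_apply, lam_smul h hz0 g hg, ih, pow_succ']
  rw [← key, pow_orderOf_eq_one, AlgEquiv.one_apply]
  exact lam_self h hz0

end Pool.Agent.DIk
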